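import Pool.Agent.Lib.MP_aa62e0_lcV2.Committee

set_option autoImplicit false
set_option linter.unusedSectionVars false

open Finset
open scoped Classical

namespace Pool.Agent.MPaa62e0V

open Pool.Agent.MPaa62e0T (mass traces Ent IsProb)

variable {α : Type} [Fintype α] [DecidableEq α]

/-- The score: least `idx G` over the admissible `G`, and `N` if there is none. -/
noncomputable def comm_meas_score (C : Finset (Finset α)) (idx : Finset α → ℕ) (T : Finset α)
    (z : Finset α → Finset α) (θ : ℝ) (N : ℕ) (p : α → ℝ) (h : Finset α) : ℕ :=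
  sInf {v | v = N ∨ ∃ G ∈ C, G ∩ T = h ∩ T ∧ ms p (symmDiff G (z (h ∩ T))) ≤ θ ∧ idx G = v}

theorem comm_meas_score_le (C : Finset (Finset α)) (idx : Finset α → ℕ) (T : Finset α)
    (z : Finset α → Finset α) (θ : ℝ) (N : ℕ) (p : α → ℝ) (h : Finset α) :
    comm_meas_score C idx T z θ N p h ≤ N :=
  Nat.sInf_le (Or.inl rfl)

theorem comm_meas_score_le' (C : Finset (Finset α)) (idx : Finset α → ℕ) (T : Finset α)
    (z : Finset α → Finset α) (θ : ℝ) (N : ℕ) (p : α → ℝ) (h G : Finset α) (hG : G ∈ C)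
    (hGT : G ∩ T = h ∩ T) (hGθ : ms p (symmDiff G (z (h ∩ T))) ≤ θ) :
    comm_meas_score C idx T z θ N p h ≤ idx G :=
  Nat.sInf_le (Or.inr ⟨G, hG, hGT, hGθ, rfl⟩)

theorem comm_meas_score_lt (C : Finset (Finset α)) (idx : Finset α → ℕ) (T : Finset α)
    (z : Finset α → Finset α) (θ : ℝ) (N : ℕ) (p : α → ℝ) (h : Finset α) (v : ℕ) (hv : v < N)
    (H : ∀ G ∈ C, G ∩ T = h ∩ T → ms p (symmDiff G (z (h ∩ T))) ≤ θ → v < idx G) :
    v < comm_meas_score C idx T z θ N p h := by
  have hmem := Nat.sInf_mem (s := {v | v = N ∨ ∃ G ∈ C, G ∩ T = h ∩ T ∧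
    ms p (symmDiff G (z (h ∩ T))) ≤ θ ∧ idx G = v}) ⟨N, Or.inl rfl⟩
  change comm_meas_score C idx T z θ N p h ∈ _ at hmem
  rcases hmem with h1 | ⟨G, hG, h2, h3, h4⟩
  · omega
  · have := H G hG h2 h3
    omega

/-- LEAF 11 (committee of measures).  Voters `h ∈ C` with weight `q h`, candidates the measures `p`
on `B`, score `f p h` = least `idx G` over `G ∈ C`, `G ∩ T = h ∩ T`,
`ms p (symmDiff G (z (h ∩ T))) ≤ θ` (a bound `N > idx` of all members if there is no such `G`).  Only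
finitely many functions `f p` (restricted to `C`) occur, so `committee` applies to the finite set of
these functions.  `pb` = average of the 6400 members: if `ms pb D ≤ θ/6400` then `ms (c i) D ≤ θ` for
every `i`, so `f (c i) h ≤ idx F`. -/
theorem comm_meas (C : Finset (Finset α)) (idx : Finset α → ℕ) (T B : Finset α)
    (hB : B.Nonempty) (q : Finset α → ℝ) (hq : IsProb C q) (z : Finset α → Finset α) (θ : ℝ) :
    ∃ pb : α → ℝ, Meas B pb ∧ ∀ p : α → ℝ, Meas B p →
      mass C q (fun h => ∃ F ∈ C, F ∩ T = h ∩ T ∧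
        ms pb (symmDiff F (z (h ∩ T))) ≤ θ / 6400 ∧
        ∀ G ∈ C, G ∩ T = h ∩ T → ms p (symmDiff G (z (h ∩ T))) ≤ θ → idx F < idx G)
        ≤ 1 / 100 := by
  set N : ℕ := C.sup idx + 1 with hN
  have hidx : ∀ F ∈ C, idx F < N := by
    intro F hF
    have := Finset.le_sup (f := idx) hF
    omega
  let f : (α → ℝ) → Finset α → ℕ := comm_meas_score C idx T z θ N
  let P : Type := {g : C → Fin (N + 1) // ∃ p, Meas B p ∧ ∀ h : C, ((g h : ℕ)) = f p h.1}
  let cl : ∀ p : α → ℝ, Meas B p → P := fun p hp =>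
    ⟨fun h => ⟨f p h.1, Nat.lt_succ_of_le (comm_meas_score_le C idx T z θ N p h.1)⟩,
      p, hp, fun _ => rfl⟩
  have hne : Nonempty P := by
    obtain ⟨b, hb⟩ := hB
    refine ⟨cl (fun x => if x = b then 1 else 0) ⟨?_, ?_, ?_⟩⟩
    · intro x
      show (0 : ℝ) ≤ if x = b then 1 else 0
      by_cases hx : x = b
      · rw [if_pos hx]; norm_num
      · rw [if_neg hx]
    · rw [Finset.sum_ite_eq' Finset.univ b (fun _ => (1 : ℝ))]
      simp
    · intro x hx
      have : x ≠ b := by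
        rintro rfl
        exact hx hb
      show (if x = b then (1 : ℝ) else 0) = 0
      rw [if_neg this]
  let pm : P → (α → ℝ) := fun g => g.2.choose
  have hpm : ∀ g : P, Meas B (pm g) := fun g => g.2.choose_spec.1
  have hpm2 : ∀ (g : P) (h : Finset α) (hh : h ∈ C), ((g.1 ⟨h, hh⟩ : ℕ)) = f (pm g) h :=
    fun g h hh => g.2.choose_spec.2 ⟨h, hh⟩
  obtain ⟨c, hc⟩ := committee (P := P) C q hq.1 hq.2.le (fun g h => f (pm g) h)
  refine ⟨fun x => (1 / 6400) * ∑ i, pm (c i) x, ⟨?_, ?_, ?_⟩, ?_⟩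
  · intro x
    exact mul_nonneg (by norm_num) (Finset.sum_nonneg fun i _ => (hpm (c i)).1 x)
  · rw [← Finset.mul_sum, Finset.sum_comm]
    have : ∑ i : Fin 6400, ∑ x, pm (c i) x = 6400 := by
      rw [Finset.sum_congr rfl (fun i _ => (hpm (c i)).2.1)]
      simp
    rw [this]
    norm_num
  · intro x hx
    have : ∑ i : Fin 6400, pm (c i) x = 0 :=
      Finset.sum_eq_zero fun i _ => (hpm (c i)).2.2 x hx
    show (1 / 6400 : ℝ) * ∑ i : Fin 6400, pm (c i) x = 0
    rw [this, mul_zero]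
  · intro p hp
    refine le_trans ?_ (hc (cl p hp))
    unfold mass
    refine Finset.sum_le_sum_of_subset_of_nonneg ?_ (fun h _ _ => hq.1 h)
    intro h hh
    simp only [Finset.mem_filter] at hh
    obtain ⟨hhC, F, hF, hFT, hFpb, hFG⟩ := hh
    refine Finset.mem_filter.2 ⟨hhC, fun i => ?_⟩
    have h1 : f (pm (cl p hp)) h = f p h := by
      rw [← hpm2 (cl p hp) h hhC]
    have h2 : idx F < f p h := comm_meas_score_lt C idx T z θ N p h (idx F) (hidx F hF) hFG
    have h3 : f (pm (c i)) h ≤ idx F := by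
      refine comm_meas_score_le' C idx T z θ N (pm (c i)) h F hF hFT ?_
      have h4 : ms (fun x => (1 / 6400) * ∑ j, pm (c j) x) (symmDiff F (z (h ∩ T)))
          = (1 / 6400) * ∑ j, ms (pm (c j)) (symmDiff F (z (h ∩ T))) := by
        unfold ms
        rw [← Finset.mul_sum, Finset.sum_comm]
      rw [h4] at hFpb
      have h5 : ms (pm (c i)) (symmDiff F (z (h ∩ T)))
          ≤ ∑ j, ms (pm (c j)) (symmDiff F (z (h ∩ T))) :=
        Finset.single_le_sum (f := fun j => ms (pm (c j)) (symmDiff F (z (h ∩ T))))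
          (fun j _ => Finset.sum_nonneg fun x _ => (hpm (c j)).1 x) (Finset.mem_univ i)
      linarith
    show f (pm (c i)) h < f (pm (cl p hp)) h
    omega

end Pool.Agent.MPaa62e0V
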