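import Pool.Agent.Lib.MP_aa62e0_lcV2.Lottery

set_option autoImplicit false
set_option linter.unusedSectionVars false

open Finset
open scoped Classical

namespace Pool.Agent.MPaa62e0V

open Pool.Agent.MPaa62e0T (mass traces Ent IsProb)

variable {α : Type} [Fintype α] [DecidableEq α]

/-- The chance that all members of the tuple are below `u`. -/
noncomputable def committeeG {Ω P : Type} [Fintype P] (f : P → Ω → ℕ) (K : ℕ)
    (Λ : (Fin K → P) → ℝ) (ω : Ω) (u : ℕ) : ℝ :=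
  ∑ c, Λ c * (if ∀ i, f (c i) ω < u then 1 else 0)

theorem committeeG_mono {Ω P : Type} [Fintype P] (f : P → Ω → ℕ) (K : ℕ)
    (Λ : (Fin K → P) → ℝ) (hΛ : ∀ c, 0 ≤ Λ c) (ω : Ω) {u w : ℕ} (h : u ≤ w) :
    committeeG f K Λ ω u ≤ committeeG f K Λ ω w := by
  unfold committeeG
  refine Finset.sum_le_sum fun c _ => mul_le_mul_of_nonneg_left ?_ (hΛ c)
  by_cases h1 : ∀ i, f (c i) ω < u
  · rw [if_pos h1, if_pos fun i => lt_of_lt_of_le (h1 i) h]
  · rw [if_neg h1]
    split_ifs <;> norm_num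

theorem committeeG_swap {Ω P : Type} [Fintype P] (Ωs : Finset Ω) (ν : Ω → ℝ) (f : P → Ω → ℕ)
    (K : ℕ) (Λ : (Fin K → P) → ℝ) (p : P) :
    ∑ c, Λ c * ∑ ω ∈ Ωs.filter (fun ω => ∀ i, f (c i) ω < f p ω), ν ω
      = ∑ ω ∈ Ωs, ν ω * committeeG f K Λ ω (f p ω) := by
  unfold committeeG
  simp only [Finset.sum_filter, Finset.mul_sum]
  rw [Finset.sum_comm]
  refine Finset.sum_congr rfl fun ω _ => Finset.sum_congr rfl fun c _ => ?_
  split_ifs <;> ring

/-- An average at most `a` gives a term at most `a`. -/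
theorem committee_avg {I : Type} [Fintype I] (w g : I → ℝ) (hw : ∀ i, 0 ≤ w i)
    (hw1 : ∑ i, w i = 1) (a : ℝ) (h : ∑ i, w i * g i ≤ a) : ∃ i, g i ≤ a := by
  by_contra hcon
  push Not at hcon
  have hpos : ∃ i, 0 < w i := by
    by_contra hne
    push Not at hne
    have : ∑ i, w i ≤ 0 := Finset.sum_nonpos fun i _ => hne i
    rw [hw1] at this
    norm_num at this
  obtain ⟨i₀, hi₀⟩ := hpos
  have hlt : a < ∑ i, w i * g i := by
    calc a = ∑ i, w i * a := by rw [← Finset.sum_mul, hw1, one_mul]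
      _ < _ := Finset.sum_lt_sum (fun i _ => mul_le_mul_of_nonneg_left (hcon i).le (hw i))
          ⟨i₀, Finset.mem_univ _, mul_lt_mul_of_pos_left (hcon i₀) hi₀⟩
  exact absurd h (not_le.2 hlt)

/-- The independent tuples. -/
theorem committee_eight {Ω P : Type} [Fintype P] (Ωs : Finset Ω) (ν : Ω → ℝ)
    (hν : ∀ ω, 0 ≤ ν ω) (hν1 : ∑ ω ∈ Ωs, ν ω ≤ 1) (f : P → Ω → ℕ) (K m : ℕ)
    (Λ : (Fin K → P) → ℝ) (hΛ0 : ∀ c, 0 ≤ Λ c) (hΛ1 : ∑ c, Λ c = 1) (v : Ω → ℕ)
    (hm : (1 / 2 : ℝ) ^ m ≤ 1 / 256)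
    (hv : ∀ ω, committeeG f K Λ ω (v ω) ≤ 1 / 2) :
    ∃ D : Fin m → (Fin K → P),
      ∑ ω ∈ Ωs, (if ∀ j i, f (D j i) ω < v ω then ν ω else 0) ≤ 1 / 256 := by
  have hone : ∑ D : Fin m → (Fin K → P), ∏ j, Λ (D j) = 1 := by
    rw [← Fintype.sum_pow, hΛ1, one_pow]
  have hnn : ∀ D : Fin m → (Fin K → P), 0 ≤ ∏ j, Λ (D j) := fun D =>
    Finset.prod_nonneg fun j _ => hΛ0 _
  refine committee_avg (fun D : Fin m → (Fin K → P) => ∏ j, Λ (D j)) _ hnn hone _ ?_
  have h1 : ∑ D : Fin m → (Fin K → P), (∏ j, Λ (D j))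
      * ∑ ω ∈ Ωs, (if ∀ j i, f (D j i) ω < v ω then ν ω else 0)
      = ∑ ω ∈ Ωs, ν ω * (committeeG f K Λ ω (v ω)) ^ m := by
    simp only [Finset.mul_sum]
    rw [Finset.sum_comm]
    refine Finset.sum_congr rfl fun ω _ => ?_
    unfold committeeG
    rw [Fintype.sum_pow, Finset.mul_sum]
    refine Finset.sum_congr rfl fun D _ => ?_
    rw [Finset.prod_mul_distrib]
    by_cases h : ∀ j i, f (D j i) ω < v ω
    · rw [if_pos h]
      have : ∏ j, (if ∀ i, f (D j i) ω < v ω then (1 : ℝ) else 0) = 1 := by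
        refine Finset.prod_eq_one fun j _ => ?_
        rw [if_pos (h j)]
      rw [this]; ring
    · rw [if_neg h]
      push Not at h
      obtain ⟨j, i, hij⟩ := h
      have : ∏ j, (if ∀ i, f (D j i) ω < v ω then (1 : ℝ) else 0) = 0 := by
        refine Finset.prod_eq_zero (Finset.mem_univ j) ?_
        rw [if_neg]
        intro h'
        exact absurd (h' i) (not_lt.2 hij)
      rw [this]; ring
  refine h1.le.trans ?_
  calc ∑ ω ∈ Ωs, ν ω * (committeeG f K Λ ω (v ω)) ^ m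
      ≤ ∑ ω ∈ Ωs, ν ω * (1 / 256) := by
        refine Finset.sum_le_sum fun ω _ => mul_le_mul_of_nonneg_left ?_ (hν ω)
        have h4 : 0 ≤ committeeG f K Λ ω (v ω) := by
          unfold committeeG
          refine Finset.sum_nonneg fun c _ => mul_nonneg (hΛ0 c) ?_
          split_ifs <;> norm_num
        exact (pow_le_pow_left₀ h4 (hv ω) m).trans hm
    _ = (∑ ω ∈ Ωs, ν ω) * (1 / 256) := by rw [Finset.sum_mul]
    _ ≤ 1 / 256 := by linarith

/-- LEAF 10 (stable committee).  Take `lottery` with `K = 800`; `v ω` = the least `v` with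
`Λ(c : ∀ i, f (c i) ω ≤ v) ≥ 1/2`.  If `f p ω > v ω` then `Λ(c : ∀ i, f (c i) ω < f p ω) ≥ 1/2`, so
`ν(ω : f p ω > v ω) ≤ 4/801`.  Eight independent tuples: `Λ(c : ∀ i, f (c i) ω < v ω) < 1/2`, so some
8-tuple of tuples has `ν(ω : all 6400 members < v ω) ≤ 1/256`.  Total `≤ 1/100`. -/
theorem committee {Ω P : Type} [Fintype P] [Nonempty P] (Ωs : Finset Ω) (ν : Ω → ℝ)
    (hν : ∀ ω, 0 ≤ ν ω) (hν1 : ∑ ω ∈ Ωs, ν ω ≤ 1) (f : P → Ω → ℕ) :
    ∃ c : Fin 6400 → P, ∀ p : P,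
      ∑ ω ∈ Ωs.filter (fun ω => ∀ i, f (c i) ω < f p ω), ν ω ≤ 1 / 100 := by
  obtain ⟨Λ, hΛ0, hΛ1, hΛ⟩ := lottery Ωs ν hν hν1 f 800
  -- the median
  have hex : ∀ ω, ∃ u : ℕ, 1 / 2 ≤ committeeG f 800 Λ ω u := by
    intro ω
    refine ⟨(∑ p, f p ω) + 1, ?_⟩
    have : committeeG f 800 Λ ω ((∑ p, f p ω) + 1) = 1 := by
      unfold committeeG
      refine (Finset.sum_congr rfl fun c _ => ?_).trans hΛ1
      rw [if_pos, mul_one]
      intro i
      have : f (c i) ω ≤ ∑ p, f p ω :=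
        Finset.single_le_sum (f := fun p => f p ω) (fun _ _ => Nat.zero_le _)
          (Finset.mem_univ (c i))
      omega
    rw [this]; norm_num
  have h0 : ∀ ω, committeeG f 800 Λ ω 0 = 0 := by
    intro ω
    unfold committeeG
    refine Finset.sum_eq_zero fun c _ => ?_
    rw [if_neg, mul_zero]
    intro h
    exact absurd (h ⟨0, by norm_num⟩) (Nat.not_lt_zero _)
  -- `v ω + 1` is the least `u` with `g ω u ≥ 1/2`
  have hv : ∀ ω, ∃ v : ℕ, 1 / 2 ≤ committeeG f 800 Λ ω (v + 1)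
      ∧ committeeG f 800 Λ ω v ≤ 1 / 2 := by
    intro ω
    have h1 := Nat.find_spec (hex ω)
    have h2 : Nat.find (hex ω) ≠ 0 := by
      intro h
      rw [h, h0 ω] at h1
      norm_num at h1
    obtain ⟨v, hv⟩ := Nat.exists_eq_succ_of_ne_zero h2
    refine ⟨v, ?_, ?_⟩
    · rw [hv] at h1
      exact h1
    · have h3 := Nat.find_min (hex ω) (m := v) (by omega)
      exact le_of_lt (not_le.1 h3)
  choose v hv1 hv2 using hv
  -- first part: `ν (f p > v) ≤ 4/801`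
  have hfirst : ∀ p : P, ∑ ω ∈ Ωs, (if v ω < f p ω then ν ω else 0) ≤ 4 / 801 := by
    intro p
    have h1 := hΛ p
    rw [committeeG_swap] at h1
    have h2 : ∑ ω ∈ Ωs, (if v ω < f p ω then ν ω else 0)
        ≤ 2 * ∑ ω ∈ Ωs, ν ω * committeeG f 800 Λ ω (f p ω) := by
      rw [Finset.mul_sum]
      refine Finset.sum_le_sum fun ω _ => ?_
      have h4 : 0 ≤ committeeG f 800 Λ ω (f p ω) := by
        rw [← h0 ω]
        exact committeeG_mono f 800 Λ hΛ0 ω (Nat.zero_le _)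
      by_cases h3 : v ω < f p ω
      · rw [if_pos h3]
        have h5 : 1 / 2 ≤ committeeG f 800 Λ ω (f p ω) :=
          (hv1 ω).trans (committeeG_mono f 800 Λ hΛ0 ω h3)
        nlinarith [hν ω, mul_le_mul_of_nonneg_left h5 (hν ω)]
      · rw [if_neg h3]
        have := mul_nonneg (hν ω) h4
        linarith
    push_cast at h1
    norm_num at h1
    linarith
  -- second part: eight independent tuples
  have hsecond : ∃ D : Fin 8 → (Fin 800 → P),
      ∑ ω ∈ Ωs, (if ∀ j i, f (D j i) ω < v ω then ν ω else 0) ≤ 1 / 256 :=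
    committee_eight Ωs ν hν hν1 f 800 8 Λ hΛ0 hΛ1 v (by norm_num) hv2
  obtain ⟨D, hD⟩ := hsecond
  obtain ⟨e⟩ : Nonempty (Fin 6400 ≃ Fin 8 × Fin 800) := by
    have h : (6400 : ℕ) = 8 * 800 := by norm_num
    exact ⟨(finCongr h).trans finProdFinEquiv.symm⟩
  refine ⟨fun i => D (e i).1 (e i).2, fun p => ?_⟩
  have hp := hfirst p
  rw [Finset.sum_filter]
  calc ∑ ω ∈ Ωs, (if ∀ i, f (D (e i).1 (e i).2) ω < f p ω then ν ω else 0)
      ≤ ∑ ω ∈ Ωs, ((if v ω < f p ω then ν ω else 0)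
          + (if ∀ j i, f (D j i) ω < v ω then ν ω else 0)) := by
        refine Finset.sum_le_sum fun ω _ => ?_
        have hn := hν ω
        by_cases h1 : v ω < f p ω
        · rw [if_pos h1]
          split_ifs <;> linarith
        · rw [if_neg h1]
          by_cases h2 : ∀ i, f (D (e i).1 (e i).2) ω < f p ω
          · have h3 : ∀ j i, f (D j i) ω < v ω := by
              intro j i
              have := h2 (e.symm (j, i))
              rw [Equiv.apply_symm_apply] at this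
              exact lt_of_lt_of_le this (not_lt.1 h1)
            rw [if_pos h2, if_pos h3]
            linarith
          · rw [if_neg h2]
            split_ifs <;> linarith
    _ = ∑ ω ∈ Ωs, (if v ω < f p ω then ν ω else 0)
          + ∑ ω ∈ Ωs, (if ∀ j i, f (D j i) ω < v ω then ν ω else 0) :=
        Finset.sum_add_distrib
    _ ≤ 4 / 801 + 1 / 256 := add_le_add hp hD
    _ ≤ 1 / 100 := by norm_num

end Pool.Agent.MPaa62e0V
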