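import Pool.Agent.Lib.MP_aa62e0_lcV2.Game

set_option autoImplicit false
set_option linter.unusedSectionVars false

open Finset
open scoped Classical

namespace Pool.Agent.MPaa62e0V

open Pool.Agent.MPaa62e0T (mass traces Ent IsProb)

variable {α : Type} [Fintype α] [DecidableEq α]

/-- The properties of the learning map `ℓ` for the measure `p`. -/
def learnGood (C : Finset (Finset α)) (idx : Finset α → ℕ) (T : Finset α) (w : α) (ε : ℝ)
    (p : α → ℝ) (ℓ : Finset α → Finset α) : Prop :=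
  ∀ F ∈ C, ℓ F ∈ C ∧ ℓ F ∩ T = F ∩ T ∧ (w ∈ ℓ F ↔ w ∈ F) ∧
    ∀ G ∈ C, G ∩ T = F ∩ T → ms p (symmDiff G F) ≤ ε → idx (ℓ F) ≤ idx G

/-- Existence of the learning map for a measure `p` with `p w ≥ 1/2`. -/
theorem learn_exists (C : Finset (Finset α)) (idx : Finset α → ℕ) (T : Finset α)
    (w : α) (ε : ℝ) (hε : 0 < ε) (hε2 : ε < 1 / 2) (p : α → ℝ) (hp : ∀ x, 0 ≤ p x)
    (hpw : 1 / 2 ≤ p w) :
    ∃ ℓ : Finset α → Finset α, learnGood C idx T w ε p ℓ ∧
      ∀ F ∈ C, ms p (symmDiff (ℓ F) F) ≤ ε := by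
  have key : ∀ F : Finset α, ∃ G : Finset α, F ∈ C →
      ((G ∈ C ∧ G ∩ T = F ∩ T ∧ ms p (symmDiff G F) ≤ ε) ∧
        ∀ G' ∈ C, G' ∩ T = F ∩ T → ms p (symmDiff G' F) ≤ ε → idx G ≤ idx G') := by
    intro F
    by_cases hF : F ∈ C
    · have hne : (C.filter (fun G => G ∩ T = F ∩ T ∧ ms p (symmDiff G F) ≤ ε)).Nonempty := by
        refine ⟨F, Finset.mem_filter.2 ⟨hF, rfl, ?_⟩⟩
        have h0 : symmDiff F F = (∅ : Finset α) := symmDiff_self F
        rw [h0]
        unfold ms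
        rw [Finset.sum_empty]
        exact hε.le
      obtain ⟨G, hG, hmin⟩ := Finset.exists_min_image _ idx hne
      rw [Finset.mem_filter] at hG
      refine ⟨G, fun _ => ⟨⟨hG.1, hG.2.1, hG.2.2⟩, ?_⟩⟩
      intro G' hG' h1 h2
      exact hmin G' (Finset.mem_filter.2 ⟨hG', h1, h2⟩)
    · exact ⟨F, fun h => absurd h hF⟩
  choose ℓ hℓ using key
  refine ⟨ℓ, ?_, fun F hF => (hℓ F hF).1.2.2⟩
  intro F hF
  obtain ⟨⟨h1, h2, h3⟩, h4⟩ := hℓ F hF
  refine ⟨h1, h2, ?_, h4⟩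
  by_contra hw
  have hmem : w ∈ symmDiff (ℓ F) F := by
    rw [Finset.mem_symmDiff]
    tauto
  have h5 : p w ≤ ms p (symmDiff (ℓ F) F) := by
    unfold ms
    exact Finset.single_le_sum (f := p) (fun x _ => hp x) hmem
  linarith

/-- LEAF 12 (learning mixture).  For a measure `μ` on `B` put `p = (μ + δ_w)/2` and let `ℓ F` be the
`idx`-first `G ∈ C` with `G ∩ T = F ∩ T`, `ms p (symmDiff G F) ≤ ε` (it exists: `F`).  As `ε < 1/2`,
`w ∉ symmDiff (ℓ F) F`; and `ms μ (symmDiff (ℓ F) F) ≤ 2 ε`, so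
`∑_u μ u * mass (u ∈ symmDiff (ℓ F) F) ≤ 2 ε`.  Now `game` with `Λ` = the finite set of the functions
`ℓ : Finset α → Finset α` which occur, `ι` = the subtype of `B`, `v = 2 ε`, `v' = 3 ε`. -/
theorem learn (C : Finset (Finset α)) (idx : Finset α → ℕ) (T B : Finset α)
    (q : Finset α → ℝ) (hq : IsProb C q) (w : α) (hw : w ∈ B) (ε : ℝ) (hε : 0 < ε)
    (hε2 : ε < 1 / 2) :
    ∃ (Λ : Type) (_ : Fintype Λ) (m : Λ → ℝ) (p : Λ → α → ℝ)
      (ℓ : Λ → Finset α → Finset α),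
      (∀ l, 0 ≤ m l) ∧ ∑ l, m l = 1 ∧ (∀ l, Meas B (p l)) ∧
      (∀ l, ∀ F ∈ C, ℓ l F ∈ C ∧ ℓ l F ∩ T = F ∩ T ∧ (w ∈ ℓ l F ↔ w ∈ F) ∧
        ∀ G ∈ C, G ∩ T = F ∩ T → ms (p l) (symmDiff G F) ≤ ε → idx (ℓ l F) ≤ idx G) ∧
      ∀ u ∈ B, ∑ l, m l * mass C q (fun F => ¬ (u ∈ ℓ l F ↔ u ∈ F)) ≤ 3 * ε := by
  -- the half-half measure
  have hhalf : ∀ μ : α → ℝ, Meas B μ →
      Meas B (fun x => (μ x + if x = w then 1 else 0) / 2) := by
    intro μ hμ
    refine ⟨fun x => ?_, ?_, fun x hx => ?_⟩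
    · have h0 := hμ.1 x
      show 0 ≤ (μ x + if x = w then 1 else 0) / 2
      split_ifs <;> linarith
    · rw [← Finset.sum_div, Finset.sum_add_distrib, hμ.2.1, Finset.sum_ite_eq' Finset.univ w]
      simp
    · have h1 : x ≠ w := fun h => hx (h ▸ hw)
      simp only [hμ.2.2 x hx, if_neg h1]
      norm_num
  let Λ : Type := {ℓ : Finset α → Finset α // ∃ p, Meas B p ∧ learnGood C idx T w ε p ℓ}
  haveI : Fintype Λ := Fintype.ofFinite _
  have hex : ∀ μ : α → ℝ, Meas B μ → ∃ l : Λ, ∀ F ∈ C, ms μ (symmDiff (l.1 F) F) ≤ 2 * ε := by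
    intro μ hμ
    have hM := hhalf μ hμ
    obtain ⟨ℓ, h1, h2⟩ := learn_exists C idx T w ε hε hε2
      (fun x => (μ x + if x = w then 1 else 0) / 2) hM.1 (by
        have h0 := hμ.1 w
        show 1 / 2 ≤ (μ w + if w = w then 1 else 0) / 2
        rw [if_pos rfl]
        linarith)
    refine ⟨⟨ℓ, _, hM, h1⟩, ?_⟩
    intro F hF
    have h3 := h2 F hF
    have h4 : ms μ (symmDiff (ℓ F) F) ≤
        2 * ms (fun x => (μ x + if x = w then 1 else 0) / 2) (symmDiff (ℓ F) F) := by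
      unfold ms
      rw [Finset.mul_sum]
      refine Finset.sum_le_sum fun x _ => ?_
      split_ifs <;> linarith
    show ms μ (symmDiff (ℓ F) F) ≤ 2 * ε
    linarith
  have hδ : Meas B (fun x => if x = w then (1 : ℝ) else 0) := by
    refine ⟨fun x => ?_, ?_, fun x hx => ?_⟩
    · show (0 : ℝ) ≤ if x = w then 1 else 0
      split_ifs <;> norm_num
    · rw [Finset.sum_ite_eq' Finset.univ w]; simp
    · have h1 : x ≠ w := fun h => hx (h ▸ hw)
      simp only [if_neg h1]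
  haveI : Nonempty Λ := ⟨(hex _ hδ).choose⟩
  obtain ⟨m, hm0, hm1, hm2⟩ := game (Λ := Λ) (ι := {x // x ∈ B})
    (fun l i => mass C q (fun F => ¬ (i.1 ∈ l.1 F ↔ i.1 ∈ F))) (2 * ε) (3 * ε) (by linarith)
    (by
      intro μ hμ0 hμ1
      let μ' : α → ℝ := fun x => if hx : x ∈ B then μ ⟨x, hx⟩ else 0
      have hsum : ∀ f : α → ℝ, ∑ x, μ' x * f x = ∑ i : {x // x ∈ B}, μ i * f i.1 := by
        intro f
        have e1 : ∑ x, μ' x * f x = ∑ x ∈ B, μ' x * f x := by
          symm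
          refine Finset.sum_subset (Finset.subset_univ B) ?_
          intro x _ hx
          simp only [μ', dif_neg hx, zero_mul]
        rw [e1, ← Finset.sum_coe_sort B (fun x => μ' x * f x)]
        refine Finset.sum_congr rfl fun i _ => ?_
        have hi : μ' i.1 = μ i := by
          simp only [μ', dif_pos i.2]
        rw [hi]
      have hμ' : Meas B μ' := by
        refine ⟨fun x => ?_, ?_, fun x hx => ?_⟩
        · by_cases hx : x ∈ B
          · simp only [μ', dif_pos hx]; exact hμ0 _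
          · simp only [μ', dif_neg hx]; exact le_refl _
        · have := hsum (fun _ => 1)
          simp only [mul_one] at this
          rw [this, hμ1]
        · simp only [μ', dif_neg hx]
      obtain ⟨l, hl⟩ := hex μ' hμ'
      refine ⟨l, ?_⟩
      have e2 : ∑ i : {x // x ∈ B}, μ i * mass C q (fun F => ¬ (i.1 ∈ l.1 F ↔ i.1 ∈ F))
          = ∑ x, μ' x * mass C q (fun F => ¬ (x ∈ l.1 F ↔ x ∈ F)) :=
        (hsum (fun x => mass C q (fun F => ¬ (x ∈ l.1 F ↔ x ∈ F)))).symm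
      rw [e2]
      have e3 : ∀ x, μ' x * mass C q (fun F => ¬ (x ∈ l.1 F ↔ x ∈ F))
          = ∑ F ∈ C, q F * (if x ∈ symmDiff (l.1 F) F then μ' x else 0) := by
        intro x
        unfold mass
        rw [Finset.sum_filter, Finset.mul_sum]
        refine Finset.sum_congr rfl fun F _ => ?_
        by_cases h : x ∈ symmDiff (l.1 F) F
        · have h' : ¬ (x ∈ l.1 F ↔ x ∈ F) := by
            rw [Finset.mem_symmDiff] at h
            tauto
          rw [if_pos h', if_pos h]; ring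
        · have h' : ¬ ¬ (x ∈ l.1 F ↔ x ∈ F) := by
            rw [Finset.mem_symmDiff] at h
            tauto
          rw [if_neg h', if_neg h]; ring
      have e4 : ∑ x, μ' x * mass C q (fun F => ¬ (x ∈ l.1 F ↔ x ∈ F))
          = ∑ F ∈ C, q F * ms μ' (symmDiff (l.1 F) F) := by
        rw [Finset.sum_congr rfl fun x _ => e3 x, Finset.sum_comm]
        refine Finset.sum_congr rfl fun F _ => ?_
        rw [← Finset.mul_sum]
        unfold ms
        congr 1
        rw [← Finset.sum_filter]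
        refine Finset.sum_congr ?_ fun _ _ => rfl
        ext x
        simp
      rw [e4]
      calc ∑ F ∈ C, q F * ms μ' (symmDiff (l.1 F) F)
          ≤ ∑ F ∈ C, q F * (2 * ε) :=
            Finset.sum_le_sum fun F hF => mul_le_mul_of_nonneg_left (hl F hF) (hq.1 F)
        _ = 2 * ε := by rw [← Finset.sum_mul, hq.2, one_mul])
  refine ⟨Λ, inferInstance, m, fun l => l.2.choose, fun l => l.1, hm0, hm1,
    fun l => l.2.choose_spec.1, fun l F hF => l.2.choose_spec.2 F hF, ?_⟩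
  intro u hu
  exact hm2 ⟨u, hu⟩

end Pool.Agent.MPaa62e0V
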