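import Pool.Agent.Lib.MP_aa62e0_lcV2.Defs

set_option autoImplicit false
set_option linter.unusedSectionVars false

open Finset
open scoped Classical

namespace Pool.Agent.MPaa62e0V

open Pool.Agent.MPaa62e0T (mass traces Ent IsProb)

variable {α : Type} [Fintype α] [DecidableEq α]

/-- LEAF 13 (image of `q` under a random map). `q' h = ∑ l, m l * ∑ F ∈ C with ℓ l F = h, q F`. -/
theorem push (C : Finset (Finset α)) (q : Finset α → ℝ) (hq : IsProb C q) {Λ : Type} [Fintype Λ]
    (m : Λ → ℝ) (hm : ∀ l, 0 ≤ m l) (hm1 : ∑ l, m l = 1) (ℓ : Λ → Finset α → Finset α)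
    (hℓ : ∀ l, ∀ F ∈ C, ℓ l F ∈ C) :
    ∃ q' : Finset α → ℝ, IsProb C q' ∧ ∀ P : Finset α → Prop,
      mass C q' P = ∑ l, m l * mass C q (fun F => P (ℓ l F)) := by
  have key : ∀ P : Finset α → Prop,
      mass C (fun h => ∑ l, m l * ∑ F ∈ C.filter (fun F => ℓ l F = h), q F) P
        = ∑ l, m l * mass C q (fun F => P (ℓ l F)) := by
    intro P
    unfold mass
    rw [Finset.sum_comm]
    refine Finset.sum_congr rfl fun l _ => ?_
    rw [← Finset.mul_sum]
    congr 1
    rw [← Finset.sum_fiberwise_of_maps_to (s := C.filter (fun F => P (ℓ l F)))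
      (t := C.filter (fun h => P h)) (g := ℓ l) (fun F hF => by
        rw [Finset.mem_filter] at hF ⊢
        exact ⟨hℓ l F hF.1, hF.2⟩) q]
    refine Finset.sum_congr rfl fun h hh => ?_
    refine Finset.sum_congr ?_ fun _ _ => rfl
    rw [Finset.filter_filter]
    refine Finset.filter_congr fun F _ => ?_
    constructor
    · intro e
      refine ⟨?_, e⟩
      rw [e]
      exact (Finset.mem_filter.1 hh).2
    · exact fun e => e.2
  refine ⟨_, ⟨fun h => Finset.sum_nonneg fun l _ => mul_nonneg (hm l)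
    (Finset.sum_nonneg fun F _ => hq.1 F), ?_⟩, key⟩
  have h1 := key (fun _ => True)
  unfold mass at h1
  simp only [Finset.filter_true] at h1
  rw [h1, hq.2]
  simpa using hm1

end Pool.Agent.MPaa62e0V
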