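import Pool.Agent.Lib.MP_aa62e0_lcV2.RigidState
import Pool.Agent.Lib.MP_aa62e0_lcV2.CommMeas
import Pool.Agent.Lib.MP_aa62e0_lcV2.Learn
import Pool.Agent.Lib.MP_aa62e0_lcV2.Push

set_option autoImplicit false
set_option linter.unusedSectionVars false

open Finset
open scoped Classical

namespace Pool.Agent.MPaa62e0V

open Pool.Agent.MPaa62e0T (mass traces Ent IsProb)

variable {α : Type} [Fintype α] [DecidableEq α]

theorem core_mass_or (C : Finset (Finset α)) (q : Finset α → ℝ) (hq : ∀ h, 0 ≤ q h)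
    (P Q : Finset α → Prop) :
    mass C q (fun h => P h ∨ Q h) ≤ mass C q P + mass C q Q := by
  unfold mass
  rw [Finset.sum_filter, Finset.sum_filter, Finset.sum_filter, ← Finset.sum_add_distrib]
  refine Finset.sum_le_sum fun h _ => ?_
  have h1 := hq h
  by_cases hP : P h <;> by_cases hQ : Q h <;> simp [hP, hQ, h1]

theorem core_ms_triangle (p : α → ℝ) (hp : ∀ x, 0 ≤ p x) (G F Z : Finset α) :
    ms p (symmDiff G F) ≤ ms p (symmDiff G Z) + ms p (symmDiff F Z) := by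
  have h0 : symmDiff G F ⊆ symmDiff G Z ∪ symmDiff F Z := by
    intro x hx
    rw [Finset.mem_symmDiff] at hx
    rw [Finset.mem_union, Finset.mem_symmDiff, Finset.mem_symmDiff]
    by_cases hz : x ∈ Z <;> tauto
  have h1 := Finset.sum_union_inter (s₁ := symmDiff G Z) (s₂ := symmDiff F Z) (f := p)
  have h2 : 0 ≤ ∑ x ∈ symmDiff G Z ∩ symmDiff F Z, p x := Finset.sum_nonneg fun x _ => hp x
  have h3 := Finset.sum_le_sum_of_subset_of_nonneg (f := p) h0 (fun x _ _ => hp x)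
  unfold ms
  linarith

/-- ASSEMBLY 14 (core).  `θ = 6400 κ`, `ε = 2 θ`, `e = 3 ε`, `good s` = there is `F ∈ C` with
`F ∩ T = s`, `ms pb (symmDiff F (z s)) ≤ κ/6400` and `κ < ms pb (symmDiff G (z s))` for all earlier
`G` over `s`; `D s` = that `F`. -/
theorem core (C : Finset (Finset α)) (idx : Finset α → ℕ)
    (hidx : ∀ F ∈ C, ∀ G ∈ C, idx F = idx G → F = G) (h0 : ∅ ∈ C) (d : ℕ)
    (hd : C.vcDim ≤ d) (A : Finset α) (t r : ℕ) (hr : 1 ≤ r) (M κ : ℝ)
    (hM : 100 * (d * Real.log (t + 1) + 1) ≤ M)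
    (ht : 2 * (r : ℝ) + 8000 * (r * (d * Real.log (t + 1))) ≤ t)
    (hκ : 0 < κ) (hκM : 38400000 * κ * M ≤ 1) (hκr : 6400 ≤ κ * r) :
    ∃ T ⊆ A, T.card ≤ t ∧ ((A \ T).Nonempty →
      ∃ q : Finset α → ℝ, IsProb C q ∧ ∃ z D : Finset α → Finset α, ∃ good : Finset α → Prop,
      ∃ pb : α → ℝ, Meas (A \ T) pb ∧
      (∀ s, good s → D s ∈ C ∧ D s ∩ T = s ∧ ms pb (symmDiff (D s) (z s)) ≤ κ / 6400 ∧
        ∀ F ∈ C, F ∩ T = s → idx F < idx (D s) → κ < ms pb (symmDiff F (z s))) ∧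
      ∀ w ∈ A \ T, mass C q (fun h => ¬ good (h ∩ T) ∨ w ∈ D (h ∩ T)) ≤ 1 / 38) := by
  obtain ⟨T, hTA, hTt, q, hq, z, β, hβ0, hβ1, hβ, hrig⟩ := rigid_state C h0 d hd A t r hr M hM ht
  refine ⟨T, hTA, hTt, fun hne => ?_⟩
  obtain ⟨pb, hpb, hcomm⟩ := comm_meas C idx T (A \ T) hne q hq z (6400 * κ)
  have hlog : 0 ≤ (d : ℝ) * Real.log (t + 1) := by
    refine mul_nonneg (Nat.cast_nonneg d) (Real.log_nonneg ?_)
    have : (0 : ℝ) ≤ t := Nat.cast_nonneg t
    linarith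
  have hM100 : 100 ≤ M := by linarith
  have hκ1 : κ ≤ 1 / 3840000000 := by nlinarith
  let good : Finset α → Prop := fun s => ∃ F ∈ C, F ∩ T = s ∧
    ms pb (symmDiff F (z s)) ≤ κ / 6400 ∧
    ∀ G ∈ C, G ∩ T = s → idx G < idx F → κ < ms pb (symmDiff G (z s))
  have hchoice : ∀ s, ∃ F : Finset α, good s → F ∈ C ∧ F ∩ T = s ∧
      ms pb (symmDiff F (z s)) ≤ κ / 6400 ∧
      ∀ G ∈ C, G ∩ T = s → idx G < idx F → κ < ms pb (symmDiff G (z s)) := by
    intro s
    by_cases hs : good s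
    · obtain ⟨F, hF⟩ := hs
      exact ⟨F, fun _ => hF⟩
    · exact ⟨∅, fun h => absurd h hs⟩
  choose D hD using hchoice
  refine ⟨q, hq, z, D, good, pb, hpb, hD, ?_⟩
  intro w hw
  obtain ⟨Λ, _, m, p, ℓ, hm0, hm1, hp, hℓ, hℓu⟩ := learn C idx T (A \ T) q hq w hw
    (12800 * κ) (by linarith) (by linarith)
  obtain ⟨q', hq', hpush⟩ := push C q hq m hm0 hm1 ℓ (fun l F hF => (hℓ l F hF).1)
  -- the pushed measure is rigid
  have hmarg : ∀ s, mass C q' (fun h => h ∩ T = s) = mass C q (fun h => h ∩ T = s) := by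
    intro s
    rw [hpush]
    have h1 : ∀ l, mass C q (fun F => ℓ l F ∩ T = s) = mass C q (fun h => h ∩ T = s) := by
      intro l
      refine MPaa62e0T.mass_congr fun F hF => ?_
      rw [(hℓ l F hF).2.1]
    simp only [h1]
    rw [← Finset.sum_mul, hm1, one_mul]
  have hlev : ∀ u ∈ A \ T, mass C q' (fun h => u ∈ h) ≤ β + 3 * (12800 * κ) := by
    intro u hu
    rw [hpush]
    have h1 : ∀ l, mass C q (fun F => u ∈ ℓ l F)
        ≤ β + mass C q (fun F => ¬ (u ∈ ℓ l F ↔ u ∈ F)) := by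
      intro l
      have h2 := core_mass_or C q hq.1 (fun F => u ∈ F) (fun F => ¬ (u ∈ ℓ l F ↔ u ∈ F))
      have h3 : mass C q (fun F => u ∈ ℓ l F)
          ≤ mass C q (fun F => u ∈ F ∨ ¬ (u ∈ ℓ l F ↔ u ∈ F)) := by
        refine MPaa62e0T.mass_mono hq.1 fun F _ h => ?_
        by_cases hF : u ∈ F
        · exact Or.inl hF
        · refine Or.inr fun hiff => hF (hiff.1 h)
      have h4 := hβ u hu
      linarith
    calc ∑ l, m l * mass C q (fun F => u ∈ ℓ l F)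
        ≤ ∑ l, m l * (β + mass C q (fun F => ¬ (u ∈ ℓ l F ↔ u ∈ F))) :=
          Finset.sum_le_sum fun l _ => mul_le_mul_of_nonneg_left (h1 l) (hm0 l)
      _ = β + ∑ l, m l * mass C q (fun F => ¬ (u ∈ ℓ l F ↔ u ∈ F)) := by
          simp only [mul_add]
          rw [Finset.sum_add_distrib, ← Finset.sum_mul, hm1, one_mul]
      _ ≤ β + 3 * (12800 * κ) := by linarith [hℓu u hu]
  have hB := hrig q' hq' hmarg (3 * (12800 * κ)) (by linarith) hlev pb hpb (κ / 6400)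
    (by linarith)
  rw [hpush] at hB
  have hA : ∀ l, mass C q (fun h => 6400 * κ < ms (p l) (symmDiff h (z (h ∩ T)))) ≤ 1 / 500 := by
    intro l
    have h1 := hrig q hq (fun _ => rfl) 0 le_rfl (fun u hu => by rw [add_zero]; exact hβ u hu)
      (p l) (hp l) (6400 * κ) (by linarith)
    linarith
  have hC : ∀ l, mass C q (fun h => ∃ F ∈ C, F ∩ T = h ∩ T ∧
        ms pb (symmDiff F (z (h ∩ T))) ≤ κ ∧
        ∀ G ∈ C, G ∩ T = h ∩ T → ms (p l) (symmDiff G (z (h ∩ T))) ≤ 6400 * κ →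
          idx F < idx G) ≤ 1 / 100 := by
    intro l
    have h1 := hcomm (p l) (hp l)
    have h2 : 6400 * κ / 6400 = κ := by ring
    rw [h2] at h1
    exact h1
  have hstep : ∀ l, mass C q (fun h => ¬ good (h ∩ T) ∨ w ∈ D (h ∩ T)) ≤
      1 / 500 + mass C q (fun F => κ / 6400 < ms pb (symmDiff (ℓ l F) (z (ℓ l F ∩ T))))
        + 1 / 100 + 1 / 100 := by
    intro l
    have hmono : mass C q (fun h => ¬ good (h ∩ T) ∨ w ∈ D (h ∩ T)) ≤
        mass C q (fun h => (((6400 * κ < ms (p l) (symmDiff h (z (h ∩ T)))) ∨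
          (κ / 6400 < ms pb (symmDiff (ℓ l h) (z (ℓ l h ∩ T))))) ∨
          (∃ F ∈ C, F ∩ T = h ∩ T ∧ ms pb (symmDiff F (z (h ∩ T))) ≤ κ ∧
            ∀ G ∈ C, G ∩ T = h ∩ T → ms (p l) (symmDiff G (z (h ∩ T))) ≤ 6400 * κ →
              idx F < idx G)) ∨ w ∈ h) := by
      refine MPaa62e0T.mass_mono hq.1 fun h hh hbad => ?_
      by_contra hcon
      push Not at hcon
      obtain ⟨⟨⟨ha, hb⟩, hc⟩, hwh⟩ := hcon
      obtain ⟨hl1, hl2, hl3, hl4⟩ := hℓ l h hh
      rw [hl2] at hb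
      -- the member `ℓ l h` is the first one
      have hfirst : ∀ G ∈ C, G ∩ T = h ∩ T → idx G < idx (ℓ l h) →
          κ < ms pb (symmDiff G (z (h ∩ T))) := by
        intro G hG hGT hlt
        by_contra hcon2
        push Not at hcon2
        obtain ⟨G', hG', hG'T, hG'm, hG'i⟩ := hc G hG hGT hcon2
        have h5 : ms (p l) (symmDiff G' h) ≤ 12800 * κ := by
          have := core_ms_triangle (p l) (hp l).1 G' h (z (h ∩ T))
          linarith
        have h6 := hl4 G' hG' hG'T h5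
        omega
      have hgood : good (h ∩ T) := ⟨ℓ l h, hl1, hl2, hb, hfirst⟩
      obtain ⟨hD1, hD2, hD3, hD4⟩ := hD (h ∩ T) hgood
      have heq : D (h ∩ T) = ℓ l h := by
        refine hidx _ hD1 _ hl1 ?_
        rcases lt_trichotomy (idx (D (h ∩ T))) (idx (ℓ l h)) with h7 | h7 | h7
        · have := hfirst _ hD1 hD2 h7
          linarith
        · exact h7
        · have := hD4 _ hl1 hl2 h7
          linarith
      rcases hbad with h8 | h8
      · exact h8 hgood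
      · rw [heq] at h8
        exact hwh (hl3.1 h8)
    have e1 := core_mass_or C q hq.1
      (fun h => ((6400 * κ < ms (p l) (symmDiff h (z (h ∩ T)))) ∨
          (κ / 6400 < ms pb (symmDiff (ℓ l h) (z (ℓ l h ∩ T))))) ∨
          (∃ F ∈ C, F ∩ T = h ∩ T ∧ ms pb (symmDiff F (z (h ∩ T))) ≤ κ ∧
            ∀ G ∈ C, G ∩ T = h ∩ T → ms (p l) (symmDiff G (z (h ∩ T))) ≤ 6400 * κ →
              idx F < idx G)) (fun h => w ∈ h)
    have e2 := core_mass_or C q hq.1
      (fun h => (6400 * κ < ms (p l) (symmDiff h (z (h ∩ T)))) ∨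
          (κ / 6400 < ms pb (symmDiff (ℓ l h) (z (ℓ l h ∩ T)))))
      (fun h => ∃ F ∈ C, F ∩ T = h ∩ T ∧ ms pb (symmDiff F (z (h ∩ T))) ≤ κ ∧
            ∀ G ∈ C, G ∩ T = h ∩ T → ms (p l) (symmDiff G (z (h ∩ T))) ≤ 6400 * κ →
              idx F < idx G)
    have e3 := core_mass_or C q hq.1
      (fun h => 6400 * κ < ms (p l) (symmDiff h (z (h ∩ T))))
      (fun h => κ / 6400 < ms pb (symmDiff (ℓ l h) (z (ℓ l h ∩ T))))
    have e4 := hA l
    have e5 := hC l
    have e6 := hβ w hw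
    linarith
  have hfin : mass C q (fun h => ¬ good (h ∩ T) ∨ w ∈ D (h ∩ T)) ≤
      1 / 500 + (∑ l, m l * mass C q
        (fun F => κ / 6400 < ms pb (symmDiff (ℓ l F) (z (ℓ l F ∩ T))))) + 1 / 100 + 1 / 100 := by
    calc mass C q (fun h => ¬ good (h ∩ T) ∨ w ∈ D (h ∩ T))
        = ∑ l, m l * mass C q (fun h => ¬ good (h ∩ T) ∨ w ∈ D (h ∩ T)) := by
          rw [← Finset.sum_mul, hm1, one_mul]
      _ ≤ ∑ l, m l * (1 / 500 + mass C q
            (fun F => κ / 6400 < ms pb (symmDiff (ℓ l F) (z (ℓ l F ∩ T)))) + 1 / 100 + 1 / 100) :=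
          Finset.sum_le_sum fun l _ => mul_le_mul_of_nonneg_left (hstep l) (hm0 l)
      _ = 1 / 500 + (∑ l, m l * mass C q
            (fun F => κ / 6400 < ms pb (symmDiff (ℓ l F) (z (ℓ l F ∩ T))))) + 1 / 100
            + 1 / 100 := by
          simp only [mul_add]
          rw [Finset.sum_add_distrib, Finset.sum_add_distrib, Finset.sum_add_distrib,
            ← Finset.sum_mul, ← Finset.sum_mul, hm1, one_mul, one_mul]
  have hMe : 2 * M * (3 * (12800 * κ)) ≤ 1 / 500 := by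
    have : 2 * M * (3 * (12800 * κ)) = (38400000 * κ * M) * (1 / 500) := by ring
    rw [this]
    linarith
  linarith

end Pool.Agent.MPaa62e0V
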