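import Pool.Agent.Lib.MP_aa62e0_lcV2.Defs

set_option autoImplicit false
set_option linter.unusedSectionVars false

open Finset
open scoped Classical

namespace Pool.Agent.MPaa62e0V

open Pool.Agent.MPaa62e0T (mass traces Ent IsProb)

variable {α : Type} [Fintype α] [DecidableEq α]

/-- LEAF 16. -/
theorem vc_trans (C : Finset (Finset α)) (c : Finset α) :
    (C.image (fun h => symmDiff h c)).vcDim ≤ C.vcDim := by
  refine Finset.sup_le fun s hs => ?_
  have hsh : (C.image (fun h => symmDiff h c)).Shatters s := Finset.mem_shatterer.1 hs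
  refine Finset.Shatters.card_le_vcDim ?_
  intro t ht
  have hsub : symmDiff t (s ∩ c) ⊆ s := by
    intro x hx
    rcases Finset.mem_symmDiff.1 hx with ⟨h1, _⟩ | ⟨h1, _⟩
    · exact ht h1
    · exact (Finset.mem_inter.1 h1).1
  obtain ⟨u, hu, hsu⟩ := hsh hsub
  obtain ⟨h, hC, rfl⟩ := Finset.mem_image.1 hu
  refine ⟨h, hC, ?_⟩
  have h1 : s ∩ symmDiff h c = symmDiff (s ∩ h) (s ∩ c) := by
    ext x
    simp only [Finset.mem_inter, Finset.mem_symmDiff]
    tauto
  rw [h1] at hsu
  exact symmDiff_left_injective (s ∩ c) hsu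

end Pool.Agent.MPaa62e0V
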