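import Pool.Agent.Lib.MP_aa62e0_lcV2.RelNet
import Pool.Agent.Lib.MP_aa62e0_lcV2.VcTrans
import Pool.Agent.Lib.MP_aa62e0_lcT.UnionSample

set_option autoImplicit false
set_option linter.unusedSectionVars false

open Finset
open scoped Classical

namespace Pool.Agent.MPaa62e0V

open Pool.Agent.MPaa62e0T (mass traces Ent IsProb)

variable {α : Type} [Fintype α] [DecidableEq α]

/-- Markov's inequality for the number of hits of `S`. -/
theorem sample_markov (D : α → ℝ) (hD : ∀ x, 0 ≤ D x) (hD1 : ∑ x, D x = 1) (S : Finset α)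
    (m τ : ℕ) (hS : 100 * (m * ∑ x ∈ S, D x) ≤ τ) :
    ∑ w : Fin m → α, (∏ i, D (w i)) *
      (if τ < ((Finset.univ : Finset (Fin m)).filter (fun i => w i ∈ S)).card then 1 else 0)
      ≤ 1 / 100 := by
  have h1 : ∑ w : Fin m → α, (∏ i, D (w i)) *
      (((Finset.univ : Finset (Fin m)).filter (fun i => w i ∈ S)).card : ℝ) =
      m * ∑ x ∈ S, D x := by
    have h2 : ∀ w : Fin m → α, (∏ i, D (w i)) *
        (((Finset.univ : Finset (Fin m)).filter (fun i => w i ∈ S)).card : ℝ) =
        ∑ a : Fin m, (∏ i, D (w i)) * (if w a ∈ S then (1 : ℝ) else 0) := by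
      intro w
      rw [← Finset.mul_sum, Finset.sum_boole]
    rw [Finset.sum_congr rfl fun w _ => h2 w, Finset.sum_comm]
    have h3 : ∀ a : Fin m, ∑ w : Fin m → α, (∏ i, D (w i)) * (if w a ∈ S then (1 : ℝ) else 0) =
        ∑ x ∈ S, D x := by
      intro a
      rw [Pool.Agent.MPaa62e0T.union_sample_marg D hD1 m (fun x => if x ∈ S then (1 : ℝ) else 0) a]
      simp
    rw [Finset.sum_congr rfl fun a _ => h3 a, Finset.sum_const, Finset.card_univ,
      Fintype.card_fin, nsmul_eq_mul]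
  have h4 : ((τ : ℝ) + 1) * ∑ w : Fin m → α, (∏ i, D (w i)) *
      (if τ < ((Finset.univ : Finset (Fin m)).filter (fun i => w i ∈ S)).card then 1 else 0)
      ≤ m * ∑ x ∈ S, D x := by
    rw [← h1, Finset.mul_sum]
    refine Finset.sum_le_sum fun w _ => ?_
    have h5 : 0 ≤ ∏ i, D (w i) := Finset.prod_nonneg fun i _ => hD _
    split_ifs with h6
    · have h7 : (τ : ℝ) + 1 ≤
          (((Finset.univ : Finset (Fin m)).filter (fun i => w i ∈ S)).card : ℝ) := by
        exact_mod_cast h6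
      nlinarith
    · have h7 : (0 : ℝ) ≤
          (((Finset.univ : Finset (Fin m)).filter (fun i => w i ∈ S)).card : ℝ) :=
        Nat.cast_nonneg _
      nlinarith
  have h8 : (0 : ℝ) ≤ τ := Nat.cast_nonneg _
  by_contra hcon
  push Not at hcon
  nlinarith

/-- A point of positive weight with a value at most the mean. -/
theorem sample_pick {ι : Type} [Fintype ι] (W X : ι → ℝ) (hW : ∀ i, 0 ≤ W i)
    (hW1 : ∑ i, W i = 1) (c : ℝ) (h : ∑ i, W i * X i ≤ c) : ∃ i, 0 < W i ∧ X i ≤ c := by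
  by_contra hcon
  push Not at hcon
  have h1 : ∑ i, W i * c < ∑ i, W i * X i := by
    obtain ⟨j, hj⟩ : ∃ j, 0 < W j := by
      by_contra hc
      push Not at hc
      have : ∑ i, W i ≤ 0 := Finset.sum_nonpos fun i _ => hc i
      linarith
    refine Finset.sum_lt_sum (fun i _ => ?_) ⟨j, Finset.mem_univ j, ?_⟩
    · rcases (hW i).lt_or_eq with h2 | h2
      · exact (mul_lt_mul_of_pos_left (hcon i h2) h2).le
      · rw [← h2, zero_mul, zero_mul]
    · exact mul_lt_mul_of_pos_left (hcon j hj) hj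
  rw [← Finset.sum_mul, hW1, one_mul] at h1
  linarith

theorem sample_hits {m : ℕ} (w : Fin m → α) (F h : Finset α) :
    hits ((Finset.univ : Finset (Fin m)).val.map w) F h =
      ((Finset.univ : Finset (Fin m)).filter (fun i => w i ∈ symmDiff F h)).card := by
  unfold hits
  rw [Multiset.countP_map]
  rw [← Finset.filter_val, Finset.card_val]
  congr 1
  refine Finset.filter_congr fun i _ => ?_
  rw [Finset.mem_symmDiff]
  tauto

theorem sample_mass_ite (C : Finset (Finset α)) (q : Finset α → ℝ) (P : Finset α → Prop) :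
    mass C q P = ∑ h ∈ C, if P h then q h else 0 := by
  unfold mass
  rw [Finset.sum_filter]

theorem sample_mass_true (C : Finset (Finset α)) (q : Finset α → ℝ) :
    mass C q (fun _ => True) = ∑ h ∈ C, q h := by
  rw [sample_mass_ite]
  exact Finset.sum_congr rfl fun h _ => if_pos trivial

/-- The mass of the image of a restricted measure. -/
theorem sample_image (C : Finset (Finset α)) (q : Finset α → ℝ) (A : Finset α → Prop)
    (f : Finset α → Finset α) (hf : ∀ h ∈ C, A h → f h ∈ C) (Q : Finset α → Prop) :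
    mass C (fun g => mass C q (fun h => A h ∧ f h = g)) Q = mass C q (fun h => A h ∧ Q (f h)) := by
  rw [sample_mass_ite, sample_mass_ite]
  have h1 : ∀ g ∈ C, (if Q g then mass C q (fun h => A h ∧ f h = g) else 0) =
      ∑ h ∈ C, if f h = g then (if A h ∧ Q (f h) then q h else 0) else 0 := by
    intro g _
    by_cases hg : Q g
    · rw [if_pos hg, sample_mass_ite]
      refine Finset.sum_congr rfl fun h _ => ?_
      by_cases h2 : f h = g
      · by_cases h3 : A h
        · rw [if_pos ⟨h3, h2⟩, if_pos h2, if_pos ⟨h3, by rw [h2]; exact hg⟩]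
        · rw [if_neg fun h4 => h3 h4.1, if_pos h2, if_neg fun h4 => h3 h4.1]
      · rw [if_neg fun h4 => h2 h4.2, if_neg h2]
    · rw [if_neg hg]
      refine (Finset.sum_eq_zero fun h _ => ?_).symm
      by_cases h2 : f h = g
      · rw [if_pos h2, if_neg fun h4 => hg (by rw [← h2]; exact h4.2)]
      · rw [if_neg h2]
  rw [Finset.sum_congr rfl h1, Finset.sum_comm]
  refine Finset.sum_congr rfl fun h hh => ?_
  rw [Finset.sum_ite_eq C (f h)]
  by_cases h3 : A h
  · rw [if_pos (hf h hh h3)]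
    split_ifs <;> rfl
  · simp [h3]

/-- LEAF 17 (sampling).  Weights `∏ pb (w i)` on `w : Fin m → α`.  For a good `s`: by `relnet` (for
`C.image (symmDiff · (z s))`, `l = 2 τ`) all `F ∈ C` with `κ < ms pb (symmDiff F (z s))` have more than
`2 τ` hits `w i ∈ symmDiff F (z s)` except for weight `1/100`; by Markov (`E hits ≤ m κ/6400 ≤ τ/100`)
`D s` has at most `τ` hits in `symmDiff (D s) (z s)` except for weight `1/100`.  So some `w` with values
in `B` has `mass C q (h : good (h ∩ T), w fails for h ∩ T) ≤ 1/50`.  `P` = normalised image under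
`h ↦ D (h ∩ T)` of `q` restricted to the `h` with `h ∩ T` good and `w` not failing (mass at least
`1 - 1/38 - 1/50`).  If `F` is over `s`, earlier than `D s`, it has `> 2τ` hits with `z s`, so `> τ`
differences with `D s` on `w`. -/
theorem sample_step (C : Finset (Finset α)) (idx : Finset α → ℕ) (d : ℕ) (hd : C.vcDim ≤ d)
    (T B : Finset α) (hB : B.Nonempty) (q : Finset α → ℝ) (hq : IsProb C q)
    (z D : Finset α → Finset α) (good : Finset α → Prop) (pb : α → ℝ) (hpb : Meas B pb) (κ : ℝ)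
    (hκ : 0 < κ)
    (hgood : ∀ s, good s → D s ∈ C ∧ D s ∩ T = s ∧ ms pb (symmDiff (D s) (z s)) ≤ κ / 6400 ∧
        ∀ F ∈ C, F ∩ T = s → idx F < idx (D s) → κ < ms pb (symmDiff F (z s)))
    (hw : ∀ w ∈ B, mass C q (fun h => ¬ good (h ∩ T) ∨ w ∈ D (h ∩ T)) ≤ 1 / 38)
    (m τ : ℕ) (hm : 32 * (τ : ℝ) ≤ κ * m) (hm2 : κ * m ≤ 64 * τ)
    (hl : 100 * (m + 2 * τ + 1) ^ d ≤ 4 ^ (2 * τ)) :
    ∃ s : Multiset α, s.card = m ∧ (∀ x ∈ s, x ∈ B) ∧ ∃ P : Finset α → ℝ, IsProb C P ∧
      (∀ h ∈ C, P h ≠ 0 → h ∈ firsts C idx T s τ) ∧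
      ∀ w ∈ B, mass C P (fun h => w ∈ h) ≤ 1 / 20 := by
  obtain ⟨hpb0, hpb1, hpbB⟩ := hpb
  -- the failures
  set bad1 : (Fin m → α) → Finset α → Prop := fun w s =>
    ∃ f ∈ C.image (fun h => symmDiff h (z s)), κ < ∑ x ∈ f, pb x ∧
      ((Finset.univ : Finset (Fin m)).filter (fun i => w i ∈ f)).card ≤ 2 * τ with hbad1
  set bad2 : (Fin m → α) → Finset α → Prop := fun w s =>
    τ < ((Finset.univ : Finset (Fin m)).filter (fun i => w i ∈ symmDiff (D s) (z s))).card
    with hbad2
  have hW0 : ∀ w : Fin m → α, 0 ≤ ∏ i, pb (w i) := fun w => Finset.prod_nonneg fun i _ => hpb0 _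
  have hW1 : ∑ w : Fin m → α, ∏ i, pb (w i) = 1 :=
    Pool.Agent.MPaa62e0T.union_sample_tot pb hpb1 m
  have hE1 : ∀ s, ∑ w : Fin m → α, (∏ i, pb (w i)) * (if bad1 w s then 1 else 0) ≤ 1 / 100 := by
    intro s
    refine relnet (C.image (fun h => symmDiff h (z s))) d ((vc_trans C (z s)).trans hd) pb hpb0
      hpb1 κ hκ m (2 * τ) ?_ ?_
    · push_cast
      linarith
    · exact hl
  have hE2 : ∀ s, good s → ∑ w : Fin m → α, (∏ i, pb (w i)) * (if bad2 w s then 1 else 0)
      ≤ 1 / 100 := by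
    intro s hs
    refine sample_markov pb hpb0 hpb1 (symmDiff (D s) (z s)) m τ ?_
    have h1 := (hgood s hs).2.2.1
    unfold ms at h1
    have h2 : (0 : ℝ) ≤ m := Nat.cast_nonneg _
    have h3 : (m : ℝ) * ∑ x ∈ symmDiff (D s) (z s), pb x ≤ m * (κ / 6400) :=
      mul_le_mul_of_nonneg_left h1 h2
    linarith
  -- the choice of the sample
  obtain ⟨w, hw0, hwm⟩ : ∃ w : Fin m → α, 0 < ∏ i, pb (w i) ∧
      mass C q (fun h => good (h ∩ T) ∧ (bad1 w (h ∩ T) ∨ bad2 w (h ∩ T))) ≤ 1 / 50 := by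
    refine sample_pick _ _ hW0 hW1 _ ?_
    have h1 : ∀ w : Fin m → α, (∏ i, pb (w i)) *
        mass C q (fun h => good (h ∩ T) ∧ (bad1 w (h ∩ T) ∨ bad2 w (h ∩ T))) =
        ∑ h ∈ C, q h * ((∏ i, pb (w i)) *
          (if good (h ∩ T) ∧ (bad1 w (h ∩ T) ∨ bad2 w (h ∩ T)) then 1 else 0)) := by
      intro w
      rw [sample_mass_ite, Finset.mul_sum]
      refine Finset.sum_congr rfl fun h _ => ?_
      split_ifs <;> ring
    rw [Finset.sum_congr rfl fun w _ => h1 w, Finset.sum_comm]
    have h2 : ∀ h ∈ C, ∑ w : Fin m → α, q h * ((∏ i, pb (w i)) *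
        (if good (h ∩ T) ∧ (bad1 w (h ∩ T) ∨ bad2 w (h ∩ T)) then 1 else 0)) ≤
        q h * (1 / 50) := by
      intro h _
      rw [← Finset.mul_sum]
      refine mul_le_mul_of_nonneg_left ?_ (hq.1 h)
      by_cases hg : good (h ∩ T)
      · have h3 : ∀ w : Fin m → α, (∏ i, pb (w i)) *
            (if good (h ∩ T) ∧ (bad1 w (h ∩ T) ∨ bad2 w (h ∩ T)) then 1 else 0) ≤
            (∏ i, pb (w i)) * (if bad1 w (h ∩ T) then 1 else 0) +
              (∏ i, pb (w i)) * (if bad2 w (h ∩ T) then 1 else 0) := by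
          intro w
          rw [← mul_add]
          refine mul_le_mul_of_nonneg_left ?_ (hW0 w)
          by_cases h4 : bad1 w (h ∩ T)
          · by_cases h5 : bad2 w (h ∩ T)
            · simp [hg, h4, h5]
            · simp [hg, h4, h5]
          · by_cases h5 : bad2 w (h ∩ T)
            · simp [hg, h4, h5]
            · simp [hg, h4, h5]
        have h6 := Finset.sum_le_sum fun w (_ : w ∈ (Finset.univ : Finset (Fin m → α))) => h3 w
        rw [Finset.sum_add_distrib] at h6
        have h7 := hE1 (h ∩ T)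
        have h8 := hE2 (h ∩ T) hg
        linarith
      · have h3 : ∀ w : Fin m → α, (∏ i, pb (w i)) *
            (if good (h ∩ T) ∧ (bad1 w (h ∩ T) ∨ bad2 w (h ∩ T)) then (1 : ℝ) else 0) = 0 := by
          intro w
          simp [hg]
        rw [Finset.sum_congr rfl fun w _ => h3 w, Finset.sum_const_zero]
        norm_num
    refine (Finset.sum_le_sum h2).trans ?_
    rw [← Finset.sum_mul, hq.2, one_mul]
  have hwB : ∀ i, w i ∈ B := by
    intro i
    by_contra hc
    have h1 : ∏ i, pb (w i) = 0 := Finset.prod_eq_zero (Finset.mem_univ i) (hpbB _ hc)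
    rw [h1] at hw0
    exact lt_irrefl _ hw0
  -- the good part
  set A : Finset α → Prop := fun h =>
    good (h ∩ T) ∧ ¬ (bad1 w (h ∩ T) ∨ bad2 w (h ∩ T)) with hA
  have hAmass : 9 / 10 ≤ mass C q A := by
    obtain ⟨w0, hw0B⟩ := hB
    have h1 := hw w0 hw0B
    have h2 : mass C q (fun h => ¬ good (h ∩ T)) ≤
        mass C q (fun h => ¬ good (h ∩ T) ∨ w0 ∈ D (h ∩ T)) :=
      Pool.Agent.MPaa62e0T.mass_mono hq.1 fun x _ hx => Or.inl hx
    have h3 := Pool.Agent.MPaa62e0T.mass_split (C := C) (M := q) (fun _ => True)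
      (fun h => good (h ∩ T))
    have h4 : mass C q (fun _ => True) = 1 := (sample_mass_true C q).trans hq.2
    have h5 := Pool.Agent.MPaa62e0T.mass_split (C := C) (M := q) (fun h => good (h ∩ T))
      (fun h => bad1 w (h ∩ T) ∨ bad2 w (h ∩ T))
    have h6 : mass C q (fun h => True ∧ good (h ∩ T)) = mass C q (fun h => good (h ∩ T)) :=
      Pool.Agent.MPaa62e0T.mass_congr fun x _ => by tauto
    have h7 : mass C q (fun h => True ∧ ¬ good (h ∩ T)) = mass C q (fun h => ¬ good (h ∩ T)) :=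
      Pool.Agent.MPaa62e0T.mass_congr fun x _ => by tauto
    have h8 : mass C q A = mass C q (fun h => good (h ∩ T) ∧
        ¬ (bad1 w (h ∩ T) ∨ bad2 w (h ∩ T))) := rfl
    rw [h8]
    rw [h4, h6, h7] at h3
    linarith
  have hZ : 0 < mass C q A := by linarith
  set P : Finset α → ℝ := fun g => mass C q (fun h => A h ∧ D (h ∩ T) = g) / mass C q A with hP
  -- the mass of `P`
  have hPm : ∀ Q : Finset α → Prop, mass C P Q =
      mass C q (fun h => A h ∧ Q (D (h ∩ T))) / mass C q A := by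
    intro Q
    rw [← sample_image C q A (fun h => D (h ∩ T)) (fun h _ hh => (hgood _ hh.1).1) Q]
    rw [sample_mass_ite, sample_mass_ite, Finset.sum_div]
    refine Finset.sum_congr rfl fun g _ => ?_
    split_ifs
    · rfl
    · rw [zero_div]
  refine ⟨(Finset.univ : Finset (Fin m)).val.map w, by simp, ?_, P, ⟨fun g => ?_, ?_⟩, ?_, ?_⟩
  · intro x hx
    rw [Multiset.mem_map] at hx
    obtain ⟨i, _, rfl⟩ := hx
    exact hwB i
  · exact div_nonneg (Pool.Agent.MPaa62e0T.mass_nonneg hq.1 _) hZ.le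
  · have h1 := hPm (fun _ => True)
    have h2 : mass C P (fun _ => True) = ∑ h ∈ C, P h := sample_mass_true C P
    have h3 : mass C q (fun h => A h ∧ True) = mass C q A :=
      Pool.Agent.MPaa62e0T.mass_congr fun x _ => by tauto
    rw [h2, h3, div_self hZ.ne'] at h1
    exact h1
  · intro g hg hPg
    have h1 : mass C q (fun h => A h ∧ D (h ∩ T) = g) ≠ 0 := by
      intro h0
      apply hPg
      rw [hP]
      show mass C q (fun h => A h ∧ D (h ∩ T) = g) / mass C q A = 0
      rw [h0, zero_div]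
    obtain ⟨h, hh, hhA, hhD⟩ : ∃ h ∈ C, A h ∧ D (h ∩ T) = g := by
      by_contra hc
      push Not at hc
      apply h1
      rw [sample_mass_ite]
      exact Finset.sum_eq_zero fun x hx => if_neg fun hx2 => hc x hx hx2.1 hx2.2
    obtain ⟨hg1, hg2⟩ := hhA
    push Not at hg2
    obtain ⟨hn1, hn2⟩ := hg2
    obtain ⟨k1, k2, k3, k4⟩ := hgood _ hg1
    unfold firsts
    rw [Finset.mem_filter]
    refine ⟨hg, fun F hF hFT hhit => ?_⟩
    by_contra hlt
    push Not at hlt
    rw [← hhD] at hFT hhit hlt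
    rw [k2] at hFT
    have h5 := k4 F hF hFT hlt
    have h6 : 2 * τ < ((Finset.univ : Finset (Fin m)).filter
        (fun i => w i ∈ symmDiff F (z (h ∩ T)))).card := by
      by_contra hc
      exact hn1 ⟨_, Finset.mem_image_of_mem _ hF, h5, not_lt.1 hc⟩
    have h7 : ((Finset.univ : Finset (Fin m)).filter
        (fun i => w i ∈ symmDiff (D (h ∩ T)) (z (h ∩ T)))).card ≤ τ := not_lt.1 hn2
    rw [sample_hits] at hhit
    have h8 : (Finset.univ : Finset (Fin m)).filter (fun i => w i ∈ symmDiff F (z (h ∩ T))) ⊆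
        (Finset.univ : Finset (Fin m)).filter (fun i => w i ∈ symmDiff F (D (h ∩ T))) ∪
        (Finset.univ : Finset (Fin m)).filter
          (fun i => w i ∈ symmDiff (D (h ∩ T)) (z (h ∩ T))) := by
      intro i hi
      rw [Finset.mem_union, Finset.mem_filter, Finset.mem_filter]
      rw [Finset.mem_filter] at hi
      have h9 := hi.2
      rw [Finset.mem_symmDiff] at h9
      simp only [Finset.mem_symmDiff, Finset.mem_univ, true_and]
      tauto
    have h10 := (Finset.card_le_card h8).trans (Finset.card_union_le _ _)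
    omega
  · intro x hx
    rw [hPm, div_le_iff₀ hZ]
    have h1 : mass C q (fun h => A h ∧ x ∈ D (h ∩ T)) ≤ 1 / 38 :=
      (Pool.Agent.MPaa62e0T.mass_mono hq.1 fun y _ hy => Or.inr hy.2).trans (hw x hx)
    linarith

end Pool.Agent.MPaa62e0V
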