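import Pool.Agent.Lib.MP_aa62e0_lcV2.Core
import Pool.Agent.Lib.MP_aa62e0_lcV2.Sample

set_option autoImplicit false
set_option linter.unusedSectionVars false

open Finset
open scoped Classical

namespace Pool.Agent.MPaa62e0V

open Pool.Agent.MPaa62e0T (mass traces Ent IsProb)

variable {α : Type} [Fintype α] [DecidableEq α]

/-- ASSEMBLY 18.  If `A \ T` is empty: `s` = `m` copies of a point of `A`, `P` = point mass at the
`idx`-first member of `C`. -/
theorem core2 (C : Finset (Finset α)) (idx : Finset α → ℕ)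
    (hidx : ∀ F ∈ C, ∀ G ∈ C, idx F = idx G → F = G) (h0 : ∅ ∈ C) (d : ℕ)
    (hd : C.vcDim ≤ d) (A : Finset α) (hA : A.Nonempty) (t r m τ : ℕ) (hr : 1 ≤ r) (M κ : ℝ)
    (hM : 100 * (d * Real.log (t + 1) + 1) ≤ M)
    (ht : 2 * (r : ℝ) + 8000 * (r * (d * Real.log (t + 1))) ≤ t)
    (hκ : 0 < κ) (hκM : 38400000 * κ * M ≤ 1) (hκr : 6400 ≤ κ * r)
    (hm : 32 * (τ : ℝ) ≤ κ * m) (hm2 : κ * m ≤ 64 * τ)
    (hl : 100 * (m + 2 * τ + 1) ^ d ≤ 4 ^ (2 * τ)) :
    ∃ T ⊆ A, T.card ≤ t ∧ ∃ s : Multiset α, s.card = m ∧ (∀ x ∈ s, x ∈ A) ∧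
      ∃ P : Finset α → ℝ, IsProb C P ∧
      (∀ h ∈ C, P h ≠ 0 → h ∈ firsts C idx T s τ) ∧
      ∀ w ∈ A \ T, mass C P (fun h => w ∈ h) ≤ 1 / 20 := by
  obtain ⟨T, hTA, hTt, hcore⟩ := core C idx hidx h0 d hd A t r hr M κ hM ht hκ hκM hκr
  refine ⟨T, hTA, hTt, ?_⟩
  rcases (A \ T).eq_empty_or_nonempty with he | hne
  · obtain ⟨a, ha⟩ := hA
    obtain ⟨F0, hF0, hmin⟩ := Finset.exists_min_image C idx ⟨∅, h0⟩
    refine ⟨Multiset.replicate m a, Multiset.card_replicate m a, ?_,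
      fun h => if h = F0 then 1 else 0, ⟨?_, ?_⟩, ?_, ?_⟩
    · intro x hx
      rw [Multiset.eq_of_mem_replicate hx]
      exact ha
    · intro h
      show (0 : ℝ) ≤ if h = F0 then 1 else 0
      split_ifs <;> norm_num
    · show ∑ h ∈ C, (if h = F0 then (1 : ℝ) else 0) = 1
      rw [Finset.sum_ite_eq' C F0 (fun _ => (1 : ℝ)), if_pos hF0]
    · intro h _ hP
      have hh : h = F0 := by
        by_contra hne
        exact hP (if_neg hne)
      rw [hh]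
      unfold firsts
      rw [Finset.mem_filter]
      exact ⟨hF0, fun F hF _ _ => hmin F hF⟩
    · intro w hw
      rw [he] at hw
      exact absurd hw (Finset.notMem_empty w)
  · obtain ⟨q, hq, z, D, good, pb, hpb, hgood, hw⟩ := hcore hne
    obtain ⟨s, hs1, hs2, P, hP1, hP2, hP3⟩ := sample_step C idx d hd T (A \ T) hne q hq z D good
      pb hpb κ hκ hgood hw m τ hm hm2 hl
    exact ⟨s, hs1, fun x hx => (Finset.mem_sdiff.1 (hs2 x hx)).1, P, hP1, hP2, hP3⟩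

end Pool.Agent.MPaa62e0V
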