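import Pool.Agent.Lib.MP_aa62e0_lcT.Basic

set_option autoImplicit false
set_option linter.unusedSectionVars false

open Finset
open scoped Classical

namespace Pool.Agent.MPaa62e0V

open Pool.Agent.MPaa62e0T (mass traces Ent IsProb)

variable {α : Type} [Fintype α] [DecidableEq α]

/-- Measure of a set. -/
noncomputable def ms (p : α → ℝ) (f : Finset α) : ℝ := ∑ x ∈ f, p x

/-- `p` is a probability carried by `B`. -/
def Meas (B : Finset α) (p : α → ℝ) : Prop :=
  (∀ x, 0 ≤ p x) ∧ ∑ x, p x = 1 ∧ ∀ x, x ∉ B → p x = 0

/-- The majority set of the members with trace `s` on `T`. -/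
noncomputable def maj (C : Finset (Finset α)) (q : Finset α → ℝ) (T s : Finset α) : Finset α :=
  Finset.univ.filter (fun u => mass C q (fun h => h ∩ T = s ∧ u ∉ h)
    < mass C q (fun h => h ∩ T = s ∧ u ∈ h))

/-- The number of elements of the multiset `s` at which `F` and `h` differ. -/
noncomputable def hits (s : Multiset α) (F h : Finset α) : ℕ :=
  s.countP (fun x => ¬ (x ∈ F ↔ x ∈ h))

/-- Members which come first (in the order `idx`) among the members with the same trace on `T`
and at most `τ` differences on the multiset `s`. -/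
noncomputable def firsts (C : Finset (Finset α)) (idx : Finset α → ℕ) (T : Finset α)
    (s : Multiset α) (τ : ℕ) : Finset (Finset α) :=
  C.filter (fun h => ∀ F ∈ C, F ∩ T = h ∩ T → hits s F h ≤ τ → idx h ≤ idx F)

/-- Weight of `h`: `2^(-number of mistakes on V)`, the target is `c`. -/
noncomputable def wt (V c h : Finset α) : ℝ :=
  (1 / 2) ^ ((V.filter (fun y => ¬ (y ∈ h ↔ y ∈ c))).card)

/-- The weighted majority of the list `ℓ` after the mistakes at the points of `V`. -/
def vote (ℓ : Finset (Finset α)) (V c : Finset α) (x : α) : Prop :=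
  ∑ h ∈ ℓ.filter (fun h => x ∉ h), wt V c h < ∑ h ∈ ℓ.filter (fun h => x ∈ h), wt V c h

end Pool.Agent.MPaa62e0V
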