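import Pool.Agent.Lib.MP_aa62e0_lcV2.Defs
import Pool.Agent.Lib.MP_aa62e0_lcT.Advice

set_option autoImplicit false
set_option linter.unusedSectionVars false

open Finset
open scoped Classical

namespace Pool.Agent.MPaa62e0V

open Pool.Agent.MPaa62e0T (mass traces Ent IsProb)

variable {α : Type} [Fintype α] [DecidableEq α]

/-- A word of `4 k` bits names a pair of subsets of `Fin k` and a multiset of `m ≤ k` of its
elements. -/
theorem encode_bits (k m : ℕ) (hmk : m ≤ k) (hk : 1 ≤ k) :
    ∃ f : (Fin (4 * k) → Bool) → Finset (Fin k) × Finset (Fin k) × Sym (Fin k) m,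
      Function.Surjective f := by
  have hcard : Fintype.card (Finset (Fin k) × Finset (Fin k) × Sym (Fin k) m) ≤
      Fintype.card (Fin (4 * k) → Bool) := by
    rw [Fintype.card_prod, Fintype.card_prod, Fintype.card_finset, Fintype.card_fin,
      Sym.card_sym_eq_multichoose, Fintype.card_fin, Nat.multichoose_eq, Fintype.card_fun,
      Fintype.card_fin, Fintype.card_bool]
    have h1 : (k + m - 1).choose m ≤ 2 ^ (k + m - 1) := Nat.choose_le_two_pow _ _
    have h2 : 2 ^ (k + m - 1) ≤ 2 ^ (2 * k) := Nat.pow_le_pow_right (by norm_num) (by omega)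
    calc 2 ^ k * (2 ^ k * (k + m - 1).choose m) ≤ 2 ^ k * (2 ^ k * 2 ^ (2 * k)) :=
          Nat.mul_le_mul le_rfl (Nat.mul_le_mul le_rfl (h1.trans h2))
      _ = 2 ^ (4 * k) := by
          rw [← pow_add, ← pow_add]
          congr 1
          omega
  obtain ⟨g⟩ := Function.Embedding.nonempty_of_card_le hcard
  have : Nonempty (Finset (Fin k) × Finset (Fin k) × Sym (Fin k) m) :=
    ⟨(∅, ∅, ⟨Multiset.replicate m ⟨0, hk⟩, Multiset.card_replicate _ _⟩)⟩
  exact ⟨Function.invFun g, Function.invFun_surjective g.injective⟩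

/-- At most `k` points are listed by `Fin k`. -/
theorem encode_enum [Nonempty α] (k : ℕ) (D : Finset α) (hD : D.card ≤ k) :
    ∃ e : Fin k → α, ∀ x ∈ D, ∃ i, e i = x := by
  refine ⟨fun i => if h : i.1 < D.card then (D.equivFin.symm ⟨i.1, h⟩).1 else Classical.arbitrary α,
    fun x hx => ?_⟩
  have h1 := (D.equivFin ⟨x, hx⟩).2
  refine ⟨⟨(D.equivFin ⟨x, hx⟩).1, h1.trans_le hD⟩, ?_⟩
  simp only [h1, dite_true]
  show ((D.equivFin.symm (D.equivFin ⟨x, hx⟩)).1 : α) = x
  rw [Equiv.symm_apply_apply]

/-- LEAF 22 (roles as advice).  For a finset `D` of at most `k` points (`D` nonempty) fix an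
enumeration `e : Fin k → α` with `D ⊆ image e`.  Advice = `(RT, RW, sy)` in
`Finset (Fin k) × Finset (Fin k) × Sym (Fin k) m`, at most `2^k * 2^k * 2^(k+m) ≤ 2^(4 k)` values
(`Sym.card_sym_eq_multichoose`), so it is a word of `4 k` bits; then `no_advice_class` of lcT/Advice.
Decoder: `D` = the points kept, `T = RT.image e`, `W = RW.image e`, `s = sy.map e`,
`pos` = the points kept with label true; a point `x ∈ D` gets its label, another `dec T s W pos x`. -/
theorem encode (C : Finset (Finset α)) (k m : ℕ) (hmk : m ≤ k)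
    (dec : Finset α → Multiset α → Finset α → Finset α → α → Prop)
    (h : ∀ c ∈ C, ∀ A : Finset α, A.Nonempty →
      ∃ T ⊆ A, ∃ s : Multiset α, s.card = m ∧ (∀ x ∈ s, x ∈ A) ∧ ∃ W ⊆ A,
        T.card + m + W.card ≤ k ∧ ∀ pos : Finset α, (∀ y ∈ W, (y ∈ pos ↔ y ∈ c)) →
          ∀ x ∈ A, x ∉ T → x ∉ W → (dec T s W pos x ↔ x ∈ c)) :
    ∃ κ : Finset (α × Bool) → Finset (α × Bool),
      ∃ ρ : Finset (α × Bool) → (α → Bool),
        ∀ S : Finset (α × Bool),
          (∃ A ∈ C, ∀ p ∈ S, decide (p.1 ∈ A) = p.2) →
            κ S ⊆ S ∧ (κ S).card ≤ 13 * k + 4 ∧ ∀ p ∈ S, ρ (κ S) p.1 = p.2 := by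
  rcases isEmpty_or_nonempty α with hα | hα
  · exact ⟨fun _ => ∅, fun _ _ => false, fun S _ => ⟨Finset.empty_subset _, by simp,
      fun p _ => (hα.false p.1).elim⟩⟩
  rcases Nat.eq_zero_or_pos k with hk | hk
  · -- no points are kept
    subst hk
    refine ⟨fun _ => ∅, fun _ x => decide (dec ∅ 0 ∅ ∅ x), fun S hS => ⟨Finset.empty_subset _,
      by simp, fun p hp => ?_⟩⟩
    obtain ⟨c, hc, hcS⟩ := hS
    obtain ⟨T, -, s, hs, -, W, -, hcard, hdec⟩ := h c hc (S.image Prod.fst)
      ⟨p.1, Finset.mem_image_of_mem _ hp⟩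
    have hT : T = ∅ := Finset.card_eq_zero.1 (by omega)
    have hW : W = ∅ := Finset.card_eq_zero.1 (by omega)
    have hs0 : s = 0 := Multiset.card_eq_zero.1 (by omega)
    subst hT
    subst hW
    subst hs0
    have h1 := hdec ∅ (by simp) p.1 (Finset.mem_image_of_mem _ hp) (by simp) (by simp)
    rw [← hcS p hp]
    exact decide_eq_decide.2 h1
  obtain ⟨f, hf⟩ := encode_bits k m hmk hk
  have hen := fun D : Finset α => encode_enum k D
  choose! en hen using hen
  obtain ⟨κ, ρ, hκ⟩ := Pool.Agent.MPaa62e0T.no_advice_class C k (4 * k)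
    (fun T' β x => if (x, true) ∈ T' then true else if (x, false) ∈ T' then false else
      decide (dec ((f β).1.image (en (T'.image Prod.fst)))
        ((f β).2.2.1.map (en (T'.image Prod.fst)))
        ((f β).2.1.image (en (T'.image Prod.fst)))
        ((T'.filter fun p => p.2 = true).image Prod.fst) x)) (fun S hS => by
      rcases S.eq_empty_or_nonempty with hS0 | ⟨p0, hp0⟩
      · subst hS0
        exact ⟨∅, le_rfl, by simp, fun _ => false, by simp⟩
      have hfun := Pool.Agent.MPaa62e0T.class_fun C S hS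
      obtain ⟨c, hc, hcS⟩ := hS
      obtain ⟨T, hTA, s, hs, hsA, W, hWA, hcard, hdec⟩ := h c hc (S.image Prod.fst)
        ⟨p0.1, Finset.mem_image_of_mem _ hp0⟩
      obtain ⟨D, hDdef⟩ : ∃ D : Finset α, D = T ∪ s.toFinset ∪ W := ⟨_, rfl⟩
      have hTD : T ⊆ D := by
        rw [hDdef]
        exact Finset.subset_union_left.trans Finset.subset_union_left
      have hsD : ∀ x ∈ s, x ∈ D := by
        intro x hx
        rw [hDdef]
        exact Finset.mem_union_left _ (Finset.mem_union_right _ (Multiset.mem_toFinset.2 hx))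
      have hWD : W ⊆ D := by
        rw [hDdef]
        exact Finset.subset_union_right
      have hDA : D ⊆ S.image Prod.fst := by
        rw [hDdef]
        refine Finset.union_subset (Finset.union_subset hTA fun x hx => ?_) hWA
        exact hsA x (Multiset.mem_toFinset.1 hx)
      have hDk : D.card ≤ k := by
        have h1 := Finset.card_union_le (T ∪ s.toFinset) W
        have h2 := Finset.card_union_le T s.toFinset
        have h3 := Multiset.toFinset_card_le s
        rw [← hDdef] at h1
        omega
      obtain ⟨T', hT'def⟩ : ∃ T' : Finset (α × Bool), T' = S.filter fun p => p.1 ∈ D := ⟨_, rfl⟩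
      have hT'mem : ∀ p, p ∈ T' ↔ p ∈ S ∧ p.1 ∈ D := by
        intro p
        rw [hT'def, Finset.mem_filter]
      have himg : T'.image Prod.fst = D := by
        ext x
        rw [Finset.mem_image]
        constructor
        · rintro ⟨p, hp, rfl⟩
          exact ((hT'mem p).1 hp).2
        · intro hx
          obtain ⟨p, hp, rfl⟩ := Finset.mem_image.1 (hDA hx)
          exact ⟨p, (hT'mem p).2 ⟨hp, hx⟩, rfl⟩
      have hT'card : T'.card = D.card := by
        rw [← himg]
        refine (Finset.card_image_of_injOn fun p hp q hq hpq => ?_).symm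
        exact hfun p ((hT'mem p).1 (Finset.mem_coe.1 hp)).1 q
          ((hT'mem q).1 (Finset.mem_coe.1 hq)).1 hpq
      have hfin : Nonempty (Fin k) := ⟨⟨0, hk⟩⟩
      have hg := hen D hDk
      choose! g hg using hg
      obtain ⟨β, hβ⟩ := hf (T.image g, W.image g, ⟨s.map g, by rw [Multiset.card_map, hs]⟩)
      have e1 : (T.image g).image (en D) = T := by
        rw [Finset.image_image]
        ext x
        rw [Finset.mem_image]
        constructor
        · rintro ⟨y, hy, rfl⟩
          rw [Function.comp_apply, hg y (hTD hy)]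
          exact hy
        · intro hx
          exact ⟨x, hx, hg x (hTD hx)⟩
      have e2 : (W.image g).image (en D) = W := by
        rw [Finset.image_image]
        ext x
        rw [Finset.mem_image]
        constructor
        · rintro ⟨y, hy, rfl⟩
          rw [Function.comp_apply, hg y (hWD hy)]
          exact hy
        · intro hx
          exact ⟨x, hx, hg x (hWD hx)⟩
      have e3 : (s.map g).map (en D) = s := by
        rw [Multiset.map_map]
        conv_rhs => rw [← Multiset.map_id s]
        exact Multiset.map_congr rfl fun x hx => hg x (hsD x hx)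
      refine ⟨T', ?_, ?_, β, fun p hp => ?_⟩
      · rw [hT'def]
        exact Finset.filter_subset _ _
      · rw [hT'card]
        exact hDk
      show (if (p.1, true) ∈ T' then true else if (p.1, false) ∈ T' then false else
        decide (dec ((f β).1.image (en (T'.image Prod.fst)))
        ((f β).2.2.1.map (en (T'.image Prod.fst)))
        ((f β).2.1.image (en (T'.image Prod.fst)))
        ((T'.filter fun p => p.2 = true).image Prod.fst) p.1)) = p.2
      rw [hβ, himg]
      show (if (p.1, true) ∈ T' then true else if (p.1, false) ∈ T' then false else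
        decide (dec ((T.image g).image (en D)) ((s.map g).map (en D)) ((W.image g).image (en D))
        ((T'.filter fun p => p.2 = true).image Prod.fst) p.1)) = p.2
      rw [e1, e2, e3]
      by_cases h1 : (p.1, true) ∈ T'
      · rw [if_pos h1]
        exact (congrArg Prod.snd (hfun _ ((hT'mem _).1 h1).1 _ hp rfl))
      rw [if_neg h1]
      by_cases h2 : (p.1, false) ∈ T'
      · rw [if_pos h2]
        exact (congrArg Prod.snd (hfun _ ((hT'mem _).1 h2).1 _ hp rfl))
      rw [if_neg h2]
      have hpD : p.1 ∉ D := by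
        intro hpD
        have h3 : p ∈ T' := (hT'mem p).2 ⟨hp, hpD⟩
        obtain ⟨x, y⟩ := p
        cases y with
        | true => exact h1 h3
        | false => exact h2 h3
      have hpos : ∀ y ∈ W, (y ∈ (T'.filter fun p => p.2 = true).image Prod.fst ↔ y ∈ c) := by
        intro y hy
        rw [Finset.mem_image]
        constructor
        · rintro ⟨q, hq, rfl⟩
          obtain ⟨hq1, hq2⟩ := Finset.mem_filter.1 hq
          have h4 := hcS q ((hT'mem q).1 hq1).1
          rw [hq2] at h4
          exact of_decide_eq_true h4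
        · intro hyc
          obtain ⟨q, hq, rfl⟩ := Finset.mem_image.1 (hDA (hWD hy))
          refine ⟨q, Finset.mem_filter.2 ⟨(hT'mem q).2 ⟨hq, hWD hy⟩, ?_⟩, rfl⟩
          rw [← hcS q hq]
          exact decide_eq_true hyc
      have h5 := hdec _ hpos p.1 (Finset.mem_image_of_mem _ hp) (fun h6 => hpD (hTD h6))
        (fun h6 => hpD (hWD h6))
      rw [← hcS p hp]
      exact decide_eq_decide.2 h5)
  refine ⟨κ, ρ, fun S hS => ⟨(hκ S hS).1, ?_, (hκ S hS).2.2⟩⟩
  have := (hκ S hS).2.1
  omega

end Pool.Agent.MPaa62e0V
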