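import Pool.Agent.Lib.MP_aa62e0_lcV2.Mode
import Pool.Agent.Lib.MP_aa62e0_lcT.Ent

set_option autoImplicit false
set_option linter.unusedSectionVars false

open Finset
open scoped Classical

namespace Pool.Agent.MPaa62e0V

open Pool.Agent.MPaa62e0T (mass traces Ent IsProb)

variable {α : Type} [Fintype α] [DecidableEq α]

/-- LEAF 2 (conditional entropy is at least one minus the mode).  Group the traces on `T'` by their
traces on `T ⊆ T'` (as in `ent_refine_group` of lcT/Ent) and use `mode_le` in every group. -/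
theorem ent_mode (C : Finset (Finset α)) (q : Finset α → ℝ) (hq : ∀ h, 0 ≤ q h) (T T' : Finset α)
    (hT : T ⊆ T') (b : Finset α → ℝ) (hb0 : ∀ s, 0 ≤ b s)
    (hb : ∀ h ∈ C, mass C q (fun g => g ∩ T' = h ∩ T') ≤ b (h ∩ T)) :
    ∑ s ∈ traces C T, (mass C q (fun h => h ∩ T = s) - b s) ≤ Ent C q T' - Ent C q T := by
  have hmap : ∀ t' ∈ traces C T', t' ∩ T ∈ traces C T := by
    intro t' ht'
    unfold traces at ht' ⊢
    rw [Finset.mem_image] at ht' ⊢
    obtain ⟨h, hh, rfl⟩ := ht'
    exact ⟨h, hh, by rw [Finset.inter_assoc, Finset.inter_eq_right.2 hT]⟩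
  unfold Ent
  rw [← Finset.sum_fiberwise_of_maps_to hmap, ← Finset.sum_sub_distrib]
  refine Finset.sum_le_sum fun s _ => ?_
  have hsum : mass C q (fun h => h ∩ T = s)
      = ∑ t' ∈ (traces C T').filter (fun t' => t' ∩ T = s), mass C q (fun h => h ∩ T' = t') := by
    rw [← Pool.Agent.MPaa62e0T.sum_traces C q T' (fun h => h ∩ T = s), Finset.sum_filter]
    refine Finset.sum_congr rfl fun t' _ => ?_
    split_ifs with h2
    · refine Pool.Agent.MPaa62e0T.mass_congr fun x _ => ⟨fun h => h.1, fun h => ⟨h, ?_⟩⟩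
      have h3 : (x ∩ T') ∩ T = s := by rw [h]; exact h2
      rwa [Finset.inter_assoc, Finset.inter_eq_right.2 hT] at h3
    · refine Pool.Agent.MPaa62e0T.ent_refine_zero C q _ fun x _ hx => h2 ?_
      rw [← hx.1, Finset.inter_assoc, Finset.inter_eq_right.2 hT]
      exact hx.2
  have h4 := mode_le ((traces C T').filter (fun t' => t' ∩ T = s))
    (fun t' => mass C q (fun h => h ∩ T' = t'))
    (fun t' _ => Pool.Agent.MPaa62e0T.mass_nonneg hq _) (b s) (hb0 s) (by
      intro t' ht'
      obtain ⟨ht1, ht2⟩ := Finset.mem_filter.1 ht'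
      unfold traces at ht1
      obtain ⟨h, hh, rfl⟩ := Finset.mem_image.1 ht1
      have h5 := hb h hh
      rw [Finset.inter_assoc, Finset.inter_eq_right.2 hT] at ht2
      rwa [ht2] at h5)
  rw [← hsum] at h4
  exact h4

end Pool.Agent.MPaa62e0V
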