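import Pool.Agent.Lib.MP_aa62e0_lcV2.Defs

set_option autoImplicit false
set_option linter.unusedSectionVars false

open Finset
open scoped Classical

namespace Pool.Agent.MPaa62e0V

open Pool.Agent.MPaa62e0T (mass traces Ent IsProb)

variable {α : Type} [Fintype α] [DecidableEq α]

theorem numerics_pow (d L : ℕ) (_hd : 1 ≤ d) (hL : 1 ≤ L) (hdL : d < 2 ^ L) (a b : ℕ)
    (hab : a ≤ 2 ^ b * (d * L) ^ 2) : a ≤ 2 ^ ((b + 4) * L) := by
  have h1 : L < 2 ^ L := Nat.lt_two_pow_self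
  have h2 : d * L ≤ 2 ^ L * 2 ^ L := Nat.mul_le_mul hdL.le h1.le
  have h3 : (d * L) ^ 2 ≤ (2 ^ L * 2 ^ L) ^ 2 := Nat.pow_le_pow_left h2 2
  have h4 : (2 ^ L * 2 ^ L) ^ 2 = 2 ^ (4 * L) := by
    rw [← pow_add, ← pow_mul]
    congr 1
    ring
  have h5 : (2 : ℕ) ^ b ≤ 2 ^ (b * L) := Nat.pow_le_pow_right (by norm_num) (by nlinarith)
  calc a ≤ 2 ^ b * (d * L) ^ 2 := hab
    _ ≤ 2 ^ (b * L) * 2 ^ (4 * L) := Nat.mul_le_mul h5 (h4 ▸ h3)
    _ = 2 ^ ((b + 4) * L) := by rw [← pow_add]; congr 1; ring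

theorem numerics_core (d L : ℕ) (hd : 1 ≤ d) (hL : 1 ≤ L) (hdL : d < 2 ^ L) :
    ∃ (t r m τ w k : ℕ) (M κ : ℝ), 1 ≤ r ∧
    100 * (d * Real.log (t + 1) + 1) ≤ M ∧
    2 * (r : ℝ) + 8000 * (r * (d * Real.log (t + 1))) ≤ t ∧
    0 < κ ∧ 38400000 * κ * M ≤ 1 ∧ 6400 ≤ κ * r ∧
    32 * (τ : ℝ) ≤ κ * m ∧ κ * m ≤ 64 * τ ∧ 100 * (m + 2 * τ + 1) ^ d ≤ 4 ^ (2 * τ) ∧
    (t + m + 1) ^ (20 * d) < 2 ^ (7 * (w + 1)) ∧ t + m + w ≤ k ∧
    13 * k + 4 ≤ 2 ^ 78 * (d ^ 2 * L ^ 2) := by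
  obtain ⟨N, hN⟩ : ∃ N : ℕ, N = d * L := ⟨_, rfl⟩
  have hN1 : 1 ≤ N := by rw [hN]; exact Nat.mul_pos hd hL
  have hN2 : N ≤ N ^ 2 := by nlinarith
  have hN2' : 1 ≤ N ^ 2 := le_trans hN1 hN2
  have hNR : (1 : ℝ) ≤ (N : ℝ) := by exact_mod_cast hN1
  have hNR2 : (N : ℝ) ≤ (N : ℝ) ^ 2 := by exact_mod_cast hN2
  -- logarithm
  have hlog : (d : ℝ) * Real.log (((2 ^ 74 * N ^ 2 : ℕ) : ℝ) + 1) ≤ 56 * N := by
    have h1 : 2 ^ 74 * N ^ 2 + 1 ≤ 2 ^ ((75 + 4) * L) := by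
      apply numerics_pow d L hd hL hdL
      rw [← hN]
      calc 2 ^ 74 * N ^ 2 + 1 ≤ 2 ^ 74 * N ^ 2 + 2 ^ 74 * N ^ 2 := by
            apply Nat.add_le_add_left
            exact Nat.mul_pos (by positivity) (by positivity)
        _ = 2 ^ 75 * N ^ 2 := by ring
    have h2 : (((2 ^ 74 * N ^ 2 : ℕ) : ℝ) + 1) ≤ 2 ^ (79 * L) := by exact_mod_cast h1
    have h3 : Real.log (((2 ^ 74 * N ^ 2 : ℕ) : ℝ) + 1) ≤ 56 * L := by
      calc Real.log (((2 ^ 74 * N ^ 2 : ℕ) : ℝ) + 1) ≤ Real.log (2 ^ (79 * L)) :=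
            Real.log_le_log (by positivity) h2
        _ = (79 * L) * Real.log 2 := by rw [Real.log_pow]; push_cast; ring
        _ ≤ (79 * L) * 0.6931471808 := by
            apply mul_le_mul_of_nonneg_left Real.log_two_lt_d9.le (by positivity)
        _ ≤ 56 * L := by
            have : (0 : ℝ) ≤ (L : ℝ) := by positivity
            nlinarith
    calc (d : ℝ) * Real.log (((2 ^ 74 * N ^ 2 : ℕ) : ℝ) + 1) ≤ d * (56 * L) :=
          mul_le_mul_of_nonneg_left h3 (by positivity)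
      _ = 56 * N := by rw [hN]; push_cast; ring
  refine ⟨2 ^ 74 * N ^ 2, 1400832000000000 * N, 112066560000000 * N ^ 2, 16 * N, 226 * N,
    2 ^ 74 * N ^ 2 + 112066560000000 * N ^ 2 + 226 * N, 5700 * N, 1 / (218880000000 * N),
    by omega, ?_, ?_, by positivity, ?_, ?_, ?_, ?_, ?_, ?_, le_rfl, ?_⟩
  · nlinarith
  · have h0 : (0 : ℝ) ≤ ((1400832000000000 * N : ℕ) : ℝ) := by positivity
    have h1 := mul_le_mul_of_nonneg_left hlog h0
    push_cast at h1 ⊢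
    nlinarith
  · have : (N : ℝ) ≠ 0 := by positivity
    field_simp
    norm_num
  · have : (N : ℝ) ≠ 0 := by positivity
    push_cast
    field_simp
    norm_num
  · have : (N : ℝ) ≠ 0 := by positivity
    push_cast
    field_simp
    norm_num
  · have : (N : ℝ) ≠ 0 := by positivity
    push_cast
    have e : 1 / (218880000000 * (N : ℝ)) * (112066560000000 * (N : ℝ) ^ 2) = 512 * N := by
      field_simp
      norm_num
    rw [e]
    nlinarith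
  · have h1 : 112066560000000 * N ^ 2 + 2 * (16 * N) + 1 ≤ 2 ^ ((47 + 4) * L) := by
      apply numerics_pow d L hd hL hdL
      rw [← hN]
      have e : (2 : ℕ) ^ 47 = 140737488355328 := by norm_num
      rw [e]
      omega
    calc 100 * (112066560000000 * N ^ 2 + 2 * (16 * N) + 1) ^ d
        ≤ 2 ^ 7 * (2 ^ ((47 + 4) * L)) ^ d :=
          Nat.mul_le_mul (by norm_num) (Nat.pow_le_pow_left h1 d)
      _ = 2 ^ (7 + 51 * N) := by
          rw [← pow_mul, ← pow_add, hN]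
          congr 1
          ring
      _ ≤ 2 ^ (64 * N) := Nat.pow_le_pow_right (by norm_num) (by omega)
      _ = 4 ^ (2 * (16 * N)) := by
          rw [show (4 : ℕ) = 2 ^ 2 by norm_num, ← pow_mul]
          congr 1
          ring
  · have h1 : 2 ^ 74 * N ^ 2 + 112066560000000 * N ^ 2 + 1 ≤ 2 ^ ((75 + 4) * L) := by
      apply numerics_pow d L hd hL hdL
      rw [← hN]
      have e : (2 : ℕ) ^ 75 = 37778931862957161709568 := by norm_num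
      have e' : (2 : ℕ) ^ 74 = 18889465931478580854784 := by norm_num
      rw [e, e']
      omega
    calc (2 ^ 74 * N ^ 2 + 112066560000000 * N ^ 2 + 1) ^ (20 * d)
        ≤ (2 ^ ((75 + 4) * L)) ^ (20 * d) := Nat.pow_le_pow_left h1 _
      _ = 2 ^ (1580 * N) := by
          rw [← pow_mul, hN]
          congr 1
          ring
      _ < 2 ^ (7 * (226 * N + 1)) := Nat.pow_lt_pow_right (by norm_num) (by omega)
  · have e : d ^ 2 * L ^ 2 = N ^ 2 := by rw [hN]; ring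
    have e1 : (2 : ℕ) ^ 78 = 302231454903657293676544 := by norm_num
    have e' : (2 : ℕ) ^ 74 = 18889465931478580854784 := by norm_num
    rw [e, e1, e']
    omega

/-- LEAF 23 (numerics).  With `L = Nat.log 2 d + 1`: `t = c1 d² L²`, `M = c2 d L`,
`κ = 1/(38400000 M)`, `r = c3 d L`, `τ = c4 d L`, `m = ⌈32 τ/κ⌉`, `w = c5 d L`. -/
theorem numerics : ∃ c0 : ℕ, ∀ d : ℕ, 1 ≤ d → ∃ (t r m τ w k : ℕ) (M κ : ℝ), 1 ≤ r ∧
    100 * (d * Real.log (t + 1) + 1) ≤ M ∧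
    2 * (r : ℝ) + 8000 * (r * (d * Real.log (t + 1))) ≤ t ∧
    0 < κ ∧ 38400000 * κ * M ≤ 1 ∧ 6400 ≤ κ * r ∧
    32 * (τ : ℝ) ≤ κ * m ∧ κ * m ≤ 64 * τ ∧ 100 * (m + 2 * τ + 1) ^ d ≤ 4 ^ (2 * τ) ∧
    (t + m + 1) ^ (20 * d) < 2 ^ (7 * (w + 1)) ∧ t + m + w ≤ k ∧
    13 * k + 4 ≤ c0 * (d ^ 2 * (Nat.log 2 d + 1) ^ 2) := by
  refine ⟨2 ^ 78, fun d hd => ?_⟩
  exact numerics_core d (Nat.log 2 d + 1) hd (Nat.succ_le_succ (Nat.zero_le _))
    (Nat.lt_pow_succ_log_self (by norm_num) d)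

end Pool.Agent.MPaa62e0V
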