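import Pool.Agent.Lib.MP_aa62e0_lcV2.Defs

set_option autoImplicit false
set_option linter.unusedSectionVars false

open Finset
open scoped Classical

namespace Pool.Agent.MPaa62e0V

open Pool.Agent.MPaa62e0T (mass traces Ent IsProb)

variable {α : Type} [Fintype α] [DecidableEq α]

theorem scheme_zero_agree (C : Finset (Finset α)) (h0 : C.vcDim = 0) {A B : Finset α}
    (hA : A ∈ C) (hB : B ∈ C) {x : α} (hx : x ∈ A) : x ∈ B := by
  by_contra hxB
  have hs : C.Shatters {x} := by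
    intro t ht
    rcases Finset.subset_singleton_iff.1 ht with rfl | rfl
    · refine ⟨B, hB, ?_⟩
      rw [Finset.singleton_inter_of_notMem hxB]
    · refine ⟨A, hA, ?_⟩
      rw [Finset.singleton_inter_of_mem hx]
  have h1 := hs.card_le_vcDim
  rw [h0, Finset.card_singleton] at h1
  omega

/-- LEAF 24 (VC dimension 0: all members of `C` agree). -/
theorem scheme_zero (C : Finset (Finset α)) (h0 : C.vcDim = 0) :
    ∃ κ : Finset (α × Bool) → Finset (α × Bool),
      ∃ ρ : Finset (α × Bool) → (α → Bool),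
        ∀ S : Finset (α × Bool),
          (∃ A ∈ C, ∀ p ∈ S, decide (p.1 ∈ A) = p.2) →
            κ S ⊆ S ∧ (κ S).card = 0 ∧ ∀ p ∈ S, ρ (κ S) p.1 = p.2 := by
  refine ⟨fun _ => ∅, fun _ x => decide (∃ A ∈ C, x ∈ A), fun S hS => ?_⟩
  obtain ⟨A, hA, hAS⟩ := hS
  refine ⟨Finset.empty_subset _, Finset.card_empty, fun p hp => ?_⟩
  show decide (∃ A ∈ C, p.1 ∈ A) = p.2
  rw [← hAS p hp]
  refine decide_eq_decide.2 ⟨fun h => ?_, fun h => ⟨A, hA, h⟩⟩
  obtain ⟨B, hB, hxB⟩ := h
  exact scheme_zero_agree C h0 hB hA hxB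

end Pool.Agent.MPaa62e0V
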