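import Pool.Agent.Lib.MP_aa62e0_lcV2.Point
import Pool.Agent.Lib.MP_aa62e0_lcV2.Encode
import Pool.Agent.Lib.MP_aa62e0_lcV2.Numerics
import Pool.Agent.Lib.MP_aa62e0_lcV2.Zero

set_option autoImplicit false
set_option linter.unusedSectionVars false

open Finset
open scoped Classical

namespace Pool.Agent.MPaa62e0V

open Pool.Agent.MPaa62e0T (mass traces Ent IsProb)

variable {α : Type} [Fintype α] [DecidableEq α]

theorem final_vote_congr (ℓ : Finset (Finset α)) (V c c' : Finset α) (x : α)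
    (h : ∀ y ∈ V, (y ∈ c' ↔ y ∈ c)) : vote ℓ V c' x ↔ vote ℓ V c x := by
  have h1 : ∀ g : Finset α, wt V c' g = wt V c g := by
    intro g
    unfold wt
    congr 2
    refine Finset.filter_congr fun y hy => ?_
    rw [h y hy]
  unfold vote
  simp only [h1]

/-- ASSEMBLY 25. -/
theorem final : ∃ c : ℕ, ∀ (X : Type) [Fintype X] [DecidableEq X] (C : Finset (Finset X)),
      ∃ κ : Finset (X × Bool) → Finset (X × Bool),
      ∃ ρ : Finset (X × Bool) → (X → Bool),
        ∀ S : Finset (X × Bool),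
          (∃ A ∈ C, ∀ p ∈ S, decide (p.1 ∈ A) = p.2) →
            κ S ⊆ S ∧ (κ S).card ≤ c * (C.vcDim ^ 2 * (Nat.log 2 C.vcDim + 1) ^ 2) ∧
              ∀ p ∈ S, ρ (κ S) p.1 = p.2 := by
  obtain ⟨c0, hc0⟩ := numerics
  refine ⟨c0, fun X _ _ C => ?_⟩
  by_cases h0 : C.vcDim = 0
  · obtain ⟨κ, ρ, hS⟩ := scheme_zero C h0
    refine ⟨κ, ρ, fun S hA => ?_⟩
    obtain ⟨h1, h2, h3⟩ := hS S hA
    exact ⟨h1, by rw [h2]; exact Nat.zero_le _, h3⟩
  · obtain ⟨t, r, m, τ, w, k, M, κ', hr, hM, ht, hκ, hκM, hκr, hm, hm2, hl, hw, hk, hc⟩ :=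
      hc0 C.vcDim (Nat.one_le_iff_ne_zero.2 h0)
    let idx : Finset X → ℕ := fun F => (Fintype.equivFin (Finset X) F : ℕ)
    let o : X → ℕ := fun x => (Fintype.equivFin X x : ℕ)
    have hidx : ∀ F ∈ C, ∀ G ∈ C, idx F = idx G → F = G := fun F _ G _ h =>
      (Fintype.equivFin (Finset X)).injective (Fin.ext h)
    have ho : Function.Injective o := fun x y h => (Fintype.equivFin X).injective (Fin.ext h)
    obtain ⟨κ, ρ, hS⟩ := encode C k m (by omega)
      (fun T s W pos x => vote (firsts C idx T s τ) (W.filter (fun y => o y < o x)) pos x) (by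
        intro c hcC A hA
        obtain ⟨T, hTA, hTt, s, hs, hsA, W, hWA, hWw, H⟩ := point C idx hidx o ho C.vcDim le_rfl
          c hcC A hA t r m τ w hr M κ' hM ht hκ hκM hκr hm hm2 hl hw
        refine ⟨T, hTA, s, hs, hsA, W, hWA, by omega, fun pos hpos x hxA hxT hxW => ?_⟩
        rw [← H x hxA hxT hxW]
        exact final_vote_congr _ _ _ _ _ fun y hy => hpos y (Finset.mem_filter.1 hy).1)
    refine ⟨κ, ρ, fun S hA => ?_⟩
    obtain ⟨h1, h2, h3⟩ := hS S hA
    exact ⟨h1, h2.trans hc, h3⟩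

end Pool.Agent.MPaa62e0V
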