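import Pool.Agent.Lib.MP_aa62e0_lcV2.Defs
import Pool.Agent.Lib.MP_aa62e0_lcT.TracesCard

set_option autoImplicit false
set_option linter.unusedSectionVars false

open Finset
open scoped Classical

namespace Pool.Agent.MPaa62e0V

open Pool.Agent.MPaa62e0T (mass traces Ent IsProb)

variable {α : Type} [Fintype α] [DecidableEq α]

/-- LEAF 20.  Two members of `firsts` with the same trace on `T ∪ s.toFinset` have `hits = 0`, so equal
`idx`, so they are equal; `traces_card`. -/
theorem firsts_card (C : Finset (Finset α)) (idx : Finset α → ℕ)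
    (hidx : ∀ F ∈ C, ∀ G ∈ C, idx F = idx G → F = G) (d : ℕ) (hd : C.vcDim ≤ d) (T : Finset α)
    (s : Multiset α) (τ : ℕ) :
    (firsts C idx T s τ).card ≤ (T.card + s.card + 1) ^ d := by
  have hkey : ∀ F ∈ firsts C idx T s τ, ∀ G ∈ firsts C idx T s τ,
      F ∩ (T ∪ s.toFinset) = G ∩ (T ∪ s.toFinset) → idx F ≤ idx G := by
    intro F hF G hG hFG
    unfold firsts at hF hG
    rw [Finset.mem_filter] at hF hG
    have hmem : ∀ x ∈ T ∪ s.toFinset, (x ∈ F ↔ x ∈ G) := by
      intro x hx
      have h1 := Finset.ext_iff.1 hFG x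
      rw [Finset.mem_inter, Finset.mem_inter] at h1
      constructor
      · intro h2
        exact (h1.1 ⟨h2, hx⟩).1
      · intro h2
        exact (h1.2 ⟨h2, hx⟩).1
    refine hF.2 G hG.1 ?_ ?_
    · ext x
      rw [Finset.mem_inter, Finset.mem_inter]
      constructor
      · rintro ⟨h1, h2⟩
        exact ⟨(hmem x (Finset.mem_union_left _ h2)).2 h1, h2⟩
      · rintro ⟨h1, h2⟩
        exact ⟨(hmem x (Finset.mem_union_left _ h2)).1 h1, h2⟩
    · have h0 : hits s G F = 0 := by
        unfold hits
        rw [Multiset.countP_eq_zero]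
        intro x hx hne
        exact hne (hmem x (Finset.mem_union_right _ (Multiset.mem_toFinset.2 hx))).symm
      rw [h0]
      exact Nat.zero_le _
  have hinj : Set.InjOn (fun h : Finset α => h ∩ (T ∪ s.toFinset)) (firsts C idx T s τ) := by
    intro F hF G hG hFG
    have hF' : F ∈ firsts C idx T s τ := hF
    have hG' : G ∈ firsts C idx T s τ := hG
    have h1 := hkey F hF' G hG' hFG
    have h2 := hkey G hG' F hF' hFG.symm
    refine hidx F ?_ G ?_ (le_antisymm h1 h2)
    · unfold firsts at hF'
      exact (Finset.mem_filter.1 hF').1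
    · unfold firsts at hG'
      exact (Finset.mem_filter.1 hG').1
  have hmaps : ∀ F ∈ firsts C idx T s τ, F ∩ (T ∪ s.toFinset) ∈ traces C (T ∪ s.toFinset) := by
    intro F hF
    unfold firsts at hF
    unfold traces
    exact Finset.mem_image_of_mem _ (Finset.mem_filter.1 hF).1
  calc (firsts C idx T s τ).card ≤ (traces C (T ∪ s.toFinset)).card :=
        Finset.card_le_card_of_injOn _ hmaps hinj
    _ ≤ ((T ∪ s.toFinset).card + 1) ^ d :=
        Pool.Agent.MPaa62e0T.traces_card C d hd _
    _ ≤ (T.card + s.card + 1) ^ d := by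
        refine Nat.pow_le_pow_left ?_ d
        have h1 := Finset.card_union_le T s.toFinset
        have h2 := Multiset.toFinset_card_le s
        omega

end Pool.Agent.MPaa62e0V
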