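import Pool.Agent.Lib.MP_aa62e0_lcV2.Defs

set_option autoImplicit false
set_option linter.unusedSectionVars false

open Finset
open scoped Classical

namespace Pool.Agent.MPaa62e0V

open Pool.Agent.MPaa62e0T (mass traces Ent IsProb)

variable {α : Type} [Fintype α] [DecidableEq α]

theorem fubini_mass (C : Finset (Finset α)) (q : Finset α → ℝ) (P : Finset α → Prop) :
    mass C q P = ∑ h ∈ C, q h * (if P h then 1 else 0) := by
  unfold mass
  rw [Finset.sum_filter]
  refine Finset.sum_congr rfl fun h _ => ?_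
  split_ifs <;> simp

theorem fubini_pow (p : α → ℝ) (r : ℕ) : ∑ w : Fin r → α, ∏ i, p (w i) = (∑ x, p x) ^ r := by
  have h := Fintype.prod_sum (fun (_ : Fin r) (x : α) => p x)
  rw [← h]
  simp

theorem fubini_ind (p : α → ℝ) (hp1 : ∑ x, p x = 1) (D : Finset α) (r : ℕ) :
    ∑ w : Fin r → α, (∏ i, p (w i)) * (if ∃ i, w i ∈ D then (1 : ℝ) else 0) =
      1 - (1 - ms p D) ^ r := by
  have h1 : ∀ w : Fin r → α, (∏ i, p (w i)) * (if ∃ i, w i ∈ D then (1 : ℝ) else 0) =
      ∏ i, p (w i) - ∏ i, (if w i ∈ D then 0 else p (w i)) := by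
    intro w
    split_ifs with h
    · obtain ⟨i, hi⟩ := h
      have h2 : ∏ i, (if w i ∈ D then 0 else p (w i)) = 0 :=
        Finset.prod_eq_zero (Finset.mem_univ i) (if_pos hi)
      rw [h2]
      ring
    · have h2 : ∏ i, (if w i ∈ D then 0 else p (w i)) = ∏ i, p (w i) :=
        Finset.prod_congr rfl fun i _ => if_neg fun hi => h ⟨i, hi⟩
      rw [h2]
      ring
  rw [Finset.sum_congr rfl fun w _ => h1 w, Finset.sum_sub_distrib, fubini_pow, hp1, one_pow,
    fubini_pow (fun x => if x ∈ D then 0 else p x)]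
  congr 2
  have h3 : ∀ x, (if x ∈ D then 0 else p x) = p x - (if x ∈ D then p x else 0) := by
    intro x
    split_ifs <;> ring
  rw [Finset.sum_congr rfl fun x _ => h3 x, Finset.sum_sub_distrib, hp1]
  unfold ms
  rw [Finset.sum_ite_mem, Finset.univ_inter]

/-- LEAF 6.  `∑_{w : Fin r → α} (∏ p (w i)) * mass (h differs from z (h ∩ T) on the image of w) ≤ E`
(only `w` with values in `B` count).  Exchange the sums: a member `h` with
`x = ms p (symmDiff h (z (h ∩ T))) > θ` is counted with weight `1 - (1-x)^r ≥ 1 - (1-θ)^r ≥ 1/2`, since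
`(1-θ)^r ≤ exp (-θ r) ≤ exp (-1) ≤ 1/2`. -/
theorem fubini_rig (C : Finset (Finset α)) (q : Finset α → ℝ) (hq : ∀ h, 0 ≤ q h)
    (T B : Finset α) (z : Finset α → Finset α) (r : ℕ) (E : ℝ)
    (hE : ∀ R ⊆ B, R.card ≤ r →
      mass C q (fun h => ∃ u ∈ R, ¬ (u ∈ h ↔ u ∈ z (h ∩ T))) ≤ E)
    (p : α → ℝ) (hp : Meas B p) (θ : ℝ) (hθ : 1 ≤ θ * r) :
    mass C q (fun h => θ < ms p (symmDiff h (z (h ∩ T)))) ≤ 2 * E := by
  obtain ⟨hp0, hp1, hpB⟩ := hp
  -- the averaged inequality
  have h1 : ∑ w : Fin r → α, (∏ i, p (w i)) *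
      mass C q (fun h => ∃ i, w i ∈ symmDiff h (z (h ∩ T))) ≤ E := by
    have h2 : ∀ w : Fin r → α, (∏ i, p (w i)) *
        mass C q (fun h => ∃ i, w i ∈ symmDiff h (z (h ∩ T))) ≤ (∏ i, p (w i)) * E := by
      intro w
      by_cases hw : ∀ i, w i ∈ B
      · refine mul_le_mul_of_nonneg_left ?_ (Finset.prod_nonneg fun i _ => hp0 _)
        refine le_trans (le_of_eq ?_) (hE (Finset.univ.image w) ?_ ?_)
        · refine Pool.Agent.MPaa62e0T.mass_congr fun h _ => ?_
          constructor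
          · rintro ⟨i, hi⟩
            refine ⟨w i, Finset.mem_image_of_mem _ (Finset.mem_univ _), ?_⟩
            rw [Finset.mem_symmDiff] at hi
            tauto
          · rintro ⟨u, hu, hu2⟩
            obtain ⟨i, -, rfl⟩ := Finset.mem_image.1 hu
            refine ⟨i, ?_⟩
            rw [Finset.mem_symmDiff]
            tauto
        · intro u hu
          obtain ⟨i, -, rfl⟩ := Finset.mem_image.1 hu
          exact hw i
        · refine Finset.card_image_le.trans ?_
          simp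
      · push Not at hw
        obtain ⟨i, hi⟩ := hw
        have h3 : ∏ i, p (w i) = 0 := Finset.prod_eq_zero (Finset.mem_univ i) (hpB _ hi)
        rw [h3]
        simp
    refine (Finset.sum_le_sum fun w _ => h2 w).trans ?_
    rw [← Finset.sum_mul, fubini_pow, hp1, one_pow, one_mul]
  -- exchange
  have h2 : ∑ w : Fin r → α, (∏ i, p (w i)) *
      mass C q (fun h => ∃ i, w i ∈ symmDiff h (z (h ∩ T))) =
      ∑ h ∈ C, q h * (1 - (1 - ms p (symmDiff h (z (h ∩ T)))) ^ r) := by
    have h3 : ∀ w : Fin r → α, (∏ i, p (w i)) *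
        mass C q (fun h => ∃ i, w i ∈ symmDiff h (z (h ∩ T))) =
        ∑ h ∈ C, q h * ((∏ i, p (w i)) *
          (if ∃ i, w i ∈ symmDiff h (z (h ∩ T)) then (1 : ℝ) else 0)) := by
      intro w
      rw [fubini_mass, Finset.mul_sum]
      refine Finset.sum_congr rfl fun h _ => ?_
      rw [mul_left_comm]
      congr 3
    rw [Finset.sum_congr rfl fun w _ => h3 w, Finset.sum_comm]
    refine Finset.sum_congr rfl fun h _ => ?_
    rw [← Finset.mul_sum, fubini_ind p hp1]
  rw [h2] at h1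
  -- the bound of each term
  have hx : ∀ D : Finset α, 0 ≤ ms p D ∧ ms p D ≤ 1 := by
    intro D
    refine ⟨Finset.sum_nonneg fun x _ => hp0 x, ?_⟩
    rw [← hp1]
    exact Finset.sum_le_sum_of_subset_of_nonneg (Finset.subset_univ _) fun x _ _ => hp0 x
  have h3 : mass C q (fun h => θ < ms p (symmDiff h (z (h ∩ T)))) * (1 / 2) ≤
      ∑ h ∈ C, q h * (1 - (1 - ms p (symmDiff h (z (h ∩ T)))) ^ r) := by
    rw [fubini_mass, Finset.sum_mul]
    refine Finset.sum_le_sum fun h _ => ?_
    obtain ⟨hx0, hx1⟩ := hx (symmDiff h (z (h ∩ T)))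
    rw [mul_assoc]
    refine mul_le_mul_of_nonneg_left ?_ (hq h)
    split_ifs with hh
    · have h4 : 1 - ms p (symmDiff h (z (h ∩ T))) ≤ Real.exp (-θ) := by
        have := Real.add_one_le_exp (-θ)
        linarith
      have h5 : (1 - ms p (symmDiff h (z (h ∩ T)))) ^ r ≤ Real.exp (-θ) ^ r :=
        pow_le_pow_left₀ (by linarith) h4 r
      have h6 : Real.exp (-θ) ^ r ≤ Real.exp (-1) := by
        rw [← Real.exp_nat_mul]
        refine Real.exp_le_exp.2 ?_
        linarith
      have h7 := Real.exp_neg_one_lt_d9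
      norm_num at h7 ⊢
      linarith
    · have h4 : (1 - ms p (symmDiff h (z (h ∩ T)))) ^ r ≤ 1 :=
        pow_le_one₀ (by linarith) (by linarith)
      linarith
  linarith

end Pool.Agent.MPaa62e0V
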