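import Pool.Agent.Lib.MP_aa62e0_lcV2.Defs
import Pool.Agent.Lib.MP_aa62e0_lc.Minimax

set_option autoImplicit false
set_option linter.unusedSectionVars false

open Finset
open scoped Classical

namespace Pool.Agent.MPaa62e0V

open Pool.Agent.MPaa62e0T (mass traces Ent IsProb)

variable {α : Type} [Fintype α] [DecidableEq α]

/-- LEAF 8 (finite minimax, from `Pool.Agent.MPaa62e0.minimax` with the standard simplex of `Λ → ℝ`,
payoff `-a`, `s = -v`, `s' = -v'`). -/
theorem game {Λ ι : Type} [Fintype Λ] [Fintype ι] [Nonempty Λ] (a : Λ → ι → ℝ) (v v' : ℝ)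
    (hv : v < v')
    (h : ∀ μ : ι → ℝ, (∀ i, 0 ≤ μ i) → ∑ i, μ i = 1 → ∃ l, ∑ i, μ i * a l i ≤ v) :
    ∃ m : Λ → ℝ, (∀ l, 0 ≤ m l) ∧ ∑ l, m l = 1 ∧ ∀ i, ∑ l, m l * a l i ≤ v' := by
  classical
  let u : (Λ → ℝ) →ₗ[ℝ] (ι → ℝ) :=
    { toFun := fun m i => -∑ l, m l * a l i
      map_add' := by
        intro x y
        ext i
        simp only [Pi.add_apply, add_mul, Finset.sum_add_distrib]
        ring
      map_smul' := by
        intro c x
        ext i
        simp only [Pi.smul_apply, smul_eq_mul, RingHom.id_apply, mul_assoc, ← Finset.mul_sum]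
        ring }
  have hu : ∀ (m : Λ → ℝ) (i : ι), u m i = -∑ l, m l * a l i := fun _ _ => rfl
  have hsingle : ∀ (l : Λ) (i : ι), u (Pi.single l 1) i = - a l i := by
    intro l i
    rw [hu, Finset.sum_eq_single l]
    · simp
    · intro b _ hb
      simp [Pi.single_eq_of_ne hb]
    · intro h0
      exact absurd (Finset.mem_univ l) h0
  have hmem : ∀ l : Λ, (Pi.single l (1 : ℝ) : Λ → ℝ) ∈ stdSimplex ℝ Λ := fun l =>
    single_mem_stdSimplex ℝ l
  obtain ⟨m, hm, hmi⟩ := Pool.Agent.MPaa62e0.minimax (stdSimplex ℝ Λ) (convex_stdSimplex ℝ Λ) u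
    (-v) (by
      intro q hq
      rcases (Finset.sum_nonneg fun i (_ : i ∈ Finset.univ) => hq i).eq_or_lt with h0 | h0
      · obtain ⟨l⟩ := (inferInstance : Nonempty Λ)
        refine ⟨Pi.single l 1, hmem l, ?_⟩
        have hz : ∀ i, q i = 0 := fun i =>
          (Finset.sum_eq_zero_iff_of_nonneg (fun i _ => hq i)).1 h0.symm i (Finset.mem_univ i)
        simp [hz]
      · obtain ⟨l, hl⟩ := h (fun i => q i / ∑ j, q j) (fun i => div_nonneg (hq i) h0.le) (by
          rw [← Finset.sum_div]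
          exact div_self h0.ne')
        refine ⟨Pi.single l 1, hmem l, ?_⟩
        have h1 : ∑ i, q i / (∑ j, q j) * a l i = (∑ i, q i * a l i) / ∑ j, q j := by
          rw [Finset.sum_div]
          exact Finset.sum_congr rfl fun i _ => by ring
        rw [h1, div_le_iff₀ h0] at hl
        have h2 : ∑ i, q i * u (Pi.single l 1) i = -∑ i, q i * a l i := by
          rw [← Finset.sum_neg_distrib]
          exact Finset.sum_congr rfl fun i _ => by rw [hsingle]; ring
        rw [h2]
        linarith) (-v') (by linarith)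
  refine ⟨m, hm.1, hm.2, fun i => ?_⟩
  have h3 := hmi i
  rw [hu] at h3
  linarith

end Pool.Agent.MPaa62e0V
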