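import Pool.Agent.Lib.MP_aa62e0_lcV2.Game
import Pool.Agent.Lib.MP_aa62e0_lcT.UnionSample

set_option autoImplicit false
set_option linter.unusedSectionVars false

open Finset
open scoped Classical

namespace Pool.Agent.MPaa62e0V

open Pool.Agent.MPaa62e0T (mass traces Ent IsProb)

variable {α : Type} [Fintype α] [DecidableEq α]

/-- A point with a value at most the mean. -/
theorem lottery_pick {ι : Type} [Fintype ι] (W X : ι → ℝ) (hW : ∀ i, 0 ≤ W i)
    (hW1 : ∑ i, W i = 1) (c : ℝ) (h : ∑ i, W i * X i ≤ c) : ∃ i, X i ≤ c := by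
  by_contra hcon
  push Not at hcon
  have h1 : ∑ i, W i * c < ∑ i, W i * X i := by
    obtain ⟨j, hj⟩ : ∃ j, 0 < W j := by
      by_contra hc
      push Not at hc
      have : ∑ i, W i ≤ 0 := Finset.sum_nonpos fun i _ => hc i
      linarith
    refine Finset.sum_lt_sum (fun i _ => ?_) ⟨j, Finset.mem_univ j, ?_⟩
    · exact mul_le_mul_of_nonneg_left (hcon i).le (hW i)
    · exact mul_lt_mul_of_pos_left (hcon j) hj
  rw [← Finset.sum_mul, hW1, one_mul] at h1
  linarith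

/-- `K` independent candidates are all beaten by one more candidate with probability at most
`1 / (K + 1)`. -/
theorem lottery_max {P : Type} [Fintype P] (μ : P → ℝ) (hμ : ∀ p, 0 ≤ μ p) (hμ1 : ∑ p, μ p = 1)
    (K : ℕ) (g : P → ℕ) :
    ∑ c : Fin K → P, (∏ i, μ (c i)) * ∑ p, μ p * (if ∀ i, g (c i) < g p then 1 else 0)
      ≤ 1 / (K + 1) := by
  refine le_trans (le_of_eq ?_) (Pool.Agent.MPaa62e0T.union_sample_max μ hμ hμ1 K g)
  rw [← (Fin.consEquiv (fun _ : Fin (K + 1) => P)).sum_comp, Fintype.sum_prod_type,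
    Finset.sum_comm]
  refine Finset.sum_congr rfl fun c _ => ?_
  rw [Finset.mul_sum]
  refine Finset.sum_congr rfl fun p _ => ?_
  have h1 : ∀ j, (Fin.consEquiv (fun _ : Fin (K + 1) => P)) (p, c) j =
      (Fin.cons p c : Fin (K + 1) → P) j := fun _ => rfl
  simp only [h1]
  rw [Fin.prod_univ_succ]
  have h2 : (∀ j : Fin (K + 1), j ≠ 0 → g ((Fin.cons p c : Fin (K + 1) → P) j) <
      g ((Fin.cons p c : Fin (K + 1) → P) 0)) ↔ ∀ i, g (c i) < g p := by
    rw [Fin.forall_fin_succ]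
    simp only [Fin.cons_zero, Fin.cons_succ]
    constructor
    · intro h i
      exact h.2 i (Fin.succ_ne_zero i)
    · intro h
      exact ⟨fun h0 => absurd rfl h0, fun i _ => h i⟩
  simp only [Fin.cons_zero, Fin.cons_succ] at h2 ⊢
  by_cases h3 : ∀ i, g (c i) < g p
  · rw [if_pos h3, if_pos (h2.2 h3)]
    ring
  · rw [if_neg h3, if_neg (fun h4 => h3 (h2.1 h4))]
    ring

/-- LEAF 9 (stable lottery).  By `game` it is enough to answer a probability `μ` on `P` by one tuple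
`c : Fin K → P` with `∑_p μ p * ν(ω : ∀ i, f (c i) ω < f p ω) ≤ 1/(K+1) < 2/(K+1)`: average over `c`
with weights `∏ μ (c i)`; for fixed `ω` the chance that the last of `K+1` independent candidates is the
strict maximum is at most `1/(K+1)` (`union_sample_max` of lcT/UnionSample, `Fin.cons`). -/
theorem lottery {Ω P : Type} [Fintype P] [Nonempty P] (Ωs : Finset Ω) (ν : Ω → ℝ)
    (hν : ∀ ω, 0 ≤ ν ω) (hν1 : ∑ ω ∈ Ωs, ν ω ≤ 1) (f : P → Ω → ℕ) (K : ℕ) :
    ∃ Λ : (Fin K → P) → ℝ, (∀ c, 0 ≤ Λ c) ∧ ∑ c, Λ c = 1 ∧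
      ∀ p : P, ∑ c, Λ c * ∑ ω ∈ Ωs.filter (fun ω => ∀ i, f (c i) ω < f p ω), ν ω
        ≤ 2 / (K + 1) := by
  have hK : (0 : ℝ) < K + 1 := by positivity
  refine game (fun (c : Fin K → P) (p : P) =>
    ∑ ω ∈ Ωs.filter (fun ω => ∀ i, f (c i) ω < f p ω), ν ω) (1 / (K + 1)) (2 / (K + 1))
    (div_lt_div_of_pos_right (by norm_num) hK) ?_
  intro μ hμ hμ1
  refine lottery_pick (fun c : Fin K → P => ∏ i, μ (c i)) _
    (fun c => Finset.prod_nonneg fun i _ => hμ _)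
    (Pool.Agent.MPaa62e0T.union_sample_tot μ hμ1 K) _ ?_
  have h1 : ∀ (c : Fin K → P) (p : P),
      ∑ ω ∈ Ωs.filter (fun ω => ∀ i, f (c i) ω < f p ω), ν ω =
      ∑ ω ∈ Ωs, ν ω * (if ∀ i, f (c i) ω < f p ω then 1 else 0) := by
    intro c p
    rw [Finset.sum_filter]
    refine Finset.sum_congr rfl fun ω _ => ?_
    split_ifs <;> ring
  have h2 : ∑ c : Fin K → P, (∏ i, μ (c i)) *
      ∑ p, μ p * ∑ ω ∈ Ωs.filter (fun ω => ∀ i, f (c i) ω < f p ω), ν ω =
      ∑ ω ∈ Ωs, ν ω * ∑ c : Fin K → P, (∏ i, μ (c i)) *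
        ∑ p, μ p * (if ∀ i, f (c i) ω < f p ω then 1 else 0) := by
    simp only [h1, Finset.mul_sum]
    rw [Finset.sum_congr rfl fun c _ => Finset.sum_comm, Finset.sum_comm]
    refine Finset.sum_congr rfl fun ω _ => ?_
    refine Finset.sum_congr rfl fun c _ => ?_
    refine Finset.sum_congr rfl fun p _ => ?_
    ring
  rw [h2]
  calc ∑ ω ∈ Ωs, ν ω * ∑ c : Fin K → P, (∏ i, μ (c i)) *
        ∑ p, μ p * (if ∀ i, f (c i) ω < f p ω then 1 else 0)
      ≤ ∑ ω ∈ Ωs, ν ω * (1 / (K + 1)) := by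
        refine Finset.sum_le_sum fun ω _ => mul_le_mul_of_nonneg_left ?_ (hν ω)
        exact lottery_max μ hμ hμ1 K (fun p => f p ω)
    _ = (∑ ω ∈ Ωs, ν ω) * (1 / (K + 1)) := by rw [Finset.sum_mul]
    _ ≤ 1 * (1 / (K + 1)) := mul_le_mul_of_nonneg_right hν1 (by positivity)
    _ = 1 / (K + 1) := one_mul _

end Pool.Agent.MPaa62e0V
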