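import Pool.Agent.Lib.MP_aa62e0_lcV2.Defs

set_option autoImplicit false
set_option linter.unusedSectionVars false

open Finset
open scoped Classical

namespace Pool.Agent.MPaa62e0V

open Pool.Agent.MPaa62e0T (mass traces Ent IsProb)

variable {α : Type} [Fintype α] [DecidableEq α]

/-- LEAF 1 (mode inequality).  If the sum `a` is positive,
`∑ f log (a / f) ≥ ∑ f log (a / b) = a log (a / b) ≥ a - b` (`log x ≥ 1 - 1/x`); note
`∑ negMulLog f - negMulLog a = ∑ f (log a - log f)`. -/
theorem mode_le {ι : Type} (s : Finset ι) (f : ι → ℝ) (hf : ∀ i ∈ s, 0 ≤ f i) (b : ℝ)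
    (hb0 : 0 ≤ b) (hb : ∀ i ∈ s, f i ≤ b) :
    ∑ i ∈ s, f i - b ≤ ∑ i ∈ s, Real.negMulLog (f i) - Real.negMulLog (∑ i ∈ s, f i) := by
  rcases (Finset.sum_nonneg hf).eq_or_lt with h0 | hpos
  · have hz : ∀ i ∈ s, f i = 0 := (Finset.sum_eq_zero_iff_of_nonneg hf).1 h0.symm
    have h1 : ∑ i ∈ s, Real.negMulLog (f i) = 0 := by
      refine Finset.sum_eq_zero fun i hi => ?_
      rw [hz i hi, Real.negMulLog_zero]
    rw [h1, ← h0, Real.negMulLog_zero]
    linarith
  · set a : ℝ := ∑ i ∈ s, f i with ha
    have hbpos : 0 < b := by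
      by_contra hb1
      have hb2 : b = 0 := le_antisymm (not_lt.1 hb1) hb0
      have h1 : a ≤ 0 := by
        rw [ha]
        refine Finset.sum_nonpos fun i hi => ?_
        rw [← hb2]
        exact hb i hi
      linarith
    have h1 : ∑ i ∈ s, f i * (Real.log a - Real.log b) ≤
        ∑ i ∈ s, (Real.negMulLog (f i) + f i * Real.log a) := by
      refine Finset.sum_le_sum fun i hi => ?_
      rcases (hf i hi).eq_or_lt with h2 | h2
      · rw [← h2, Real.negMulLog_zero]
        simp
      · have h3 : Real.log (f i) ≤ Real.log b := Real.log_le_log h2 (hb i hi)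
        have h4 : f i * Real.log (f i) ≤ f i * Real.log b :=
          mul_le_mul_of_nonneg_left h3 h2.le
        rw [Real.negMulLog]
        linarith
    rw [← Finset.sum_mul, Finset.sum_add_distrib, ← Finset.sum_mul, ← ha] at h1
    have h5 : Real.log (b / a) ≤ b / a - 1 := Real.log_le_sub_one_of_pos (div_pos hbpos hpos)
    rw [Real.log_div hbpos.ne' hpos.ne'] at h5
    have h6 : a * (Real.log b - Real.log a) ≤ a * (b / a - 1) :=
      mul_le_mul_of_nonneg_left h5 hpos.le
    have h7 : a * (b / a - 1) = b - a := by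
      field_simp
    rw [h7] at h6
    have h8 : Real.negMulLog a = -a * Real.log a := rfl
    rw [h8]
    linarith

end Pool.Agent.MPaa62e0V
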