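import Pool.Agent.Lib.MP_aa62e0_lcV2.Defs

set_option autoImplicit false
set_option linter.unusedSectionVars false

open Finset
open scoped Classical

namespace Pool.Agent.MPaa62e0V

open Pool.Agent.MPaa62e0T (mass traces Ent IsProb)

variable {α : Type} [Fintype α] [DecidableEq α]

private theorem wmaj_wt_insert (W c h : Finset α) (a : α) (ha : a ∉ W) :
    wt (insert a W) c h = if (a ∈ h ↔ a ∈ c) then wt W c h else (1 / 2) * wt W c h := by
  unfold wt
  rw [Finset.filter_insert]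
  by_cases h1 : (a ∈ h ↔ a ∈ c)
  · rw [if_neg (not_not.mpr h1), if_pos h1]
  · rw [if_pos h1, if_neg h1, Finset.card_insert_of_notMem, pow_succ]
    · ring
    · intro h2
      exact ha (Finset.mem_filter.mp h2).1

private theorem wmaj_wt_pos (W c h : Finset α) : 0 < wt W c h := by
  unfold wt
  positivity

private theorem wmaj_step (ℓ : Finset (Finset α)) (W c : Finset α) (a : α) (ha : a ∉ W)
    (hv : ¬ (vote ℓ W c a ↔ a ∈ c)) :
    ∑ h ∈ ℓ, wt (insert a W) c h ≤ 3 / 4 * ∑ h ∈ ℓ, wt W c h := by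
  have e1 : ∑ h ∈ ℓ, wt (insert a W) c h
      = ∑ h ∈ ℓ.filter (fun h => (a ∈ h ↔ a ∈ c)), wt W c h
        + (1 / 2) * ∑ h ∈ ℓ.filter (fun h => ¬ (a ∈ h ↔ a ∈ c)), wt W c h := by
    rw [← Finset.sum_filter_add_sum_filter_not ℓ (fun h => (a ∈ h ↔ a ∈ c)), Finset.mul_sum]
    congr 1
    · refine Finset.sum_congr rfl ?_
      intro h hh
      rw [wmaj_wt_insert W c h a ha, if_pos (Finset.mem_filter.mp hh).2]
    · refine Finset.sum_congr rfl ?_
      intro h hh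
      rw [wmaj_wt_insert W c h a ha, if_neg (Finset.mem_filter.mp hh).2]
  have e2 : ∑ h ∈ ℓ, wt W c h
      = ∑ h ∈ ℓ.filter (fun h => (a ∈ h ↔ a ∈ c)), wt W c h
        + ∑ h ∈ ℓ.filter (fun h => ¬ (a ∈ h ↔ a ∈ c)), wt W c h :=
    (Finset.sum_filter_add_sum_filter_not ℓ (fun h => (a ∈ h ↔ a ∈ c)) _).symm
  have e3 : ∑ h ∈ ℓ.filter (fun h => (a ∈ h ↔ a ∈ c)), wt W c h
      ≤ ∑ h ∈ ℓ.filter (fun h => ¬ (a ∈ h ↔ a ∈ c)), wt W c h := by
    by_cases hc : a ∈ c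
    · have h1 : ¬ vote ℓ W c a := fun h2 => hv ⟨fun _ => hc, fun _ => h2⟩
      unfold vote at h1
      rw [not_lt] at h1
      have f1 : ℓ.filter (fun h => (a ∈ h ↔ a ∈ c)) = ℓ.filter (fun h => a ∈ h) := by
        refine Finset.filter_congr ?_
        intro h _
        simp [hc]
      have f2 : ℓ.filter (fun h => ¬ (a ∈ h ↔ a ∈ c)) = ℓ.filter (fun h => a ∉ h) := by
        refine Finset.filter_congr ?_
        intro h _
        simp [hc]
      rw [f1, f2]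
      exact h1
    · have h1 : vote ℓ W c a := by
        by_contra h2
        exact hv ⟨fun h3 => absurd h3 h2, fun h3 => absurd h3 hc⟩
      unfold vote at h1
      have f1 : ℓ.filter (fun h => (a ∈ h ↔ a ∈ c)) = ℓ.filter (fun h => a ∉ h) := by
        refine Finset.filter_congr ?_
        intro h _
        simp [hc]
      have f2 : ℓ.filter (fun h => ¬ (a ∈ h ↔ a ∈ c)) = ℓ.filter (fun h => a ∈ h) := by
        refine Finset.filter_congr ?_
        intro h _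
        simp [hc]
      rw [f1, f2]
      exact le_of_lt h1
  rw [e1, e2]
  linarith

private theorem wmaj_build (o : α → ℕ) (ho : Function.Injective o) (ℓ : Finset (Finset α))
    (c A : Finset α) :
    ∃ W ⊆ A, ∑ h ∈ ℓ, wt W c h ≤ (3 / 4) ^ W.card * (ℓ.card : ℝ) ∧
      ∀ x ∈ A, x ∉ W → (vote ℓ (W.filter (fun y => o y < o x)) c x ↔ x ∈ c) := by
  refine Finset.induction_on_max_value o A ?_ ?_
  · refine ⟨∅, Finset.Subset.refl _, ?_, ?_⟩
    · simp [wt]
    · intro x hx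
      exact absurd hx (Finset.notMem_empty x)
  · intro a s ha hmax ih
    obtain ⟨W, hW, hb, hv⟩ := ih
    have haW : a ∉ W := fun h => ha (hW h)
    have hf : W.filter (fun y => o y < o a) = W := by
      refine Finset.filter_true_of_mem ?_
      intro y hy
      refine lt_of_le_of_ne (hmax y (hW hy)) ?_
      intro h
      exact haW (ho h ▸ hy)
    by_cases hva : (vote ℓ W c a ↔ a ∈ c)
    · refine ⟨W, hW.trans (Finset.subset_insert a s), hb, ?_⟩
      intro x hx hxW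
      rcases Finset.mem_insert.mp hx with h1 | h1
      · subst h1
        rw [hf]
        exact hva
      · exact hv x h1 hxW
    · refine ⟨insert a W, Finset.insert_subset_insert a hW, ?_, ?_⟩
      · rw [Finset.card_insert_of_notMem haW, pow_succ]
        have h1 := wmaj_step ℓ W c a haW hva
        nlinarith [h1, hb]
      · intro x hx hxW
        rw [Finset.mem_insert, not_or] at hxW
        have hxs : x ∈ s := by
          rcases Finset.mem_insert.mp hx with h1 | h1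
          · exact absurd h1 hxW.1
          · exact h1
        have h2 : (insert a W).filter (fun y => o y < o x) = W.filter (fun y => o y < o x) := by
          rw [Finset.filter_insert, if_neg (not_lt.mpr (hmax x hxs))]
        rw [h2]
        exact hv x hxs hxW.2

private theorem wmaj_good (ℓ : Finset (Finset α)) (c A W : Finset α) (hW : W ⊆ A)
    (P : Finset α → ℝ) (hP : ∀ h, 0 ≤ P h) (hP1 : ∑ h ∈ ℓ, P h = 1)
    (herr : ∀ y ∈ A, ∑ h ∈ ℓ.filter (fun h => ¬ (y ∈ h ↔ y ∈ c)), P h ≤ 1 / 20) :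
    ∃ h ∈ ℓ, 20 * (W.filter (fun y => ¬ (y ∈ h ↔ y ∈ c))).card ≤ W.card := by
  by_contra hcon0
  have hcon : ∀ h ∈ ℓ, W.card < 20 * (W.filter (fun y => ¬ (y ∈ h ↔ y ∈ c))).card := by
    intro h hh
    by_contra h9
    exact hcon0 ⟨h, hh, not_lt.mp h9⟩
  have h1 : ∑ h ∈ ℓ, P h * ((W.filter (fun y => ¬ (y ∈ h ↔ y ∈ c))).card : ℝ)
      = ∑ y ∈ W, ∑ h ∈ ℓ.filter (fun h => ¬ (y ∈ h ↔ y ∈ c)), P h := by
    have e1 : ∀ h ∈ ℓ, P h * ((W.filter (fun y => ¬ (y ∈ h ↔ y ∈ c))).card : ℝ)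
        = ∑ y ∈ W, if ¬ (y ∈ h ↔ y ∈ c) then P h else 0 := by
      intro h _
      rw [← Finset.sum_filter, Finset.sum_const, nsmul_eq_mul, mul_comm]
    rw [Finset.sum_congr rfl e1, Finset.sum_comm]
    refine Finset.sum_congr rfl ?_
    intro y _
    rw [Finset.sum_filter]
  have h2 : ∑ y ∈ W, ∑ h ∈ ℓ.filter (fun h => ¬ (y ∈ h ↔ y ∈ c)), P h
      ≤ (W.card : ℝ) * (1 / 20) := by
    have := Finset.sum_le_card_nsmul W
      (fun y => ∑ h ∈ ℓ.filter (fun h => ¬ (y ∈ h ↔ y ∈ c)), P h) (1 / 20)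
      (fun y hy => herr y (hW hy))
    rw [nsmul_eq_mul] at this
    exact this
  have h3 : (W.card : ℝ) * (1 / 20)
      < ∑ h ∈ ℓ, P h * ((W.filter (fun y => ¬ (y ∈ h ↔ y ∈ c))).card : ℝ) := by
    have e2 : (W.card : ℝ) * (1 / 20) = ∑ h ∈ ℓ, P h * ((W.card : ℝ) * (1 / 20)) := by
      rw [← Finset.sum_mul, hP1, one_mul]
    rw [e2]
    have hlt : ∀ h ∈ ℓ, (W.card : ℝ) * (1 / 20)
        < ((W.filter (fun y => ¬ (y ∈ h ↔ y ∈ c))).card : ℝ) := by
      intro h hh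
      have h4 : (W.card : ℝ) < 20 * ((W.filter (fun y => ¬ (y ∈ h ↔ y ∈ c))).card : ℝ) := by
        exact_mod_cast hcon h hh
      linarith
    have hex : ∃ h ∈ ℓ, P h ≠ 0 := by
      by_contra h5
      push Not at h5
      rw [Finset.sum_eq_zero h5] at hP1
      exact zero_ne_one hP1
    obtain ⟨h0, hh0, hp0⟩ := hex
    refine Finset.sum_lt_sum ?_ ⟨h0, hh0, ?_⟩
    · intro h hh
      exact mul_le_mul_of_nonneg_left (le_of_lt (hlt h hh)) (hP h)
    · exact mul_lt_mul_of_pos_left (hlt h0 hh0) (lt_of_le_of_ne (hP h0) (Ne.symm hp0))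
  rw [h1] at h3
  exact absurd h3 (not_lt.mpr h2)

/-- LEAF 19 (weighted majority).  Build `W` along the order `o` (`Finset.induction_on_max_value`): put
`x` in `W` iff the vote after `W ∩ {o < o x}` is wrong at `x`.  Every such step multiplies the total
weight `∑ h ∈ ℓ, wt W c h` by at most `3/4`, so it is at most `(3/4)^|W| |ℓ|` at the end; some `h ∈ ℓ`
has at most `|W|/20` mistakes on `W` (average over `P`), so the total is at least `2^(-|W|/20)`;
`(4/3)^20 ≥ 2^8`. -/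
theorem wmaj (o : α → ℕ) (ho : Function.Injective o) (ℓ : Finset (Finset α)) (c A : Finset α)
    (P : Finset α → ℝ) (hP : ∀ h, 0 ≤ P h) (hP1 : ∑ h ∈ ℓ, P h = 1)
    (herr : ∀ y ∈ A, ∑ h ∈ ℓ.filter (fun h => ¬ (y ∈ h ↔ y ∈ c)), P h ≤ 1 / 20) :
    ∃ W ⊆ A, 2 ^ (7 * W.card) ≤ ℓ.card ^ 20 ∧
      ∀ x ∈ A, x ∉ W → (vote ℓ (W.filter (fun y => o y < o x)) c x ↔ x ∈ c) := by
  obtain ⟨W, hW, hb, hv⟩ := wmaj_build o ho ℓ c A
  refine ⟨W, hW, ?_, hv⟩
  obtain ⟨h, hh, hm⟩ := wmaj_good ℓ c A W hW P hP hP1 herr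
  have h1 : wt W c h ≤ ∑ h ∈ ℓ, wt W c h :=
    Finset.single_le_sum (f := fun h => wt W c h) (fun g _ => le_of_lt (wmaj_wt_pos W c g)) hh
  have h2 : wt W c h ≤ (3 / 4) ^ W.card * (ℓ.card : ℝ) := le_trans h1 hb
  have h3 : (wt W c h) ^ 20 ≤ ((3 / 4) ^ W.card * (ℓ.card : ℝ)) ^ 20 :=
    pow_le_pow_left₀ (le_of_lt (wmaj_wt_pos W c h)) h2 20
  have h4 : ((1 : ℝ) / 2) ^ W.card ≤ (wt W c h) ^ 20 := by
    unfold wt
    rw [← pow_mul]
    refine pow_le_pow_of_le_one (by norm_num) (by norm_num) ?_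
    rw [mul_comm]
    exact hm
  have h5 : ((1 : ℝ) / 2) ^ W.card ≤ (3 / 4) ^ (20 * W.card) * (ℓ.card : ℝ) ^ 20 := by
    refine le_trans h4 (le_trans h3 (le_of_eq ?_))
    rw [mul_pow, ← pow_mul, mul_comm W.card 20]
  have h6 : ((2 : ℝ) ^ 7) ^ W.card ≤ (((1 : ℝ) / 2) * (4 / 3) ^ 20) ^ W.card := by
    refine pow_le_pow_left₀ (by norm_num) ?_ _
    norm_num
  have h7 : (((1 : ℝ) / 2) * (4 / 3) ^ 20) ^ W.card
      = ((1 : ℝ) / 2) ^ W.card * (4 / 3) ^ (20 * W.card) := by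
    rw [mul_pow, ← pow_mul]
  have h8 : ((3 : ℝ) / 4) ^ (20 * W.card) * (4 / 3) ^ (20 * W.card) = 1 := by
    rw [← mul_pow]
    norm_num
  have h9 : ((2 : ℝ) ^ 7) ^ W.card ≤ (ℓ.card : ℝ) ^ 20 := by
    refine le_trans h6 ?_
    rw [h7]
    calc ((1 : ℝ) / 2) ^ W.card * (4 / 3) ^ (20 * W.card)
        ≤ ((3 / 4) ^ (20 * W.card) * (ℓ.card : ℝ) ^ 20) * (4 / 3) ^ (20 * W.card) :=
          mul_le_mul_of_nonneg_right h5 (by positivity)
      _ = ((3 / 4) ^ (20 * W.card) * (4 / 3) ^ (20 * W.card)) * (ℓ.card : ℝ) ^ 20 := by ring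
      _ = (ℓ.card : ℝ) ^ 20 := by rw [h8, one_mul]
  rw [← pow_mul] at h9
  exact_mod_cast h9

end Pool.Agent.MPaa62e0V
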