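import Pool.Agent.Lib.MP_aa62e0_lcV2.Core2
import Pool.Agent.Lib.MP_aa62e0_lcV2.WMaj
import Pool.Agent.Lib.MP_aa62e0_lcV2.Firsts
import Pool.Agent.Lib.MP_aa62e0_lcV2.VcTrans

set_option autoImplicit false
set_option linter.unusedSectionVars false

open Finset
open scoped Classical

namespace Pool.Agent.MPaa62e0V

open Pool.Agent.MPaa62e0T (mass traces Ent IsProb)

variable {α : Type} [Fintype α] [DecidableEq α]

private theorem point_mem_sd (h c : Finset α) (y : α) :
    y ∈ symmDiff h c ↔ ¬ (y ∈ h ↔ y ∈ c) := by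
  rw [Finset.mem_symmDiff]
  by_cases h1 : y ∈ h <;> by_cases h2 : y ∈ c <;> simp [h1, h2]

private theorem point_sd_sd (h c : Finset α) : symmDiff (symmDiff h c) c = h := by
  ext y
  rw [point_mem_sd, point_mem_sd]
  by_cases h1 : y ∈ h <;> by_cases h2 : y ∈ c <;> simp [h1, h2]

private theorem point_inter (F h c T : Finset α) (hF : F ∩ T = h ∩ T) :
    symmDiff F c ∩ T = symmDiff h c ∩ T := by
  ext y
  have h1 : y ∈ F ∩ T ↔ y ∈ h ∩ T := by rw [hF]
  rw [Finset.mem_inter, Finset.mem_inter] at h1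
  rw [Finset.mem_inter, Finset.mem_inter, point_mem_sd, point_mem_sd]
  by_cases h2 : y ∈ T
  · have h3 : (y ∈ F ↔ y ∈ h) := by
      constructor
      · intro h4
        exact (h1.1 ⟨h4, h2⟩).1
      · intro h4
        exact (h1.2 ⟨h4, h2⟩).1
    rw [h3]
  · simp [h2]

private theorem point_hits (s : Multiset α) (F h c : Finset α) :
    hits s (symmDiff F c) (symmDiff h c) = hits s F h := by
  unfold hits
  refine Multiset.countP_congr rfl ?_
  intro y _
  rw [point_mem_sd, point_mem_sd]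
  by_cases h1 : y ∈ F <;> by_cases h2 : y ∈ h <;> by_cases h3 : y ∈ c <;> simp [h1, h2, h3]

/-- ASSEMBLY 21.  Apply `core2` to `C.image (symmDiff · c)` with `idx' h = idx (symmDiff h c)`
(`vc_trans`; `∅` is the image of `c`), carry `P` back to `C` by `h ↦ symmDiff h c`, and use `wmaj` with
`ℓ = firsts C idx T s τ` and the domain `A \ T`; `firsts_card`, `hw` give `|W| ≤ w`. -/
theorem point (C : Finset (Finset α)) (idx : Finset α → ℕ)
    (hidx : ∀ F ∈ C, ∀ G ∈ C, idx F = idx G → F = G) (o : α → ℕ) (ho : Function.Injective o)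
    (d : ℕ) (hd : C.vcDim ≤ d) (c : Finset α) (hc : c ∈ C) (A : Finset α) (hA : A.Nonempty)
    (t r m τ w : ℕ) (hr : 1 ≤ r) (M κ : ℝ)
    (hM : 100 * (d * Real.log (t + 1) + 1) ≤ M)
    (ht : 2 * (r : ℝ) + 8000 * (r * (d * Real.log (t + 1))) ≤ t)
    (hκ : 0 < κ) (hκM : 38400000 * κ * M ≤ 1) (hκr : 6400 ≤ κ * r)
    (hm : 32 * (τ : ℝ) ≤ κ * m) (hm2 : κ * m ≤ 64 * τ)
    (hl : 100 * (m + 2 * τ + 1) ^ d ≤ 4 ^ (2 * τ))
    (hw : (t + m + 1) ^ (20 * d) < 2 ^ (7 * (w + 1))) :
    ∃ T ⊆ A, T.card ≤ t ∧ ∃ s : Multiset α, s.card = m ∧ (∀ x ∈ s, x ∈ A) ∧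
      ∃ W ⊆ A, W.card ≤ w ∧ ∀ x ∈ A, x ∉ T → x ∉ W →
        (vote (firsts C idx T s τ) (W.filter (fun y => o y < o x)) c x ↔ x ∈ c) := by
  have hinj : Function.Injective (fun h : Finset α => symmDiff h c) := by
    intro a b hab
    have h1 : symmDiff (symmDiff a c) c = symmDiff (symmDiff b c) c := by
      have h2 : symmDiff a c = symmDiff b c := hab
      rw [h2]
    rwa [point_sd_sd, point_sd_sd] at h1
  have h0 : (∅ : Finset α) ∈ C.image (fun h => symmDiff h c) := by
    refine Finset.mem_image.2 ⟨c, hc, ?_⟩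
    ext y
    rw [point_mem_sd]
    simp
  have hidx' : ∀ F ∈ C.image (fun h => symmDiff h c), ∀ G ∈ C.image (fun h => symmDiff h c),
      idx (symmDiff F c) = idx (symmDiff G c) → F = G := by
    intro F hF G hG hFG
    obtain ⟨F', hF', rfl⟩ := Finset.mem_image.1 hF
    obtain ⟨G', hG', rfl⟩ := Finset.mem_image.1 hG
    rw [point_sd_sd, point_sd_sd] at hFG
    rw [hidx F' hF' G' hG' hFG]
  obtain ⟨T, hT, hTc, s, hs, hsA, P', hP', hPf, hPm⟩ := core2 (C.image (fun h => symmDiff h c))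
    (fun h => idx (symmDiff h c)) hidx' h0 d (le_trans (vc_trans C c) hd) A hA t r m τ hr M κ hM ht hκ
    hκM hκr hm hm2 hl
  have hfirst : ∀ h ∈ C, P' (symmDiff h c) ≠ 0 → h ∈ firsts C idx T s τ := by
    intro h hh hne
    have h1 := hPf (symmDiff h c) (Finset.mem_image_of_mem _ hh) hne
    unfold firsts at h1 ⊢
    rw [Finset.mem_filter] at h1 ⊢
    refine ⟨hh, fun F hF hFT hFs => ?_⟩
    have h2 := h1.2 (symmDiff F c) (Finset.mem_image_of_mem _ hF) (point_inter F h c T hFT)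
      (by rw [point_hits]; exact hFs)
    simpa only [point_sd_sd] using h2
  have hsub : firsts C idx T s τ ⊆ C := by
    unfold firsts
    exact Finset.filter_subset _ _
  have hsumC : ∑ h ∈ C, P' (symmDiff h c) = 1 := by
    rw [← hP'.2, Finset.sum_image]
    intro a _ b _ hab
    exact hinj hab
  have hP1 : ∑ h ∈ firsts C idx T s τ, P' (symmDiff h c) = 1 := by
    rw [← hsumC]
    refine Finset.sum_subset hsub ?_
    intro h hh hnot
    by_contra hne
    exact hnot (hfirst h hh hne)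
  have herr : ∀ y ∈ A \ T, ∑ h ∈ (firsts C idx T s τ).filter (fun h => ¬ (y ∈ h ↔ y ∈ c)),
      P' (symmDiff h c) ≤ 1 / 20 := by
    intro y hy
    refine le_trans ?_ (hPm y hy)
    unfold mass
    rw [Finset.sum_filter, Finset.sum_filter, Finset.sum_image (fun a _ b _ hab => hinj hab)]
    refine le_trans (Finset.sum_le_sum_of_subset_of_nonneg hsub ?_) (Finset.sum_le_sum ?_)
    · intro h _ _
      split_ifs
      · exact le_refl _
      · exact hP'.1 _
    · intro h _
      by_cases h1 : (y ∈ h ↔ y ∈ c)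
      · rw [if_neg (not_not.mpr h1)]
        split_ifs
        · exact hP'.1 _
        · exact le_refl _
      · rw [if_pos h1, if_pos ((point_mem_sd h c y).2 h1)]
  obtain ⟨W, hW, hWc, hWv⟩ := wmaj o ho (firsts C idx T s τ) c (A \ T)
    (fun h => P' (symmDiff h c)) (fun h => hP'.1 _) hP1 herr
  refine ⟨T, hT, hTc, s, hs, hsA, W, hW.trans Finset.sdiff_subset, ?_, ?_⟩
  · by_contra hcon
    have h1 : w + 1 ≤ W.card := by omega
    have h2 : 2 ^ (7 * (w + 1)) ≤ 2 ^ (7 * W.card) :=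
      Nat.pow_le_pow_right (by norm_num) (Nat.mul_le_mul_left 7 h1)
    have h3 : (firsts C idx T s τ).card ≤ (t + m + 1) ^ d := by
      refine le_trans (firsts_card C idx hidx d hd T s τ) (Nat.pow_le_pow_left ?_ d)
      rw [hs]
      omega
    have h4 : (firsts C idx T s τ).card ^ 20 ≤ (t + m + 1) ^ (20 * d) := by
      refine le_trans (Nat.pow_le_pow_left h3 20) (le_of_eq ?_)
      rw [← pow_mul, mul_comm]
    exact absurd (lt_of_le_of_lt (le_trans h2 (le_trans hWc h4)) hw) (lt_irrefl _)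
  · intro x hx hxT hxW
    exact hWv x (Finset.mem_sdiff.2 ⟨hx, hxT⟩) hxW

end Pool.Agent.MPaa62e0V
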