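import Pool.Agent.Lib.MP_aa62e0_lcT.Net
import Pool.Agent.Lib.MP_aa62e0_lcV2.Defs

set_option autoImplicit false
set_option linter.unusedSectionVars false

open Finset
open scoped Classical

namespace Pool.Agent.MPaa62e0V

open Pool.Agent.MPaa62e0T (mass traces Ent IsProb)

variable {α : Type} [Fintype α] [DecidableEq α]

/-- The tuple `w` has at most `l` samples in some heavy member of `F`. -/
def relnetBad {ι : Type} [Fintype ι] (F : Finset (Finset α)) (D : α → ℝ) (κ : ℝ) (l : ℕ)
    (w : ι → α) : Prop :=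
  ∃ f ∈ F, κ < ∑ x ∈ f, D x ∧ ((Finset.univ : Finset ι).filter (fun i => w i ∈ f)).card ≤ l

/-- The probability of `relnetBad`. -/
noncomputable def relnetP (ι : Type) [Fintype ι] [DecidableEq ι] (F : Finset (Finset α))
    (D : α → ℝ) (κ : ℝ) (l : ℕ) : ℝ :=
  ∑ w : ι → α, (∏ i, D (w i)) * (if relnetBad F D κ l w then 1 else 0)

theorem relnetP_congr {ι ι' : Type} [Fintype ι] [DecidableEq ι] [Fintype ι'] [DecidableEq ι']
    (e : ι ≃ ι') (F : Finset (Finset α)) (D : α → ℝ) (κ : ℝ) (l : ℕ) :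
    relnetP ι F D κ l = relnetP ι' F D κ l := by
  unfold relnetP
  refine Fintype.sum_equiv (Equiv.arrowCongr e (Equiv.refl α)) _ _ ?_
  intro w
  have h1 : ∏ i, D (w i) = ∏ k, D ((Equiv.arrowCongr e (Equiv.refl α)) w k) := by
    refine Fintype.prod_equiv e _ _ ?_
    intro i
    simp [Equiv.arrowCongr]
  have hc : ∀ f : Finset α, ((Finset.univ : Finset ι).filter (fun i => w i ∈ f)).card
      = ((Finset.univ : Finset ι').filter
          (fun k => (Equiv.arrowCongr e (Equiv.refl α)) w k ∈ f)).card := by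
    intro f
    refine Finset.card_bij (fun i _ => e i) ?_ ?_ ?_
    · intro i hi
      rw [Finset.mem_filter] at hi ⊢
      refine ⟨Finset.mem_univ _, ?_⟩
      simpa [Equiv.arrowCongr] using hi.2
    · intro i _ j _ h
      exact e.injective h
    · intro k hk
      refine ⟨e.symm k, ?_, by simp⟩
      rw [Finset.mem_filter] at hk ⊢
      refine ⟨Finset.mem_univ _, ?_⟩
      simpa [Equiv.arrowCongr] using hk.2
  have h2 : relnetBad F D κ l w ↔ relnetBad F D κ l ((Equiv.arrowCongr e (Equiv.refl α)) w) := by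
    unfold relnetBad
    constructor
    · rintro ⟨f, hf, h1, h2⟩
      exact ⟨f, hf, h1, (hc f) ▸ h2⟩
    · rintro ⟨f, hf, h1, h2⟩
      exact ⟨f, hf, h1, (hc f).symm ▸ h2⟩
  rw [← h1]
  by_cases hb : relnetBad F D κ l w
  · rw [if_pos hb, if_pos (h2.1 hb)]
  · rw [if_neg hb, if_neg (fun h => hb (h2.2 h))]

/-- One split of the index set. -/
theorem relnet_split {ι : Type} [Fintype ι] [DecidableEq ι] (F : Finset (Finset α)) (D : α → ℝ)
    (hD : ∀ x, 0 ≤ D x) (κ : ℝ) (hκ : 0 < κ) (I : Finset ι) :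
    relnetP {i : ι // i ∉ I} F D κ I.card * κ ^ I.card
      ≤ ∑ w : ι → α, (∏ i, D (w i)) *
          (if ∃ f ∈ F, I ⊆ (Finset.univ : Finset ι).filter (fun i => w i ∈ f) ∧
            ((Finset.univ : Finset ι).filter (fun i => w i ∈ f)).card ≤ 2 * I.card
            then 1 else 0) := by
  have hprod : ∀ {ι' : Type} [Fintype ι'] (w : ι' → α), 0 ≤ ∏ i, D (w i) := by
    intro ι' _ w
    exact Finset.prod_nonneg fun i _ => hD _
  set e := Equiv.piEquivPiSubtypeProd (fun i => i ∈ I) (fun _ : ι => α) with he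
  rw [← e.symm.sum_comp, Fintype.sum_prod_type, Finset.sum_comm]
  unfold relnetP
  rw [Finset.sum_mul]
  refine Finset.sum_le_sum ?_
  intro v _
  have happ : ∀ u : {i // i ∈ I} → α, ∀ i : ι, ∀ hi : i ∈ I, e.symm (u, v) i = u ⟨i, hi⟩ := by
    intro u i hi
    simp [he, Equiv.piEquivPiSubtypeProd, hi]
  have happ' : ∀ u : {i // i ∈ I} → α, ∀ i : ι, ∀ hi : i ∉ I, e.symm (u, v) i = v ⟨i, hi⟩ := by
    intro u i hi
    simp [he, Equiv.piEquivPiSubtypeProd, hi]
  have hmul : ∀ u : {i // i ∈ I} → α,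
      ∏ i, D (e.symm (u, v) i) = (∏ i, D (u i)) * ∏ i, D (v i) := by
    intro u
    have h := Fintype.prod_subtype_mul_prod_subtype (fun i => i ∈ I)
      (fun i => D (e.symm (u, v) i))
    rw [← h]
    congr 1
    · refine Finset.prod_congr (by ext; simp) ?_
      rintro ⟨i, hi⟩ _
      rw [happ u i hi]
    · refine Finset.prod_congr (by ext; simp) ?_
      rintro ⟨i, hi⟩ _
      rw [happ' u i hi]
  by_cases hb : relnetBad F D κ I.card v
  · rw [if_pos hb]
    obtain ⟨f, hf, hfκ, hfv⟩ := hb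
    have hcard : Fintype.card {i // i ∈ I} = I.card := by simp
    have h1 : κ ^ I.card ≤ ∑ u ∈ Fintype.piFinset (fun _ : {i // i ∈ I} => f), ∏ i, D (u i) := by
      rw [Pool.Agent.MPaa62e0T.net_sum_prod, hcard]
      exact pow_le_pow_left₀ hκ.le hfκ.le _
    have h2 : ∑ u ∈ Fintype.piFinset (fun _ : {i // i ∈ I} => f), (∏ i, D (e.symm (u, v) i)) *
          (if ∃ f ∈ F, I ⊆ (Finset.univ : Finset ι).filter (fun i => e.symm (u, v) i ∈ f) ∧
            ((Finset.univ : Finset ι).filter (fun i => e.symm (u, v) i ∈ f)).card ≤ 2 * I.card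
            then (1 : ℝ) else 0)
        ≤ ∑ u : {i // i ∈ I} → α, (∏ i, D (e.symm (u, v) i)) *
          (if ∃ f ∈ F, I ⊆ (Finset.univ : Finset ι).filter (fun i => e.symm (u, v) i ∈ f) ∧
            ((Finset.univ : Finset ι).filter (fun i => e.symm (u, v) i ∈ f)).card ≤ 2 * I.card
            then (1 : ℝ) else 0) := by
      refine Finset.sum_le_sum_of_subset_of_nonneg (Finset.subset_univ _) ?_
      intro u _ _
      refine mul_nonneg (hprod _) ?_
      split_ifs <;> norm_num
    refine le_trans ?_ h2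
    have h3 : ∑ u ∈ Fintype.piFinset (fun _ : {i // i ∈ I} => f), (∏ i, D (e.symm (u, v) i)) *
          (if ∃ f ∈ F, I ⊆ (Finset.univ : Finset ι).filter (fun i => e.symm (u, v) i ∈ f) ∧
            ((Finset.univ : Finset ι).filter (fun i => e.symm (u, v) i ∈ f)).card ≤ 2 * I.card
            then (1 : ℝ) else 0)
        = ∑ u ∈ Fintype.piFinset (fun _ : {i // i ∈ I} => f), (∏ i, D (u i)) * ∏ i, D (v i) := by
      refine Finset.sum_congr rfl ?_
      intro u hu
      rw [Fintype.mem_piFinset] at hu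
      rw [if_pos, mul_one, hmul]
      refine ⟨f, hf, ?_, ?_⟩
      · intro i hi
        rw [Finset.mem_filter]
        refine ⟨Finset.mem_univ _, ?_⟩
        rw [happ u i hi]
        exact hu _
      · have hsub : (Finset.univ : Finset ι).filter (fun i => e.symm (u, v) i ∈ f)
            ⊆ I ∪ ((Finset.univ : Finset {i : ι // i ∉ I}).filter
                (fun i => v i ∈ f)).image Subtype.val := by
          intro i hi
          rw [Finset.mem_filter] at hi
          by_cases hiI : i ∈ I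
          · exact Finset.mem_union_left _ hiI
          · refine Finset.mem_union_right _ (Finset.mem_image.2 ⟨⟨i, hiI⟩, ?_, rfl⟩)
            rw [Finset.mem_filter]
            refine ⟨Finset.mem_univ _, ?_⟩
            rw [← happ' u i hiI]
            exact hi.2
        calc _ ≤ (I ∪ ((Finset.univ : Finset {i : ι // i ∉ I}).filter
                (fun i => v i ∈ f)).image Subtype.val).card := Finset.card_le_card hsub
          _ ≤ I.card + (((Finset.univ : Finset {i : ι // i ∉ I}).filter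
                (fun i => v i ∈ f)).image Subtype.val).card := Finset.card_union_le _ _
          _ ≤ I.card + I.card := Nat.add_le_add_left (Finset.card_image_le.trans hfv) _
          _ = 2 * I.card := by ring
    rw [h3, ← Finset.sum_mul, mul_one, mul_comm]
    exact mul_le_mul_of_nonneg_right h1 (hprod _)
  · rw [if_neg hb, mul_zero, zero_mul]
    refine Finset.sum_nonneg fun u _ => mul_nonneg (hprod _) ?_
    split_ifs <;> norm_num

/-- The double counting. -/
theorem relnet_count (F : Finset (Finset α)) (d : ℕ) (hF : F.vcDim ≤ d) (D : α → ℝ)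
    (hD : ∀ x, 0 ≤ D x) (hD1 : ∑ x, D x = 1) (κ : ℝ) (hκ : 0 < κ) (m l : ℕ) :
    relnetP (Fin m) F D κ l * κ ^ l * ((m + l).choose l : ℝ)
      ≤ ((m : ℝ) + l + 1) ^ d * 4 ^ l := by
  have h1 : ∀ I ∈ (Finset.univ : Finset (Fin (m + l))).powersetCard l,
      relnetP (Fin m) F D κ l * κ ^ l ≤ ∑ w : Fin (m + l) → α, (∏ i, D (w i)) *
          (if ∃ f ∈ F, I ⊆ (Finset.univ : Finset (Fin (m + l))).filter (fun i => w i ∈ f) ∧
            ((Finset.univ : Finset (Fin (m + l))).filter (fun i => w i ∈ f)).card ≤ 2 * l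
            then 1 else 0) := by
    intro I hI
    have hIc : I.card = l := (Finset.mem_powersetCard.1 hI).2
    have hc : Fintype.card {i : Fin (m + l) // i ∉ I} = Fintype.card (Fin m) := by
      rw [Fintype.card_subtype_compl, Fintype.card_fin, Fintype.card_fin]
      simp [hIc]
    have h := relnet_split F D hD κ hκ I
    rw [relnetP_congr (Fintype.equivOfCardEq hc) F D κ, hIc] at h
    exact h
  have h2 := Finset.card_nsmul_le_sum _ _ _ h1
  rw [Finset.card_powersetCard, Finset.card_univ, Fintype.card_fin, nsmul_eq_mul,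
    Finset.sum_comm] at h2
  have h3 : ∀ w : Fin (m + l) → α,
      ∑ I ∈ (Finset.univ : Finset (Fin (m + l))).powersetCard l, (∏ i, D (w i)) *
          (if ∃ f ∈ F, I ⊆ (Finset.univ : Finset (Fin (m + l))).filter (fun i => w i ∈ f) ∧
            ((Finset.univ : Finset (Fin (m + l))).filter (fun i => w i ∈ f)).card ≤ 2 * l
            then (1 : ℝ) else 0)
        ≤ (∏ i, D (w i)) * (((m : ℝ) + l + 1) ^ d * 4 ^ l) := by
    intro w
    rw [← Finset.mul_sum]
    refine mul_le_mul_of_nonneg_left ?_ (Finset.prod_nonneg fun i _ => hD _)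
    rw [← Finset.sum_filter, Finset.sum_const, nsmul_eq_mul, mul_one]
    have hsub : ((Finset.univ : Finset (Fin (m + l))).powersetCard l).filter
        (fun I => ∃ f ∈ F, I ⊆ (Finset.univ : Finset (Fin (m + l))).filter (fun i => w i ∈ f) ∧
            ((Finset.univ : Finset (Fin (m + l))).filter (fun i => w i ∈ f)).card ≤ 2 * l)
        ⊆ ((F.image (fun f => (Finset.univ : Finset (Fin (m + l))).filter
            (fun i => w i ∈ f))).filter (fun t => t.card ≤ 2 * l)).biUnion
              (fun t => t.powersetCard l) := by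
      intro I hI
      obtain ⟨hI1, f, hf, hfi, hfc⟩ := Finset.mem_filter.1 hI
      refine Finset.mem_biUnion.2 ⟨_, Finset.mem_filter.2
        ⟨Finset.mem_image.2 ⟨f, hf, rfl⟩, hfc⟩, ?_⟩
      exact Finset.mem_powersetCard.2 ⟨hfi, (Finset.mem_powersetCard.1 hI1).2⟩
    have hb : ∀ t ∈ (F.image (fun f => (Finset.univ : Finset (Fin (m + l))).filter
            (fun i => w i ∈ f))).filter (fun t => t.card ≤ 2 * l),
        (t.powersetCard l).card ≤ 4 ^ l := by
      intro t ht
      rw [Finset.card_powersetCard]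
      have ht2 : t.card ≤ 2 * l := (Finset.mem_filter.1 ht).2
      calc t.card.choose l ≤ (2 * l).choose l := Nat.choose_le_choose l ht2
        _ ≤ 2 ^ (2 * l) := Nat.choose_le_two_pow _ _
        _ = 4 ^ l := by rw [pow_mul]; norm_num
    have hc : (((Finset.univ : Finset (Fin (m + l))).powersetCard l).filter
        (fun I => ∃ f ∈ F, I ⊆ (Finset.univ : Finset (Fin (m + l))).filter (fun i => w i ∈ f) ∧
            ((Finset.univ : Finset (Fin (m + l))).filter (fun i => w i ∈ f)).card
              ≤ 2 * l)).card ≤ (m + l + 1) ^ d * 4 ^ l := by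
      calc _ ≤ _ := Finset.card_le_card hsub
        _ ≤ ((F.image (fun f => (Finset.univ : Finset (Fin (m + l))).filter
            (fun i => w i ∈ f))).filter (fun t => t.card ≤ 2 * l)).card * 4 ^ l :=
            Finset.card_biUnion_le_card_mul _ _ _ hb
        _ ≤ (m + l + 1) ^ d * 4 ^ l := by
            refine Nat.mul_le_mul_right _ ((Finset.card_filter_le _ _).trans ?_)
            have := Pool.Agent.MPaa62e0T.net_tuple_traces F d hF w
            rwa [Fintype.card_fin] at this
    calc _ ≤ (((m + l + 1) ^ d * 4 ^ l : ℕ) : ℝ) := by exact_mod_cast hc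
      _ = ((m : ℝ) + l + 1) ^ d * 4 ^ l := by push_cast; ring
  have h4 : ∑ w : Fin (m + l) → α, ∏ i, D (w i) = 1 := by
    have := Pool.Agent.MPaa62e0T.net_sum_prod (ι := Fin (m + l)) D (Finset.univ : Finset α)
    rw [hD1, one_pow, Fintype.piFinset_univ] at this
    exact this
  calc relnetP (Fin m) F D κ l * κ ^ l * ((m + l).choose l : ℝ)
      = ((m + l).choose l : ℝ) * (relnetP (Fin m) F D κ l * κ ^ l) := by ring
    _ ≤ _ := h2
    _ ≤ ∑ w : Fin (m + l) → α, (∏ i, D (w i)) * (((m : ℝ) + l + 1) ^ d * 4 ^ l) :=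
        Finset.sum_le_sum fun w _ => h3 w
    _ = ((m : ℝ) + l + 1) ^ d * 4 ^ l := by rw [← Finset.sum_mul, h4, one_mul]

/-- LEAF 15 (relative net).  As `net_split`/`net_count`/`net_choose` of lcT/Net: extend `w` by `l` samples
in `f`; the trace of `f` on the `m + l` coordinates contains the `l` new positions and has at most `2 l`
elements, so `P(bad) * κ^l * C(m+l, l) ≤ (m+l+1)^d * C(2l, l) ≤ (m+l+1)^d * 4^l`, and
`κ^l * C(m+l, l) ≥ 16^l` since `16 l ≤ κ m`. -/
theorem relnet (F : Finset (Finset α)) (d : ℕ) (hF : F.vcDim ≤ d) (D : α → ℝ)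
    (hD : ∀ x, 0 ≤ D x) (hD1 : ∑ x, D x = 1) (κ : ℝ) (hκ : 0 < κ) (m l : ℕ)
    (hm : 16 * (l : ℝ) ≤ κ * m) (hl : 100 * (m + l + 1) ^ d ≤ 4 ^ l) :
    ∑ w : Fin m → α, (∏ i, D (w i)) * (if ∃ f ∈ F, κ < ∑ x ∈ f, D x ∧
      ((Finset.univ : Finset (Fin m)).filter (fun i => w i ∈ f)).card ≤ l then 1 else 0)
      ≤ 1 / 100 := by
  have hA := relnet_count F d hF D hD hD1 κ hκ m l
  have hB := Pool.Agent.MPaa62e0T.net_choose (κ / 8) (by positivity) m l (by linarith) l le_rfl
  have hP0 : 0 ≤ relnetP (Fin m) F D κ l := by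
    unfold relnetP
    refine Finset.sum_nonneg fun w _ => mul_nonneg (Finset.prod_nonneg fun i _ => hD _) ?_
    split_ifs <;> norm_num
  have hB' : (16 : ℝ) ^ l ≤ κ ^ l * ((m + l).choose l : ℝ) := by
    have h8 : (0 : ℝ) < 8 ^ l := by positivity
    have h1 : (8 : ℝ) ^ l * 2 ^ l ≤ 8 ^ l * ((κ / 8) ^ l * ((m + l).choose l : ℝ)) :=
      mul_le_mul_of_nonneg_left hB h8.le
    have h2 : (8 : ℝ) ^ l * 2 ^ l = 16 ^ l := by
      rw [← mul_pow]; norm_num
    have h3 : (8 : ℝ) ^ l * ((κ / 8) ^ l * ((m + l).choose l : ℝ))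
        = κ ^ l * ((m + l).choose l : ℝ) := by
      rw [← mul_assoc, ← mul_pow]
      congr 2
      ring
    rw [h2, h3] at h1
    exact h1
  have hl' : 100 * ((m : ℝ) + l + 1) ^ d ≤ 4 ^ l := by exact_mod_cast hl
  have h16 : (16 : ℝ) ^ l = 4 ^ l * 4 ^ l := by rw [← mul_pow]; norm_num
  have h4 : (0 : ℝ) < 4 ^ l := by positivity
  have hfin : relnetP (Fin m) F D κ l ≤ 1 / 100 := by
    have h5 : relnetP (Fin m) F D κ l * (4 ^ l * 4 ^ l) ≤ (4 ^ l / 100) * 4 ^ l := by
      calc relnetP (Fin m) F D κ l * (4 ^ l * 4 ^ l)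
          = relnetP (Fin m) F D κ l * 16 ^ l := by rw [h16]
        _ ≤ relnetP (Fin m) F D κ l * (κ ^ l * ((m + l).choose l : ℝ)) :=
            mul_le_mul_of_nonneg_left hB' hP0
        _ = relnetP (Fin m) F D κ l * κ ^ l * ((m + l).choose l : ℝ) := by ring
        _ ≤ ((m : ℝ) + l + 1) ^ d * 4 ^ l := hA
        _ ≤ (4 ^ l / 100) * 4 ^ l := by
            refine mul_le_mul_of_nonneg_right ?_ h4.le
            linarith
    have h6 : (0 : ℝ) < 4 ^ l * 4 ^ l := by positivity
    by_contra hcon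
    push Not at hcon
    nlinarith
  refine le_trans (le_of_eq ?_) hfin
  unfold relnetP relnetBad
  refine Finset.sum_congr rfl fun w _ => ?_
  congr 1
  by_cases hx : ∃ f ∈ F, κ < ∑ x ∈ f, D x ∧
      ((Finset.univ : Finset (Fin m)).filter (fun i => w i ∈ f)).card ≤ l
  · rw [if_pos hx, if_pos hx]
  · rw [if_neg hx, if_neg hx]

end Pool.Agent.MPaa62e0V
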