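import Pool.Agent.Lib.MP_aa62e0_lcV2.EntMode

set_option autoImplicit false
set_option linter.unusedSectionVars false

open Finset
open scoped Classical

namespace Pool.Agent.MPaa62e0V

open Pool.Agent.MPaa62e0T (mass traces Ent IsProb)

variable {α : Type} [Fintype α] [DecidableEq α]

/-- LEAF 4.  Over a trace `s` on `T`: `a` = the common mass of `s`, `x` = the `q`-mass and `y` = the
`q'`-mass of the members over `s` which differ from `z s` somewhere on `R`, `b` = the largest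
`(q+q')/2`-mass of a trace on `T ∪ R` over `s`.  Then `y ≤ x + 2 (a - b)`: if `z s` is not the trace of
a member on `R` then `y = a = x`; if `z s` is the mode then `(x + y)/2 = a - b`; otherwise
`b + (a - x)/2 ≤ b + ((a - x) + (a - y))/2 ≤ a`, so `y ≤ a ≤ x + 2 (a - b)`.  Sum over `s`, `ent_mode`
for `(q+q')/2` (whose entropy on `T` is that of `q`). -/
theorem rig (C : Finset (Finset α)) (q q' : Finset α → ℝ) (hq : IsProb C q) (hq' : IsProb C q')
    (T R : Finset α)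
    (hm : ∀ s, mass C q' (fun h => h ∩ T = s) = mass C q (fun h => h ∩ T = s))
    (z : Finset α → Finset α) (ε : ℝ)
    (h : Ent C (fun h => (q h + q' h) / 2) (T ∪ R) ≤ Ent C q T + ε) :
    mass C q' (fun h => ∃ u ∈ R, ¬ (u ∈ h ↔ u ∈ z (h ∩ T)))
      ≤ mass C q (fun h => ∃ u ∈ R, ¬ (u ∈ h ↔ u ∈ z (h ∩ T))) + 2 * ε := by
  have hq0 : ∀ h, 0 ≤ (q h + q' h) / 2 := fun h => by
    have h1 := hq.1 h
    have h2 := hq'.1 h
    linarith
  have hmass : ∀ P : Finset α → Prop, mass C (fun h => (q h + q' h) / 2) P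
      = (mass C q P + mass C q' P) / 2 := by
    intro P
    unfold mass
    rw [← Finset.sum_add_distrib, Finset.sum_div]
  have hex : ∀ s : Finset α, ∃ b : ℝ, 0 ≤ b ∧
      (∀ h ∈ C, h ∩ T = s → mass C (fun h => (q h + q' h) / 2)
        (fun g => g ∩ (T ∪ R) = h ∩ (T ∪ R)) ≤ b) ∧
      (s ∈ traces C T → ∃ h₀ ∈ C, h₀ ∩ T = s ∧ b = mass C (fun h => (q h + q' h) / 2)
        (fun g => g ∩ (T ∪ R) = h₀ ∩ (T ∪ R))) := by
    intro s
    by_cases hs : s ∈ traces C T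
    · have hne : (C.filter (fun h => h ∩ T = s)).Nonempty := by
        unfold traces at hs
        obtain ⟨h, hh, hhs⟩ := Finset.mem_image.1 hs
        exact ⟨h, Finset.mem_filter.2 ⟨hh, hhs⟩⟩
      obtain ⟨h₀, hh₀, hmax⟩ := Finset.exists_max_image _
        (fun h : Finset α => mass C (fun h => (q h + q' h) / 2)
          (fun g => g ∩ (T ∪ R) = h ∩ (T ∪ R))) hne
      rw [Finset.mem_filter] at hh₀
      exact ⟨_, Pool.Agent.MPaa62e0T.mass_nonneg hq0 _,
        fun h hh hhs => hmax h (Finset.mem_filter.2 ⟨hh, hhs⟩),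
        fun _ => ⟨h₀, hh₀.1, hh₀.2, rfl⟩⟩
    · refine ⟨0, le_refl _, fun h hh hhs => absurd ?_ hs, fun h => absurd h hs⟩
      rw [← hhs]
      exact Finset.mem_image_of_mem _ hh
  choose b hb0 hb1 hb2 using hex
  have hEnt : Ent C (fun h => (q h + q' h) / 2) T = Ent C q T := by
    unfold Ent
    refine Finset.sum_congr rfl fun s _ => ?_
    rw [hmass, hm s]
    congr 1
    ring
  have h1 := ent_mode C (fun h => (q h + q' h) / 2) hq0 T (T ∪ R) Finset.subset_union_left b hb0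
    (fun h hh => hb1 _ h hh rfl)
  rw [hEnt] at h1
  have hpt : ∀ s ∈ traces C T,
      mass C q' (fun h => h ∩ T = s ∧ ∃ u ∈ R, ¬ (u ∈ h ↔ u ∈ z (h ∩ T)))
        ≤ mass C q (fun h => h ∩ T = s ∧ ∃ u ∈ R, ¬ (u ∈ h ↔ u ∈ z (h ∩ T)))
          + 2 * (mass C (fun h => (q h + q' h) / 2) (fun h => h ∩ T = s) - b s) := by
    intro s hs
    obtain ⟨h₀, _, hh₀s, hbs⟩ := hb2 s hs
    have hx0 : 0 ≤ mass C q (fun h => h ∩ T = s ∧ ∃ u ∈ R, ¬ (u ∈ h ↔ u ∈ z (h ∩ T))) :=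
      Pool.Agent.MPaa62e0T.mass_nonneg hq.1 _
    have hsplit := Pool.Agent.MPaa62e0T.mass_split (C := C) (M := q) (fun h => h ∩ T = s)
      (fun h => ∃ u ∈ R, ¬ (u ∈ h ↔ u ∈ z (h ∩ T)))
    have hsplit' := Pool.Agent.MPaa62e0T.mass_split (C := C) (M := q') (fun h => h ∩ T = s)
      (fun h => ∃ u ∈ R, ¬ (u ∈ h ↔ u ∈ z (h ∩ T)))
    have hQT : ∀ g : Finset α, g ∩ (T ∪ R) = h₀ ∩ (T ∪ R) → g ∩ T = s := by
      intro g hg
      have h2 : (g ∩ (T ∪ R)) ∩ T = (h₀ ∩ (T ∪ R)) ∩ T := by rw [hg]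
      rw [Finset.inter_assoc, Finset.inter_assoc,
        Finset.inter_eq_right.2 (Finset.subset_union_left (s₁ := T) (s₂ := R))] at h2
      rw [h2, hh₀s]
    have hQR : ∀ g : Finset α, g ∩ (T ∪ R) = h₀ ∩ (T ∪ R) → ∀ u ∈ R, (u ∈ g ↔ u ∈ h₀) := by
      intro g hg u hu
      have h2 : u ∈ g ∩ (T ∪ R) ↔ u ∈ h₀ ∩ (T ∪ R) := by rw [hg]
      simpa [hu] using h2
    rw [hmass, hm s]
    rw [hmass] at hbs
    rw [hm s] at hsplit'
    by_cases hA : ∀ u ∈ R, (u ∈ h₀ ↔ u ∈ z s)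
    · have hiff : ∀ g : Finset α, g ∩ (T ∪ R) = h₀ ∩ (T ∪ R) ↔
          (g ∩ T = s ∧ ¬ ∃ u ∈ R, ¬ (u ∈ g ↔ u ∈ z (g ∩ T))) := by
        intro g
        constructor
        · intro hg
          refine ⟨hQT g hg, ?_⟩
          rintro ⟨u, hu, hne⟩
          apply hne
          rw [hQT g hg, hQR g hg u hu]
          exact hA u hu
        · rintro ⟨hgT, hg⟩
          ext u
          rw [Finset.mem_inter, Finset.mem_inter, Finset.mem_union]
          constructor
          · rintro ⟨hug, hu | hu⟩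
            · have h3 : u ∈ g ∩ T := Finset.mem_inter.2 ⟨hug, hu⟩
              rw [hgT, ← hh₀s] at h3
              exact ⟨(Finset.mem_inter.1 h3).1, Or.inl hu⟩
            · have h3 : u ∈ g ↔ u ∈ z (g ∩ T) := by
                by_contra hcon
                exact hg ⟨u, hu, hcon⟩
              rw [hgT] at h3
              exact ⟨(hA u hu).2 (h3.1 hug), Or.inr hu⟩
          · rintro ⟨hug, hu | hu⟩
            · have h3 : u ∈ h₀ ∩ T := Finset.mem_inter.2 ⟨hug, hu⟩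
              rw [hh₀s, ← hgT] at h3
              exact ⟨(Finset.mem_inter.1 h3).1, Or.inl hu⟩
            · have h3 : u ∈ g ↔ u ∈ z (g ∩ T) := by
                by_contra hcon
                exact hg ⟨u, hu, hcon⟩
              rw [hgT] at h3
              exact ⟨h3.2 ((hA u hu).1 hug), Or.inr hu⟩
      have e1 : mass C q (fun g => g ∩ (T ∪ R) = h₀ ∩ (T ∪ R)) = mass C q (fun h => h ∩ T = s ∧
          ¬ ∃ u ∈ R, ¬ (u ∈ h ↔ u ∈ z (h ∩ T))) :=
        Pool.Agent.MPaa62e0T.mass_congr fun g _ => hiff g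
      have e2 : mass C q' (fun g => g ∩ (T ∪ R) = h₀ ∩ (T ∪ R)) = mass C q' (fun h => h ∩ T = s ∧
          ¬ ∃ u ∈ R, ¬ (u ∈ h ↔ u ∈ z (h ∩ T))) :=
        Pool.Agent.MPaa62e0T.mass_congr fun g _ => hiff g
      rw [e1, e2] at hbs
      linarith
    · push Not at hA
      have hsub : ∀ g ∈ C, g ∩ (T ∪ R) = h₀ ∩ (T ∪ R) →
          (g ∩ T = s ∧ ∃ u ∈ R, ¬ (u ∈ g ↔ u ∈ z (g ∩ T))) := by
        intro g _ hg
        obtain ⟨u, hu, hne⟩ := hA
        refine ⟨hQT g hg, u, hu, ?_⟩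
        rw [hQT g hg, hQR g hg u hu]
        intro hcon
        rcases hne with hne | hne
        · exact hne.2 (hcon.1 hne.1)
        · exact hne.1 (hcon.2 hne.2)
      have e1 := Pool.Agent.MPaa62e0T.mass_mono (C := C) hq.1 hsub
      have e2 := Pool.Agent.MPaa62e0T.mass_mono (C := C) hq'.1 hsub
      have e3 : 0 ≤ mass C q' (fun h => h ∩ T = s ∧
          ¬ ∃ u ∈ R, ¬ (u ∈ h ↔ u ∈ z (h ∩ T))) :=
        Pool.Agent.MPaa62e0T.mass_nonneg hq'.1 _
      linarith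
  have h2 := Finset.sum_le_sum hpt
  rw [Finset.sum_add_distrib, ← Finset.mul_sum, Pool.Agent.MPaa62e0T.sum_traces,
    Pool.Agent.MPaa62e0T.sum_traces] at h2
  linarith

end Pool.Agent.MPaa62e0V
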