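import Pool.Agent.Lib.MP_aa62e0_lcV2.EntMode

set_option autoImplicit false
set_option linter.unusedSectionVars false

open Finset
open scoped Classical

namespace Pool.Agent.MPaa62e0V

open Pool.Agent.MPaa62e0T (mass traces Ent IsProb mass_nonneg mass_mono mass_congr mass_split
  sum_traces)

variable {α : Type} [Fintype α] [DecidableEq α]

/-- The largest mass of a trace on `T'` over a trace on `T`. -/
theorem rig_self_exists (C : Finset (Finset α)) (q : Finset α → ℝ) (hq : ∀ h, 0 ≤ q h)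
    (T T' s : Finset α) :
    ∃ b : ℝ, 0 ≤ b ∧ (∀ h ∈ C, h ∩ T = s → mass C q (fun g => g ∩ T' = h ∩ T') ≤ b) ∧
      (s ∈ traces C T → ∃ h ∈ C, h ∩ T = s ∧ b = mass C q (fun g => g ∩ T' = h ∩ T')) := by
  by_cases hne : (C.filter (fun h => h ∩ T = s)).Nonempty
  · obtain ⟨h, hh, hmax⟩ := Finset.exists_max_image (C.filter (fun h => h ∩ T = s))
      (fun h => mass C q (fun g => g ∩ T' = h ∩ T')) hne
    rw [Finset.mem_filter] at hh
    exact ⟨mass C q (fun g => g ∩ T' = h ∩ T'), mass_nonneg hq _,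
      fun h' hh' hs => hmax h' (Finset.mem_filter.2 ⟨hh', hs⟩), fun _ => ⟨h, hh.1, hh.2, rfl⟩⟩
  · refine ⟨0, le_rfl, fun h hh hs => absurd ⟨h, Finset.mem_filter.2 ⟨hh, hs⟩⟩ hne, fun hs => ?_⟩
    unfold traces at hs
    obtain ⟨h, hh, hs⟩ := Finset.mem_image.1 hs
    exact absurd ⟨h, Finset.mem_filter.2 ⟨hh, hs⟩⟩ hne

/-- The bad mass over one trace. -/
theorem rig_self_one (C : Finset (Finset α)) (q : Finset α → ℝ) (hq : ∀ h, 0 ≤ q h)
    (T R : Finset α) {h₀ : Finset α} (b : ℝ)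
    (hb : b = mass C q (fun g => g ∩ (T ∪ R) = h₀ ∩ (T ∪ R))) :
    mass C q (fun h => h ∩ T = h₀ ∩ T ∧
        ∃ u ∈ R, ¬ (u ∈ h ↔ u ∈ maj C q T (h ∩ T))) ≤
      2 * (mass C q (fun h => h ∩ T = h₀ ∩ T) - b) := by
  set a : ℝ := mass C q (fun h => h ∩ T = h₀ ∩ T) with ha
  have hsub : ∀ g : Finset α, g ∩ (T ∪ R) = h₀ ∩ (T ∪ R) → g ∩ T = h₀ ∩ T := by
    intro g hg
    have h1 : (g ∩ (T ∪ R)) ∩ T = (h₀ ∩ (T ∪ R)) ∩ T := by rw [hg]
    rwa [Finset.inter_assoc, Finset.inter_assoc,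
      Finset.inter_eq_right.2 Finset.subset_union_left] at h1
  have hba : b ≤ a := by
    rw [hb, ha]
    exact mass_mono hq fun g _ hg => hsub g hg
  by_cases hab : a / 2 < b
  · -- the mode agrees with the majority on `R`
    have hmaj : ∀ u ∈ R, (u ∈ maj C q T (h₀ ∩ T) ↔ u ∈ h₀) := by
      intro u hu
      have hu' : u ∈ T ∪ R := Finset.mem_union_right _ hu
      have hsplit : a = mass C q (fun h => h ∩ T = h₀ ∩ T ∧ u ∈ h) +
          mass C q (fun h => h ∩ T = h₀ ∩ T ∧ u ∉ h) :=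
        mass_split (fun h => h ∩ T = h₀ ∩ T) (fun h => u ∈ h)
      have hmem : ∀ g : Finset α, g ∩ (T ∪ R) = h₀ ∩ (T ∪ R) → (u ∈ g ↔ u ∈ h₀) := by
        intro g hg
        have h1 : u ∈ g ∩ (T ∪ R) ↔ u ∈ h₀ ∩ (T ∪ R) := by rw [hg]
        rw [Finset.mem_inter, Finset.mem_inter] at h1
        exact ⟨fun h => (h1.1 ⟨h, hu'⟩).1, fun h => (h1.2 ⟨h, hu'⟩).1⟩
      unfold maj
      rw [Finset.mem_filter]
      constructor
      · rintro ⟨_, h1⟩
        by_contra h2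
        have h3 : b ≤ mass C q (fun h => h ∩ T = h₀ ∩ T ∧ u ∉ h) := by
          rw [hb]
          exact mass_mono hq fun g _ hg => ⟨hsub g hg, fun h => h2 ((hmem g hg).1 h)⟩
        linarith
      · intro h2
        refine ⟨Finset.mem_univ _, ?_⟩
        have h3 : b ≤ mass C q (fun h => h ∩ T = h₀ ∩ T ∧ u ∈ h) := by
          rw [hb]
          exact mass_mono hq fun g _ hg => ⟨hsub g hg, (hmem g hg).2 h2⟩
        linarith
    have h1 : mass C q (fun h => h ∩ T = h₀ ∩ T ∧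
        ∃ u ∈ R, ¬ (u ∈ h ↔ u ∈ maj C q T (h ∩ T))) ≤
        mass C q (fun h => h ∩ T = h₀ ∩ T ∧ ¬ h ∩ (T ∪ R) = h₀ ∩ (T ∪ R)) := by
      refine mass_mono hq fun g _ hg => ⟨hg.1, fun h2 => ?_⟩
      obtain ⟨hg1, u, hu, hg2⟩ := hg
      apply hg2
      rw [hg1, hmaj u hu]
      have hu' : u ∈ T ∪ R := Finset.mem_union_right _ hu
      have h3 : u ∈ g ∩ (T ∪ R) ↔ u ∈ h₀ ∩ (T ∪ R) := by rw [h2]
      rw [Finset.mem_inter, Finset.mem_inter] at h3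
      exact ⟨fun h => (h3.1 ⟨h, hu'⟩).1, fun h => (h3.2 ⟨h, hu'⟩).1⟩
    have h2 : a = mass C q (fun h => h ∩ T = h₀ ∩ T ∧ h ∩ (T ∪ R) = h₀ ∩ (T ∪ R)) +
        mass C q (fun h => h ∩ T = h₀ ∩ T ∧ ¬ h ∩ (T ∪ R) = h₀ ∩ (T ∪ R)) :=
      mass_split (fun h => h ∩ T = h₀ ∩ T) (fun h => h ∩ (T ∪ R) = h₀ ∩ (T ∪ R))
    have h3 : b = mass C q (fun h => h ∩ T = h₀ ∩ T ∧ h ∩ (T ∪ R) = h₀ ∩ (T ∪ R)) := by
      rw [hb]
      exact mass_congr fun g _ => ⟨fun h => ⟨hsub g h, h⟩, fun h => h.2⟩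
    linarith
  · rw [not_lt] at hab
    have h1 : mass C q (fun h => h ∩ T = h₀ ∩ T ∧
        ∃ u ∈ R, ¬ (u ∈ h ↔ u ∈ maj C q T (h ∩ T))) ≤ a := by
      rw [ha]
      exact mass_mono hq fun g _ hg => hg.1
    linarith

/-- LEAF 3.  For a trace `s` on `T` let `a` be its mass and `b` the largest mass of a trace on
`T ∪ R` over `s`.  If `b > a/2` the mode agrees with `maj` on `R`, so the bad mass over `s` is at most
`a - b`; otherwise it is at most `a ≤ 2 (a - b)`.  Sum over `s` and use `ent_mode`. -/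
theorem rig_self (C : Finset (Finset α)) (q : Finset α → ℝ) (hq : IsProb C q) (T R : Finset α)
    (ε : ℝ) (h : Ent C q (T ∪ R) ≤ Ent C q T + ε) :
    mass C q (fun h => ∃ u ∈ R, ¬ (u ∈ h ↔ u ∈ maj C q T (h ∩ T))) ≤ 2 * ε := by
  choose b hb0 hb1 hb2 using rig_self_exists C q hq.1 T (T ∪ R)
  have h1 := ent_mode C q hq.1 T (T ∪ R) Finset.subset_union_left b hb0
    (fun h hh => hb1 (h ∩ T) h hh rfl)
  rw [← sum_traces C q T (fun h => ∃ u ∈ R, ¬ (u ∈ h ↔ u ∈ maj C q T (h ∩ T)))]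
  have h2 : ∑ s ∈ traces C T, mass C q (fun h => h ∩ T = s ∧
      ∃ u ∈ R, ¬ (u ∈ h ↔ u ∈ maj C q T (h ∩ T))) ≤
      ∑ s ∈ traces C T, 2 * (mass C q (fun h => h ∩ T = s) - b s) := by
    refine Finset.sum_le_sum fun s hs => ?_
    obtain ⟨h₀, _, hs₀, hbs⟩ := hb2 s hs
    subst hs₀
    exact rig_self_one C q hq.1 T R (b (h₀ ∩ T)) hbs
  rw [← Finset.mul_sum] at h2
  linarith

end Pool.Agent.MPaa62e0V
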