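import Pool.Agent.Lib.MP_aa62e0_lcV2.Stuck
import Pool.Agent.Lib.MP_aa62e0_lcV2.Rig
import Pool.Agent.Lib.MP_aa62e0_lcV2.RigSelf
import Pool.Agent.Lib.MP_aa62e0_lcV2.Fubini

set_option autoImplicit false
set_option linter.unusedSectionVars false

open Finset
open scoped Classical

namespace Pool.Agent.MPaa62e0V

open Pool.Agent.MPaa62e0T (mass traces Ent IsProb)

variable {α : Type} [Fintype α] [DecidableEq α]

/-- ASSEMBLY 7 (from `stuck` with `g = 1/8000`, `rig_self`, `rig`, `fubini_rig`, `z = maj C q T`). -/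
theorem rigid_state (C : Finset (Finset α)) (h0 : ∅ ∈ C) (d : ℕ) (hd : C.vcDim ≤ d)
    (A : Finset α) (t r : ℕ) (hr : 1 ≤ r) (M : ℝ)
    (hM : 100 * (d * Real.log (t + 1) + 1) ≤ M)
    (ht : 2 * (r : ℝ) + 8000 * (r * (d * Real.log (t + 1))) ≤ t) :
    ∃ T ⊆ A, T.card ≤ t ∧ ∃ q : Finset α → ℝ, IsProb C q ∧ ∃ z : Finset α → Finset α,
      ∃ β : ℝ, 0 ≤ β ∧ β ≤ 1 / 100 ∧ (∀ u ∈ A \ T, mass C q (fun h => u ∈ h) ≤ β) ∧
      ∀ q' : Finset α → ℝ, IsProb C q' →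
        (∀ s, mass C q' (fun h => h ∩ T = s) = mass C q (fun h => h ∩ T = s)) →
        ∀ e : ℝ, 0 ≤ e → (∀ u ∈ A \ T, mass C q' (fun h => u ∈ h) ≤ β + e) →
        ∀ p : α → ℝ, Meas (A \ T) p → ∀ θ : ℝ, 1 ≤ θ * r →
          mass C q' (fun h => θ < ms p (symmDiff h (z (h ∩ T)))) ≤ 2 * M * e + 1 / 500 := by
  have hlog : 0 ≤ (d : ℝ) * Real.log (t + 1) := by
    refine mul_nonneg (Nat.cast_nonneg d) (Real.log_nonneg ?_)
    have : (0 : ℝ) ≤ t := Nat.cast_nonneg t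
    linarith
  obtain ⟨T, hTA, hTt, q, hq, β, hβ0, hβ1, hβ, hst⟩ := stuck C h0 d hd A t r hr M (1 / 8000)
    (by norm_num) (by linarith) (by
      have h1 : (r : ℝ) * (d * Real.log (t + 1)) / (1 / 8000) =
          8000 * (r * (d * Real.log (t + 1))) := by ring
      rw [h1]
      exact ht)
  refine ⟨T, hTA, by omega, q, hq, maj C q T, β, hβ0, hβ1, hβ, ?_⟩
  intro q' hq' hm e he hβe p hp θ hθ
  have hself : ∀ R ⊆ A \ T, R.card ≤ r →
      mass C q (fun h => ∃ u ∈ R, ¬ (u ∈ h ↔ u ∈ maj C q T (h ∩ T))) ≤ 2 * (2 * (1 / 8000)) := by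
    intro R hR hRr
    refine rig_self C q hq T R (2 * (1 / 8000)) ?_
    have h1 := hst q hq (fun _ => rfl) 0 le_rfl (fun u hu => by rw [add_zero]; exact hβ u hu) R hR
      hRr
    have h2 : (fun h => (q h + q h) / 2) = q := by
      funext h
      ring
    rw [h2] at h1
    linarith
  have hE : ∀ R ⊆ A \ T, R.card ≤ r →
      mass C q' (fun h => ∃ u ∈ R, ¬ (u ∈ h ↔ u ∈ maj C q T (h ∩ T))) ≤ M * e + 1 / 1000 := by
    intro R hR hRr
    have h1 := rig C q q' hq hq' T R hm (maj C q T) (M * e / 2 + 2 * (1 / 8000))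
      (hst q' hq' hm e he hβe R hR hRr)
    have h2 := hself R hR hRr
    linarith
  have h3 := fubini_rig C q' hq'.1 T (A \ T) (maj C q T) r (M * e + 1 / 1000) hE p hp θ hθ
  linarith

end Pool.Agent.MPaa62e0V
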