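import Pool.Agent.Lib.MP_aa62e0_lcV2.Defs
import Pool.Agent.Lib.MP_aa62e0_lcT.EntUp

set_option autoImplicit false
set_option linter.unusedSectionVars false

open Finset
open scoped Classical

namespace Pool.Agent.MPaa62e0V

open Pool.Agent.MPaa62e0T (mass traces Ent IsProb)

variable {α : Type} [Fintype α] [DecidableEq α]

theorem stuck_mass_le_one {C : Finset (Finset α)} {q : Finset α → ℝ} (hq : IsProb C q)
    (P : Finset α → Prop) : mass C q P ≤ 1 := by
  unfold mass
  refine le_of_le_of_eq ?_ hq.2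
  exact Finset.sum_le_sum_of_subset_of_nonneg (Finset.filter_subset _ _) fun x _ _ => hq.1 x

theorem stuck_mass_zero {C : Finset (Finset α)} {q : Finset α → ℝ} {P : Finset α → Prop}
    (h : ∀ x, P x → q x = 0) : mass C q P = 0 := by
  unfold mass
  exact Finset.sum_eq_zero fun x hx => h x (Finset.mem_filter.1 hx).2

/-- LEAF 5 (stuck state).  Consider all triples `(T, q, β)` with `T ⊆ A`, `|T| ≤ t`, `q` a probability
on `C`, `0 ≤ β`, `mass (u ∈ h) ≤ β` for `u ∈ A \ T`, and the value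
`Φ = Ent C q T - M β - (g/r) |T| ≤ H = d log (t+1)` (`ent_bound`).  Take one with `Φ > sup - g`
(`exists_lt_of_lt_csSup`).  The triple `(∅, point mass at ∅, 0)` has `Φ ≥ 0` (entropy of one trace), so
`Φ ≥ -g`: `M β ≤ H + g` and `|T| ≤ r (H + g)/g`, so `|T| + r ≤ t`.  Comparison with
`(T ∪ R, (q+q')/2, β + e/2)` gives the last claim. -/
theorem stuck (C : Finset (Finset α)) (h0 : ∅ ∈ C) (d : ℕ) (hd : C.vcDim ≤ d) (A : Finset α)
    (t r : ℕ) (hr : 1 ≤ r) (M g : ℝ) (hg : 0 < g) (hM : 100 * (d * Real.log (t + 1) + g) ≤ M)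
    (ht : 2 * (r : ℝ) + r * (d * Real.log (t + 1)) / g ≤ t) :
    ∃ T ⊆ A, T.card + r ≤ t ∧ ∃ q : Finset α → ℝ, IsProb C q ∧ ∃ β : ℝ, 0 ≤ β ∧ β ≤ 1 / 100 ∧
      (∀ u ∈ A \ T, mass C q (fun h => u ∈ h) ≤ β) ∧
      ∀ q' : Finset α → ℝ, IsProb C q' →
        (∀ s, mass C q' (fun h => h ∩ T = s) = mass C q (fun h => h ∩ T = s)) →
        ∀ e : ℝ, 0 ≤ e → (∀ u ∈ A \ T, mass C q' (fun h => u ∈ h) ≤ β + e) →
        ∀ R ⊆ A \ T, R.card ≤ r →
          Ent C (fun h => (q h + q' h) / 2) (T ∪ R) ≤ Ent C q T + (M * e / 2 + 2 * g) := by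
  set H : ℝ := d * Real.log (t + 1) with hH
  have hH0 : 0 ≤ H := mul_nonneg (Nat.cast_nonneg d) (Real.log_nonneg (by
    have : (0 : ℝ) ≤ t := Nat.cast_nonneg t
    linarith))
  have hM0 : 0 < M := by linarith
  have hr0 : (0 : ℝ) < r := by exact_mod_cast hr
  have hgr : 0 < g / r := div_pos hg hr0
  -- the entropies are bounded
  have hbd : ∀ T : Finset α, T.card ≤ t → ∀ q, IsProb C q → Ent C q T ≤ H := by
    intro T hT q hq
    refine (Pool.Agent.MPaa62e0T.ent_bound C q hq d hd T).trans ?_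
    refine mul_le_mul_of_nonneg_left (Real.log_le_log (by positivity) ?_) (Nat.cast_nonneg d)
    have : (T.card : ℝ) ≤ t := by exact_mod_cast hT
    linarith
  set S : Set ℝ := {x | ∃ T ⊆ A, T.card ≤ t ∧ ∃ q, IsProb C q ∧ ∃ β : ℝ, 0 ≤ β ∧
    (∀ u ∈ A \ T, mass C q (fun h => u ∈ h) ≤ β) ∧
      x = Ent C q T - M * β - g / r * T.card} with hS
  have hSb : BddAbove S := by
    refine ⟨H, ?_⟩
    rintro x ⟨T, -, hT, q, hq, β, hβ, -, rfl⟩
    have h1 := hbd T hT q hq
    have h2 := mul_nonneg hM0.le hβ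
    have h3 : 0 ≤ g / r * T.card := mul_nonneg hgr.le (Nat.cast_nonneg _)
    linarith
  -- the trivial state
  obtain ⟨x₀, hx₀, hx₀S⟩ : ∃ x₀ : ℝ, 0 ≤ x₀ ∧ x₀ ∈ S := by
    have hprob : IsProb C (fun h : Finset α => if h = ∅ then (1 : ℝ) else 0) := by
      refine ⟨fun h => ?_, ?_⟩
      · show (0 : ℝ) ≤ if h = ∅ then (1 : ℝ) else 0
        split_ifs <;> norm_num
      · rw [Finset.sum_ite_eq' C ∅, if_pos h0]
    refine ⟨Ent C (fun h : Finset α => if h = ∅ then (1 : ℝ) else 0) ∅, ?_, ∅,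
      Finset.empty_subset _, by simp, _, hprob, 0, le_rfl, ?_, by simp⟩
    · unfold Ent
      refine Finset.sum_nonneg fun s _ => Real.negMulLog_nonneg ?_ ?_
      · exact Pool.Agent.MPaa62e0T.mass_nonneg hprob.1 _
      · exact stuck_mass_le_one hprob _
    · intro u _
      refine le_of_eq (stuck_mass_zero fun h hh => if_neg ?_)
      rintro rfl
      exact absurd hh (Finset.notMem_empty u)
  have hsup : x₀ ≤ sSup S := le_csSup hSb hx₀S
  obtain ⟨x, hxS, hx⟩ := exists_lt_of_lt_csSup ⟨x₀, hx₀S⟩ (show sSup S - g < sSup S by linarith)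
  obtain ⟨T, hTA, hT, q, hq, β, hβ, hm, rfl⟩ := hxS
  have h1 := hbd T hT q hq
  have h2 := mul_nonneg hM0.le hβ
  have h3 : 0 ≤ g / r * T.card := mul_nonneg hgr.le (Nat.cast_nonneg _)
  have hTr : T.card + r ≤ t := by
    have h4 : g / r * T.card < H + g := by linarith
    have h5 : (T.card : ℝ) < r * (H + g) / g := by
      rw [lt_div_iff₀ hg]
      have h6 : g / r * T.card * r = T.card * g := by
        field_simp
      have h7 := mul_lt_mul_of_pos_right h4 hr0
      rw [h6] at h7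
      linarith
    have h8 : r * (H + g) / g = r * H / g + r := by
      field_simp
    rw [h8] at h5
    have h9 : ((T.card + r : ℕ) : ℝ) ≤ t := by
      push_cast
      linarith
    exact_mod_cast h9
  have hβ1 : β ≤ 1 / 100 := by
    have h4 : M * β ≤ H + g := by linarith
    have h5 : M * β ≤ M * (1 / 100) := by linarith
    exact le_of_mul_le_mul_left h5 hM0
  refine ⟨T, hTA, hTr, q, hq, β, hβ, hβ1, hm, fun q' hq' _ e he hm' R hR hRr => ?_⟩
  have hcard : (T ∪ R).card ≤ T.card + r := (Finset.card_union_le _ _).trans (by omega)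
  have hmem : Ent C (fun h => (q h + q' h) / 2) (T ∪ R) - M * (β + e / 2) -
      g / r * (T ∪ R).card ∈ S := by
    refine ⟨T ∪ R, Finset.union_subset hTA (hR.trans Finset.sdiff_subset), hcard.trans hTr, _,
      ⟨fun h => ?_, ?_⟩, β + e / 2, by linarith, fun u hu => ?_, rfl⟩
    · have := hq.1 h
      have := hq'.1 h
      positivity
    · rw [← Finset.sum_div, Finset.sum_add_distrib, hq.2, hq'.2]
      norm_num
    · have hu' : u ∈ A \ T := by
        rw [Finset.mem_sdiff] at hu ⊢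
        exact ⟨hu.1, fun h => hu.2 (Finset.mem_union_left _ h)⟩
      have e1 : mass C (fun h => (q h + q' h) / 2) (fun h => u ∈ h) =
          (mass C q (fun h => u ∈ h) + mass C q' (fun h => u ∈ h)) / 2 := by
        unfold mass
        rw [← Finset.sum_div, Finset.sum_add_distrib]
      have := hm u hu'
      have := hm' u hu'
      rw [e1]
      linarith
  have h4 := le_csSup hSb hmem
  have h5 : g / r * ((T ∪ R).card : ℝ) ≤ g / r * T.card + g := by
    have h6 : ((T ∪ R).card : ℝ) ≤ T.card + r := by exact_mod_cast hcard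
    have h7 := mul_le_mul_of_nonneg_left h6 hgr.le
    have h8 : g / r * r = g := div_mul_cancel₀ g hr0.ne'
    rw [mul_add, h8] at h7
    exact h7
  have h6 : M * (β + e / 2) = M * β + M * e / 2 := by ring
  linarith

end Pool.Agent.MPaa62e0V
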